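import Mathlib

/-!
# The curves `(x² - m)(y² - n) = k`: the coverings and the certificate

`Obs m n g h q`: the covering `r² - m s² = g v²`, `u² - n v² = h s²` has no solution modulo `q²` with
`q ∤ (r, s)` and `q ∤ (u, v)`.  `Cert m n k`: for every factorisation `k = g h` there is such a `q`.
-/

set_option autoImplicit false

namespace Pool.Agent.H14Q

/-- the covering of `(x² - m)(y² - n) = g h` given by `(g, h)` has no primitive solution modulo `q²` -/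
def Obs (m n g h : ℤ) (q : ℕ) : Prop :=
  ∀ r s u v : ℤ, (q : ℤ) ^ 2 ∣ r ^ 2 - m * s ^ 2 - g * v ^ 2 →
    (q : ℤ) ^ 2 ∣ u ^ 2 - n * v ^ 2 - h * s ^ 2 →
    ((q : ℤ) ∣ r ∧ (q : ℤ) ∣ s) ∨ ((q : ℤ) ∣ u ∧ (q : ℤ) ∣ v)

/-- every covering has a local obstruction of this kind -/
def Cert (m n k : ℤ) : Prop :=
  k ≠ 0 ∧ ∀ g h : ℤ, g * h = k → ∃ q : ℕ, 2 ≤ q ∧ Obs m n g h q

/-- the descent -/
theorem desc {m n k : ℤ} {x y : ℚ} (h : (x ^ 2 - m) * (y ^ 2 - n) = k) :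
    ∃ g h r s u v : ℤ, g * h = k ∧ IsCoprime r s ∧ IsCoprime u v ∧
      r ^ 2 - m * s ^ 2 = g * v ^ 2 ∧ u ^ 2 - n * v ^ 2 = h * s ^ 2 := by
  obtain ⟨r, hr⟩ : ∃ r, r = x.num := ⟨_, rfl⟩
  obtain ⟨s, hs⟩ : ∃ s : ℤ, s = x.den := ⟨_, rfl⟩
  obtain ⟨u, hu⟩ : ∃ u, u = y.num := ⟨_, rfl⟩
  obtain ⟨v, hv⟩ : ∃ v : ℤ, v = y.den := ⟨_, rfl⟩
  have hs0 : s ≠ 0 := by rw [hs]; exact_mod_cast x.den_nz
  have hv0 : v ≠ 0 := by rw [hv]; exact_mod_cast y.den_nz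
  have hrs : IsCoprime r s := by
    rw [hr, hs, Int.isCoprime_iff_gcd_eq_one]
    exact x.reduced
  have huv : IsCoprime u v := by
    rw [hu, hv, Int.isCoprime_iff_gcd_eq_one]
    exact y.reduced
  have hx : x = (r : ℚ) / s := by rw [hr, hs]; exact_mod_cast (Rat.num_div_den x).symm
  have hy : y = (u : ℚ) / v := by rw [hu, hv]; exact_mod_cast (Rat.num_div_den y).symm
  have hsq : (s : ℚ) ≠ 0 := by exact_mod_cast hs0
  have hvq : (v : ℚ) ≠ 0 := by exact_mod_cast hv0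
  have key : (r ^ 2 - m * s ^ 2) * (u ^ 2 - n * v ^ 2) = k * s ^ 2 * v ^ 2 := by
    have h1 : (((r : ℚ) / s) ^ 2 - m) * (((u : ℚ) / v) ^ 2 - n) = k := by rw [← hx, ← hy]; exact h
    have h2 : ((r : ℚ) ^ 2 - m * s ^ 2) * ((u : ℚ) ^ 2 - n * v ^ 2) = k * s ^ 2 * v ^ 2 := by
      field_simp at h1
      linear_combination h1
    exact_mod_cast h2
  have c1 : IsCoprime (r ^ 2 - m * s ^ 2) (s ^ 2) := by
    have e : r ^ 2 - m * s ^ 2 = r ^ 2 + s ^ 2 * (-m) := by ring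
    rw [e, IsCoprime.add_mul_left_left_iff]
    exact hrs.pow
  have c2 : IsCoprime (u ^ 2 - n * v ^ 2) (v ^ 2) := by
    have e : u ^ 2 - n * v ^ 2 = u ^ 2 + v ^ 2 * (-n) := by ring
    rw [e, IsCoprime.add_mul_left_left_iff]
    exact huv.pow
  have d1 : v ^ 2 ∣ r ^ 2 - m * s ^ 2 := by
    refine c2.symm.dvd_of_dvd_mul_right ?_
    exact ⟨k * s ^ 2, by rw [key]; ring⟩
  have d2 : s ^ 2 ∣ u ^ 2 - n * v ^ 2 := by
    refine c1.symm.dvd_of_dvd_mul_left ?_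
    exact ⟨k * v ^ 2, by rw [key]; ring⟩
  obtain ⟨g, hg⟩ := d1
  obtain ⟨h', hh⟩ := d2
  refine ⟨g, h', r, s, u, v, ?_, hrs, huv, by rw [hg]; ring, by rw [hh]; ring⟩
  rw [hg, hh] at key
  have hsv : s ^ 2 * v ^ 2 ≠ 0 := mul_ne_zero (pow_ne_zero 2 hs0) (pow_ne_zero 2 hv0)
  refine mul_right_cancel₀ hsv ?_
  linear_combination key

/-- the certificate proves that there is no rational point -/
theorem Cert.no_zero {m n k : ℤ} (hc : Cert m n k) (x y : ℚ) :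
    (x ^ 2 - m) * (y ^ 2 - n) ≠ k := by
  intro h
  obtain ⟨g, h', r, s, u, v, hgh, hrs, huv, e1, e2⟩ := desc h
  obtain ⟨q, hq, ho⟩ := hc.2 g h' hgh
  have h1 : (q : ℤ) ^ 2 ∣ r ^ 2 - m * s ^ 2 - g * v ^ 2 := by rw [e1, sub_self]; exact dvd_zero _
  have h2 : (q : ℤ) ^ 2 ∣ u ^ 2 - n * v ^ 2 - h' * s ^ 2 := by rw [e2, sub_self]; exact dvd_zero _
  have hnu : ¬ IsUnit (q : ℤ) := by
    rw [Int.isUnit_iff]
    omega
  rcases ho r s u v h1 h2 with ⟨h3, h4⟩ | ⟨h3, h4⟩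
  · exact hnu (hrs.isUnit_of_dvd' h3 h4)
  · exact hnu (huv.isUnit_of_dvd' h3 h4)

/-! ### criteria -/

/-- `a` is not a square modulo the prime `q` (and not divisible by `q`) -/
def NR (q : ℕ) (a : ℤ) : Prop := ¬ IsSquare (a : ZMod q)

theorem nr_dvd {q : ℕ} (hq : q.Prime) {a : ℤ} (ha : NR q a) {x y : ℤ}
    (h : (q : ℤ) ∣ x ^ 2 - a * y ^ 2) : (q : ℤ) ∣ x ∧ (q : ℤ) ∣ y := by
  have : Fact q.Prime := ⟨hq⟩
  have h1 : (x : ZMod q) ^ 2 = a * (y : ZMod q) ^ 2 := by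
    have := (ZMod.intCast_zmod_eq_zero_iff_dvd (x ^ 2 - a * y ^ 2) q).2 h
    push_cast at this
    linear_combination this
  have hy : (y : ZMod q) = 0 := by
    by_contra hy
    refine ha ⟨(x : ZMod q) / y, ?_⟩
    field_simp
    linear_combination -h1
  have hx : (x : ZMod q) = 0 := by
    rw [hy] at h1
    have : (x : ZMod q) ^ 2 = 0 := by rw [h1]; ring
    exact pow_eq_zero_iff (two_ne_zero) |>.1 this
  exact ⟨(ZMod.intCast_zmod_eq_zero_iff_dvd x q).1 hx, (ZMod.intCast_zmod_eq_zero_iff_dvd y q).1 hy⟩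

theorem sq_dvd_of {q : ℤ} {x : ℤ} (h : q ∣ x) : q ^ 2 ∣ x ^ 2 := pow_dvd_pow_of_dvd h 2

/-- `q ∥ m n - k`, `g n` not a square modulo `q` -/
theorem obs_c {m n g h : ℤ} {q : ℕ} (hq : q.Prime) (h1 : (q : ℤ) ∣ m * n - g * h)
    (h2 : ¬ (q : ℤ) ^ 2 ∣ m * n - g * h) (h3 : NR q (g * n)) : Obs m n g h q := by
  intro r s u v e1 e2
  left
  have hq0 : (q : ℤ) ∣ (q : ℤ) ^ 2 := dvd_pow_self _ two_ne_zero
  -- g u² ≡ n r² - (mn - k) s² mod q²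
  have e3 : (q : ℤ) ^ 2 ∣ g * u ^ 2 - n * r ^ 2 + (m * n - g * h) * s ^ 2 := by
    have : g * u ^ 2 - n * r ^ 2 + (m * n - g * h) * s ^ 2 =
        g * (u ^ 2 - n * v ^ 2 - h * s ^ 2) - n * (r ^ 2 - m * s ^ 2 - g * v ^ 2) := by ring
    rw [this]
    exact dvd_sub (e2.mul_left _) (e1.mul_left _)
  have e4 : (q : ℤ) ∣ g * u ^ 2 - n * r ^ 2 := by
    have h4 := hq0.trans e3
    have h5 : (q : ℤ) ∣ (m * n - g * h) * s ^ 2 := h1.mul_right _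
    have := dvd_sub h4 h5
    have e : g * u ^ 2 - n * r ^ 2 + (m * n - g * h) * s ^ 2 - (m * n - g * h) * s ^ 2 =
      g * u ^ 2 - n * r ^ 2 := by ring
    rwa [e] at this
  have e5 : (q : ℤ) ∣ (g * u) ^ 2 - (g * n) * r ^ 2 := by
    have e : (g * u) ^ 2 - (g * n) * r ^ 2 = g * (g * u ^ 2 - n * r ^ 2) := by ring
    rw [e]
    exact e4.mul_left _
  obtain ⟨h6, h7⟩ := nr_dvd hq h3 e5
  have hqz : Prime (q : ℤ) := Nat.prime_iff_prime_int.1 hq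
  have hg : ¬ (q : ℤ) ∣ g := by
    intro hg
    apply h3
    have : ((g * n : ℤ) : ZMod q) = 0 := by
      rw [ZMod.intCast_zmod_eq_zero_iff_dvd]
      exact hg.mul_right _
    rw [this]
    exact ⟨0, by simp⟩
  have hu : (q : ℤ) ∣ u := (hqz.dvd_or_dvd h6).resolve_left hg
  have e6 : (q : ℤ) ^ 2 ∣ (m * n - g * h) * s ^ 2 := by
    have h8 : (q : ℤ) ^ 2 ∣ g * u ^ 2 - n * r ^ 2 :=
      dvd_sub ((sq_dvd_of hu).mul_left _) ((sq_dvd_of h7).mul_left _)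
    have := dvd_sub e3 h8
    have e : g * u ^ 2 - n * r ^ 2 + (m * n - g * h) * s ^ 2 - (g * u ^ 2 - n * r ^ 2) =
      (m * n - g * h) * s ^ 2 := by ring
    rwa [e] at this
  refine ⟨h7, ?_⟩
  by_contra hs
  apply h2
  have hcop : IsCoprime ((q : ℤ) ^ 2) (s ^ 2) := by
    refine IsCoprime.pow ?_
    exact (hqz.coprime_iff_not_dvd).2 hs
  exact hcop.dvd_of_dvd_mul_right e6

/-- `q ∥ n`, `h` not a square modulo `q` -/
theorem obs_b {m n g h : ℤ} {q : ℕ} (hq : q.Prime) (h1 : (q : ℤ) ∣ n)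
    (h2 : ¬ (q : ℤ) ^ 2 ∣ n) (h3 : NR q h) : Obs m n g h q := by
  intro r s u v e1 e2
  right
  have hq0 : (q : ℤ) ∣ (q : ℤ) ^ 2 := dvd_pow_self _ two_ne_zero
  have e4 : (q : ℤ) ∣ u ^ 2 - h * s ^ 2 := by
    have h4 := hq0.trans e2
    have h5 : (q : ℤ) ∣ n * v ^ 2 := h1.mul_right _
    have := dvd_add h4 h5
    have e : u ^ 2 - n * v ^ 2 - h * s ^ 2 + n * v ^ 2 = u ^ 2 - h * s ^ 2 := by ring
    rwa [e] at this
  obtain ⟨h6, h7⟩ := nr_dvd hq h3 e4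
  have hqz : Prime (q : ℤ) := Nat.prime_iff_prime_int.1 hq
  have e6 : (q : ℤ) ^ 2 ∣ n * v ^ 2 := by
    have h8 : (q : ℤ) ^ 2 ∣ u ^ 2 - h * s ^ 2 :=
      dvd_sub (sq_dvd_of h6) ((sq_dvd_of h7).mul_left _)
    have := dvd_sub h8 e2
    have e : u ^ 2 - h * s ^ 2 - (u ^ 2 - n * v ^ 2 - h * s ^ 2) = n * v ^ 2 := by ring
    rwa [e] at this
  refine ⟨h6, ?_⟩
  by_contra hs
  apply h2
  have hcop : IsCoprime ((q : ℤ) ^ 2) (v ^ 2) := by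
    refine IsCoprime.pow ?_
    exact (hqz.coprime_iff_not_dvd).2 hs
  exact hcop.dvd_of_dvd_mul_right e6

/-- `q ∣ h`, `n` not a square modulo `q` -/
theorem obs_e {m n g h : ℤ} {q : ℕ} (hq : q.Prime) (h1 : (q : ℤ) ∣ h) (h3 : NR q n) :
    Obs m n g h q := by
  intro r s u v e1 e2
  right
  have hq0 : (q : ℤ) ∣ (q : ℤ) ^ 2 := dvd_pow_self _ two_ne_zero
  have e4 : (q : ℤ) ∣ u ^ 2 - n * v ^ 2 := by
    have h4 := hq0.trans e2
    have h5 : (q : ℤ) ∣ h * s ^ 2 := h1.mul_right _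
    have := dvd_add h4 h5
    have e : u ^ 2 - n * v ^ 2 - h * s ^ 2 + h * s ^ 2 = u ^ 2 - n * v ^ 2 := by ring
    rwa [e] at this
  exact nr_dvd hq h3 e4

/-- the symmetry -/
theorem Obs.symm {m n g h : ℤ} {q : ℕ} (ho : Obs n m h g q) : Obs m n g h q := by
  intro r s u v e1 e2
  exact (ho u v r s e2 e1).symm

/-- `q ∣ g`, `m` not a square modulo `q` -/
theorem obs_d {m n g h : ℤ} {q : ℕ} (hq : q.Prime) (h1 : (q : ℤ) ∣ g) (h3 : NR q m) :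
    Obs m n g h q := (obs_e (m := n) (g := h) hq h1 h3).symm

end Pool.Agent.H14Q
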