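import Pool.Agent.R395.CT.Comp
import Pool.Agent.H14Q.Desc

/-!
# The partial algorithm: the search for a certificate
-/

set_option autoImplicit false

namespace Pool.Agent.H14Q

open Pool.Agent.Helper446 Pool.Agent.W960.GA Pool.Agent.R395.CT

/-- the coefficients of `(x² - m)(y² - n) - k` -/
def curve (m n k : ℤ) : List (List ℤ) := [[m * n - k, 0, -m], [], [-n, 0, 1]]

theorem curve_inj {m n k m' n' k' : ℤ} (h : curve m n k = curve m' n' k') :
    m = m' ∧ n = n' ∧ k = k' := by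
  unfold curve at h
  simp only [List.cons.injEq, and_true, true_and] at h
  obtain ⟨⟨h1, h2⟩, h3⟩ := h
  have h2' : m = m' := neg_injective h2
  have h3' : n = n' := neg_injective h3
  subst h2' h3'
  exact ⟨rfl, rfl, by linarith⟩

/-- reduction modulo `q²` -/
theorem exists_red {q : ℕ} (hq : 0 < q) (x : ℤ) : ∃ a < q * q, (q : ℤ) ^ 2 ∣ x - a := by
  have hpos : (0 : ℤ) < (q : ℤ) ^ 2 := by positivity
  refine ⟨(x % (q : ℤ) ^ 2).toNat, ?_, ?_⟩
  · have h1 := Int.emod_lt_of_pos x hpos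
    have h2 := Int.emod_nonneg x hpos.ne'
    zify
    rw [Int.toNat_of_nonneg h2]
    linarith [sq (q : ℤ)]
  · rw [Int.toNat_of_nonneg (Int.emod_nonneg x hpos.ne')]
    exact Int.dvd_self_sub_emod

/-- the absolute value, computably -/
def ab (z : ℤ) : ℕ := z.toNat + (-z).toNat

theorem ab_eq (z : ℤ) : ab z = z.natAbs := by unfold ab; omega

/-- `Obs` in bounded form -/
def ObsB (m n g h : ℤ) (q : ℕ) : Prop :=
  ∀ r < q * q, ∀ s < q * q, ∀ u < q * q, ∀ v < q * q,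
    ((q * q ∣ ab ((r : ℤ) * r - m * (s * s) - g * (v * v)) ∧
      q * q ∣ ab ((u : ℤ) * u - n * (v * v) - h * (s * s))) →
    ((q ∣ r ∧ q ∣ s) ∨ (q ∣ u ∧ q ∣ v)))

theorem dvd_congr {q : ℤ} {x a : ℤ} (h : q ^ 2 ∣ x - a) : q ∣ x ↔ q ∣ a := by
  have h1 : q ∣ x - a := (dvd_pow_self _ two_ne_zero).trans h
  constructor
  · intro hx
    have := dvd_sub hx h1
    rwa [sub_sub_cancel] at this
  · intro ha
    have := dvd_add h1 ha
    rwa [sub_add_cancel] at this

theorem obs_iff {m n g h : ℤ} {q : ℕ} (hq : 0 < q) : Obs m n g h q ↔ ObsB m n g h q := by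
  have hdv : ∀ z : ℤ, q * q ∣ ab z ↔ (q : ℤ) ^ 2 ∣ z := by
    intro z
    rw [ab_eq, ← Int.natCast_dvd, sq]
    push_cast
    rfl
  constructor
  · intro ho r _ s _ u _ v _ ⟨e1, e2⟩
    rw [hdv] at e1 e2
    have := ho r s u v (by convert e1 using 1; ring) (by convert e2 using 1; ring)
    simpa only [Int.natCast_dvd_natCast] using this
  · intro ho r s u v e1 e2
    obtain ⟨r', hr', hr⟩ := exists_red hq r
    obtain ⟨s', hs', hs⟩ := exists_red hq s
    obtain ⟨u', hu', hu⟩ := exists_red hq u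
    obtain ⟨v', hv', hv⟩ := exists_red hq v
    have hsq : ∀ {x a : ℤ}, (q : ℤ) ^ 2 ∣ x - a → (q : ℤ) ^ 2 ∣ x ^ 2 - a ^ 2 := by
      intro x a h
      exact h.trans (sub_dvd_pow_sub_pow x a 2)
    have f1 : q * q ∣ ab ((r' : ℤ) * r' - m * (s' * s') - g * (v' * v')) := by
      rw [hdv]
      have e : (r' : ℤ) * r' - m * (s' * s') - g * (v' * v') =
        (r ^ 2 - m * s ^ 2 - g * v ^ 2) - (r ^ 2 - (r' : ℤ) ^ 2) + m * (s ^ 2 - (s' : ℤ) ^ 2)
          + g * (v ^ 2 - (v' : ℤ) ^ 2) := by ring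
      rw [e]
      exact dvd_add (dvd_add (dvd_sub e1 (hsq hr)) ((hsq hs).mul_left _)) ((hsq hv).mul_left _)
    have f2 : q * q ∣ ab ((u' : ℤ) * u' - n * (v' * v') - h * (s' * s')) := by
      rw [hdv]
      have e : (u' : ℤ) * u' - n * (v' * v') - h * (s' * s') =
        (u ^ 2 - n * v ^ 2 - h * s ^ 2) - (u ^ 2 - (u' : ℤ) ^ 2) + n * (v ^ 2 - (v' : ℤ) ^ 2)
          + h * (s ^ 2 - (s' : ℤ) ^ 2) := by ring
      rw [e]
      exact dvd_add (dvd_add (dvd_sub e2 (hsq hu)) ((hsq hv).mul_left _)) ((hsq hs).mul_left _)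
    have := ho r' hr' s' hs' u' hu' v' hv' ⟨f1, f2⟩
    rw [dvd_congr hr, dvd_congr hs, dvd_congr hu, dvd_congr hv]
    simpa only [Int.natCast_dvd_natCast] using this

/-- `Cert` in bounded form -/
def CertB (m n k : ℤ) : Prop :=
  (¬ k = 0) ∧ ∀ a < 2 * ab k + 1, ∀ b < 2 * ab k + 1,
    (¬ ((a : ℤ) - ab k) * ((b : ℤ) - ab k) = k) ∨
      ∃ q : ℕ, 1 < q ∧ ObsB m n ((a : ℤ) - ab k) ((b : ℤ) - ab k) q

theorem cert_iff (m n k : ℤ) : Cert m n k ↔ CertB m n k := by
  constructor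
  · rintro ⟨hk, hc⟩
    refine ⟨hk, fun a _ b _ => ?_⟩
    by_cases hab : ((a : ℤ) - ab k) * ((b : ℤ) - ab k) = k
    · obtain ⟨q, hq, ho⟩ := hc _ _ hab
      exact Or.inr ⟨q, hq, (obs_iff (by omega)).1 ho⟩
    · exact Or.inl hab
  · rintro ⟨hk, hc⟩
    refine ⟨hk, fun g h hgh => ?_⟩
    have hbd : ∀ x : ℤ, x ∣ k → ∃ a < 2 * ab k + 1, (a : ℤ) - ab k = x := by
      intro x hx
      have h1 : x.natAbs ≤ k.natAbs := Nat.le_of_dvd (Int.natAbs_pos.2 hk) (Int.natAbs_dvd_natAbs.2 hx)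
      rw [ab_eq]
      refine ⟨(x + k.natAbs).toNat, ?_, ?_⟩ <;> omega
    obtain ⟨a, ha, ea⟩ := hbd g ⟨h, hgh.symm⟩
    obtain ⟨b, hb, eb⟩ := hbd h ⟨g, by rw [← hgh]; ring⟩
    have := hc a ha b hb
    rw [ea, eb] at this
    rcases this with h1 | ⟨q, hq, ho⟩
    · exact absurd hgh h1
    · exact ⟨q, hq, (obs_iff (by omega)).2 ho⟩

section

variable {α : Type} [Primcodable α]

attribute [local fun_prop] ciadd cisub cimul cineg cicast

@[local fun_prop] theorem cab {f : α → ℤ} (hf : Computable f) : Computable (fun x => ab (f x)) := by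
  unfold ab
  exact RE.cadd (Pool.Agent.Helper566.FD.J7.prim_toNat.to_comp.comp hf)
    (Pool.Agent.Helper566.FD.J7.prim_toNat_neg.to_comp.comp hf)

/-- the matrix of `ObsB` -/
def ObsA (m n g h : ℤ) (q r s u v : ℕ) : Prop :=
  ((q * q ∣ ab ((r : ℤ) * r - m * (s * s) - g * (v * v)) ∧
      q * q ∣ ab ((u : ℤ) * u - n * (v * v) - h * (s * s))) →
    ((q ∣ r ∧ q ∣ s) ∨ (q ∣ u ∧ q ∣ v)))

theorem cp_sq {f : α → ℤ} {q : α → ℕ} (hf : Computable f) (hq : Computable q) :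
    ComputablePred fun x => q x * q x ∣ ab (f x) := cp_dvd (by fun_prop) (by fun_prop)

theorem ciform {m g : α → ℤ} {r s v : α → ℕ} (hm : Computable m) (hg : Computable g)
    (hr : Computable r) (hs : Computable s) (hv : Computable v) :
    Computable fun x => (r x : ℤ) * r x - m x * (s x * s x) - g x * (v x * v x) := by
  have h1 : Computable fun x => (r x : ℤ) := by fun_prop
  have h2 : Computable fun x => (s x : ℤ) := by fun_prop
  have h3 : Computable fun x => (v x : ℤ) := by fun_prop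
  exact cisub (cisub (cimul h1 h1) (cimul hm (cimul h2 h2))) (cimul hg (cimul h3 h3))

theorem cp_obsA {m n g h : α → ℤ} {q r s u v : α → ℕ} (hm : Computable m) (hn : Computable n)
    (hg : Computable g) (hh : Computable h) (hq : Computable q) (hr : Computable r)
    (hs : Computable s) (hu : Computable u) (hv : Computable v) :
    ComputablePred fun x => ObsA (m x) (n x) (g x) (h x) (q x) (r x) (s x) (u x) (v x) := by
  unfold ObsA
  exact cp_imp (cp_and (cp_sq (ciform hm hg hr hs hv) hq) (cp_sq (ciform hn hh hu hv hs) hq))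
    (cp_or (cp_and (cp_dvd hq hr) (cp_dvd hq hs)) (cp_and (cp_dvd hq hu) (cp_dvd hq hv)))

theorem cp_obs {m n g h : α → ℤ} {q : α → ℕ} (hm : Computable m) (hn : Computable n)
    (hg : Computable g) (hh : Computable h) (hq : Computable q) :
    ComputablePred fun x => ObsB (m x) (n x) (g x) (h x) (q x) := by
  change ComputablePred fun x => ∀ r < q x * q x, ∀ s < q x * q x, ∀ u < q x * q x,
    ∀ v < q x * q x, ObsA (m x) (n x) (g x) (h x) (q x) r s u v
  refine cp_all_lt (p := fun x r => ∀ s < q x * q x, ∀ u < q x * q x, ∀ v < q x * q x,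
    ObsA (m x) (n x) (g x) (h x) (q x) r s u v) ?_ (by fun_prop)
  refine cp_all_lt (p := fun (x : α × ℕ) s => ∀ u < q x.1 * q x.1, ∀ v < q x.1 * q x.1,
    ObsA (m x.1) (n x.1) (g x.1) (h x.1) (q x.1) x.2 s u v) ?_ (by fun_prop)
  refine cp_all_lt (p := fun (x : (α × ℕ) × ℕ) u => ∀ v < q x.1.1 * q x.1.1,
    ObsA (m x.1.1) (n x.1.1) (g x.1.1) (h x.1.1) (q x.1.1) x.1.2 x.2 u v) ?_ (by fun_prop)
  refine cp_all_lt (p := fun (x : ((α × ℕ) × ℕ) × ℕ) v =>
    ObsA (m x.1.1.1) (n x.1.1.1) (g x.1.1.1) (h x.1.1.1) (q x.1.1.1) x.1.1.2 x.1.2 x.2 v) ?_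
    (by fun_prop)
  apply cp_obsA <;> fun_prop

theorem re_cert {m n k : α → ℤ} (hm : Computable m) (hn : Computable n) (hk : Computable k) :
    REPred fun x => CertB (m x) (n x) (k x) := by
  unfold CertB
  refine RE.and (RE.of_comput (cp_not (RE.cp_eq (by fun_prop) (by fun_prop)))) ?_
  refine RE.all_lt (p := fun x a => ∀ b < 2 * ab (k x) + 1,
    (¬ ((a : ℤ) - ab (k x)) * ((b : ℤ) - ab (k x)) = k x) ∨
      ∃ q : ℕ, 1 < q ∧ ObsB (m x) (n x) ((a : ℤ) - ab (k x)) ((b : ℤ) - ab (k x)) q) ?_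
    (by fun_prop)
  refine RE.all_lt (p := fun (x : α × ℕ) b =>
    (¬ ((x.2 : ℤ) - ab (k x.1)) * ((b : ℤ) - ab (k x.1)) = k x.1) ∨
      ∃ q : ℕ, 1 < q ∧ ObsB (m x.1) (n x.1) ((x.2 : ℤ) - ab (k x.1)) ((b : ℤ) - ab (k x.1)) q) ?_
    (by fun_prop)
  refine RE.or (RE.of_comput (cp_not (RE.cp_eq (by fun_prop) (by fun_prop)))) ?_
  refine RE.exN (p := fun (x : (α × ℕ) × ℕ) q => 1 < q ∧ ObsB (m x.1.1) (n x.1.1)
    ((x.1.2 : ℤ) - ab (k x.1.1)) ((x.2 : ℤ) - ab (k x.1.1)) q) ?_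
  refine RE.of_comput (cp_and (RE.cp_lt (by fun_prop) (by fun_prop)) ?_)
  apply cp_obs <;> fun_prop

@[local fun_prop] theorem ccurve {f g h : α → ℤ} (hf : Computable f) (hg : Computable g)
    (hh : Computable h) : Computable (fun x => curve (f x) (g x) (h x)) := by
  unfold curve
  refine Computable.list_cons.comp (Computable.list_cons.comp (by fun_prop)
    (Computable.list_cons.comp (Computable.const _) (Computable.list_cons.comp (by fun_prop)
    (Computable.const _)))) (Computable.list_cons.comp (Computable.const _)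
    (Computable.list_cons.comp (Computable.list_cons.comp (by fun_prop) (Computable.const _))
    (Computable.const _)))

/-- there is a certificate for `L` -/
def PFin (L : List (List ℤ)) : Prop :=
  ∃ w : ℤ × ℤ × ℤ, CertB w.1 w.2.1 w.2.2 ∧ L = curve w.1 w.2.1 w.2.2

theorem re_PFin : REPred PFin := by
  unfold PFin
  refine RE.ex (p := fun (L : List (List ℤ)) (w : ℤ × ℤ × ℤ) =>
    CertB w.1 w.2.1 w.2.2 ∧ L = curve w.1 w.2.1 w.2.2) ?_
  refine RE.and (re_cert (by fun_prop) (by fun_prop) (by fun_prop)) (RE.of_comput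
    (RE.cp_eq (by fun_prop) (by fun_prop)))

end

theorem pFin_curve (m n k : ℤ) : PFin (curve m n k) ↔ Cert m n k := by
  rw [cert_iff]
  constructor
  · rintro ⟨⟨m', n', k'⟩, h1, h2⟩
    obtain ⟨rfl, rfl, rfl⟩ := curve_inj h2
    exact h1
  · intro h
    exact ⟨(m, n, k), h, rfl⟩

/-- the partial algorithm -/
theorem exists_alg : ∃ φ : List (List ℤ) →. Bool, Partrec φ ∧
    (∀ L, true ∉ φ L) ∧ (∀ L, false ∈ φ L ↔ ∃ m n k, L = curve m n k ∧ Cert m n k) := by
  obtain ⟨f, hf, h1, h2⟩ := RE.uniformize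
    (r := fun (L : List (List ℤ)) (b : Bool) => b = false ∧ PFin L)
    (RE.and (RE.eq (by fun_prop) (by fun_prop)) (RE.comp re_PFin (by fun_prop)))
  refine ⟨f, hf, fun L hL => ?_, fun L => ?_⟩
  · exact absurd (h2 L true hL).1 (by decide)
  · constructor
    · intro h
      obtain ⟨-, ⟨⟨m, n, k⟩, h3, h4⟩⟩ := h2 L false h
      exact ⟨m, n, k, h4, (cert_iff _ _ _).2 h3⟩
    · rintro ⟨m, n, k, rfl, hc⟩
      have hd : (f (curve m n k)).Dom := (h1 _).2 ⟨false, rfl, (pFin_curve m n k).2 hc⟩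
      obtain ⟨b, hb⟩ := Part.dom_iff_mem.1 hd
      have := (h2 _ b hb).1
      rwa [this] at hb

end Pool.Agent.H14Q
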