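import Pool.Agent.Erdos456.Mertens

/-!
# Sums over primes
-/

set_option autoImplicit false

namespace Pool.Agent.H14Q

open Finset

/-- the primes `y < t ≤ Q` not dividing `k` -/
def prs (y Q k : ℕ) : Finset ℕ := (Icc 1 Q).filter fun t => t.Prime ∧ y < t ∧ ¬ t ∣ k

theorem mem_prs {y Q k t : ℕ} : t ∈ prs y Q k ↔ t ≤ Q ∧ t.Prime ∧ y < t ∧ ¬ t ∣ k := by
  unfold prs
  rw [mem_filter, mem_Icc]
  constructor
  · rintro ⟨h1, h2⟩
    exact ⟨h1.2, h2⟩
  · rintro ⟨h1, h2⟩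
    exact ⟨⟨h2.1.pos, h1⟩, h2⟩

theorem mert : ∃ C : ℝ, 0 ≤ C ∧ ∀ y Q k : ℕ, 2 ≤ y → 3 ≤ Q → k ≠ 0 →
    Real.log (Real.log Q) - Real.log (Real.log ((y + 1 : ℕ) : ℝ)) - C
      - ∑ t ∈ k.primeFactors, (1 : ℝ) / t ≤ ∑ t ∈ prs y Q k, (1 : ℝ) / t := by
  obtain ⟨C, hC⟩ := Pool.Agent.Erdos456.Mert.mertens_inv
  have hC0 : 0 ≤ C := (abs_nonneg _).trans (hC 3 le_rfl)
  refine ⟨2 * C, by linarith, ?_⟩
  intro y Q k hy hQ hk
  have h1 := (abs_le.1 (hC Q hQ)).1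
  have h2 := (abs_le.1 (hC (y + 1) (by omega))).2
  have h3 : ∑ p ∈ (Finset.Icc 1 Q).filter Nat.Prime, (1 : ℝ) / p ≤
      ∑ t ∈ prs y Q k, (1 : ℝ) / t + ∑ p ∈ (Finset.Icc 1 (y + 1)).filter Nat.Prime, (1 : ℝ) / p +
        ∑ t ∈ k.primeFactors, (1 : ℝ) / t := by
    have hsub : (Finset.Icc 1 Q).filter Nat.Prime ⊆
        (prs y Q k ∪ (Finset.Icc 1 (y + 1)).filter Nat.Prime) ∪ k.primeFactors := by
      intro t ht
      rw [mem_filter, mem_Icc] at ht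
      rw [mem_union, mem_union, mem_prs, mem_filter, mem_Icc, Nat.mem_primeFactors]
      by_cases h4 : t ∣ k
      · exact Or.inr ⟨ht.2, h4, hk⟩
      · by_cases h5 : y < t
        · exact Or.inl (Or.inl ⟨ht.1.2, ht.2, h5, h4⟩)
        · exact Or.inl (Or.inr ⟨⟨ht.1.1, by omega⟩, ht.2⟩)
    have hn : ∀ t : ℕ, 0 ≤ (1 : ℝ) / t := fun t => by positivity
    refine (Finset.sum_le_sum_of_subset_of_nonneg hsub fun t _ _ => hn t).trans ?_
    have e1 := Finset.sum_union_inter (f := fun t : ℕ => (1 : ℝ) / t)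
      (s₁ := prs y Q k ∪ (Finset.Icc 1 (y + 1)).filter Nat.Prime) (s₂ := k.primeFactors)
    have e2 := Finset.sum_union_inter (f := fun t : ℕ => (1 : ℝ) / t)
      (s₁ := prs y Q k) (s₂ := (Finset.Icc 1 (y + 1)).filter Nat.Prime)
    have n1 := Finset.sum_nonneg fun t (_ : t ∈ (prs y Q k ∪ (Finset.Icc 1 (y + 1)).filter
      Nat.Prime) ∩ k.primeFactors) => hn t
    have n2 := Finset.sum_nonneg fun t (_ : t ∈ prs y Q k ∩ (Finset.Icc 1 (y + 1)).filter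
      Nat.Prime) => hn t
    linarith
  linarith

/-- the sum of the `1 / t²` -/
theorem sum_sq_le : ∃ C : ℝ, 0 ≤ C ∧ ∀ S : Finset ℕ, ∑ t ∈ S, (1 : ℝ) / (t : ℝ) ^ 2 ≤ C := by
  have hs : Summable (fun n : ℕ => 1 / (n : ℝ) ^ 2) := Real.summable_one_div_nat_pow.2 (by norm_num)
  exact ⟨∑' n : ℕ, 1 / (n : ℝ) ^ 2, tsum_nonneg fun n => by positivity,
    fun S => hs.sum_le_tsum S fun n _ => by positivity⟩

/-- the tail of the sum of the `1 / t²` -/
theorem sum_sq_tail {y Q : ℕ} (hy : 1 ≤ y) :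
    ∑ t ∈ (Icc 1 Q).filter (fun t => y < t), (1 : ℝ) / (t : ℝ) ^ 2 ≤ 1 / y := by
  have hsub : (Icc 1 Q).filter (fun t => y < t) ⊆ Ioc y (max y Q) := by
    intro t ht
    rw [mem_filter, mem_Icc] at ht
    rw [mem_Ioc]
    exact ⟨ht.2, le_trans ht.1.2 (le_max_right _ _)⟩
  refine (Finset.sum_le_sum_of_subset_of_nonneg hsub fun t _ _ => by positivity).trans ?_
  have hyr : (0 : ℝ) < y := by exact_mod_cast hy
  have key : ∀ n : ℕ, y ≤ n → ∑ t ∈ Ioc y n, (1 : ℝ) / (t : ℝ) ^ 2 ≤ 1 / y - 1 / n := by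
    intro n hn
    induction n, hn using Nat.le_induction with
    | base => simp
    | succ n hn ih =>
      rw [Finset.sum_Ioc_succ_top hn]
      have hn0 : (0 : ℝ) < n := by exact_mod_cast (lt_of_lt_of_le (Nat.lt_of_lt_of_le Nat.zero_lt_one hy) hn)
      have h1 : (1 : ℝ) / ((n + 1 : ℕ) : ℝ) ^ 2 ≤ 1 / n - 1 / ((n + 1 : ℕ) : ℝ) := by
        push_cast
        rw [div_sub_div _ _ hn0.ne' (by positivity), div_le_div_iff₀ (by positivity) (by positivity)]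
        nlinarith
      linarith
  refine (key _ (le_max_left _ _)).trans ?_
  have : (0 : ℝ) ≤ 1 / ((max y Q : ℕ) : ℝ) := by positivity
  linarith

/-- `∏_{t ∣ k} exp (1 / t) ≤ τ(k)` -/
theorem exp_factors {k : ℕ} (hk : k ≠ 0) :
    Real.exp (∑ t ∈ k.primeFactors, (1 : ℝ) / t) ≤ (k.divisors.card : ℝ) := by
  rw [Real.exp_sum, Nat.card_divisors hk]
  push_cast
  refine Finset.prod_le_prod (fun t _ => (Real.exp_pos _).le) fun t ht => ?_
  have htp := Nat.prime_of_mem_primeFactors ht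
  have h1 : (1 : ℝ) ≤ k.factorization t := by
    have := (Nat.Prime.factorization_pos_of_dvd htp hk (Nat.dvd_of_mem_primeFactors ht))
    exact_mod_cast this
  have h2 : (1 : ℝ) / t ≤ 1 / 2 := by
    have : (2 : ℝ) ≤ t := by exact_mod_cast htp.two_le
    exact one_div_le_one_div_of_le (by norm_num) this
  have h3 : Real.exp (1 / t) ≤ 2 := by
    refine (Real.exp_le_exp.2 h2).trans ?_
    have h4 : Real.exp (1 / 2) ^ 2 ≤ 2 ^ 2 := by
      rw [← Real.exp_nat_mul]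
      norm_num
      linarith [Real.exp_one_lt_d9]
    exact (pow_le_pow_iff_left₀ (Real.exp_pos _).le (by norm_num) two_ne_zero).1 h4
  linarith

end Pool.Agent.H14Q
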