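import Mathlib

/-!
# Local solubility of the curves `(x² - m)(y² - n) = k`
-/

set_option autoImplicit false

namespace Pool.Agent.H14Q

open Polynomial

/-- `(x² - m)(y² - n) = k` has a solution in `F` -/
def Sol (m n k : ℤ) (F : Type) [Field F] : Prop := ∃ x y : F, (x ^ 2 - m) * (y ^ 2 - n) = k

/-- solutions over all completions of `ℚ` -/
def ELS (m n k : ℤ) : Prop := Sol m n k ℝ ∧ ∀ (p : ℕ) [Fact p.Prime], Sol m n k ℚ_[p]

theorem Sol.symm {m n k : ℤ} {F : Type} [Field F] (h : Sol n m k F) : Sol m n k F := by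
  obtain ⟨x, y, h⟩ := h
  exact ⟨y, x, by rw [← h]; ring⟩

theorem sol_real {m n k : ℤ} (hn : 1 ≤ n) : Sol m n k ℝ := by
  obtain ⟨w, hw⟩ : ∃ w : ℝ, w = |(k : ℝ)| + 1 := ⟨_, rfl⟩
  have hw1 : 1 ≤ w := by rw [hw]; linarith [abs_nonneg (k : ℝ)]
  have hw2 : |(k : ℝ)| ≤ w := by rw [hw]; linarith
  have hn' : (1 : ℝ) ≤ n := by exact_mod_cast hn
  obtain ⟨x0, hx0⟩ : ∃ x0 : ℝ, x0 = |(m : ℝ)| + w := ⟨_, rfl⟩
  refine ⟨Real.sqrt (m + x0), Real.sqrt (n + k / x0), ?_⟩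
  have hx1 : w ≤ x0 := by rw [hx0]; linarith [abs_nonneg (m : ℝ)]
  have hx2 : 0 < x0 := by linarith
  have hx3 : 0 ≤ (m : ℝ) + x0 := by rw [hx0]; linarith [neg_abs_le (m : ℝ)]
  have hq : |(k : ℝ) / x0| ≤ 1 := by
    rw [abs_div, abs_of_pos hx2, div_le_one hx2]
    linarith
  have hx4 : 0 ≤ (n : ℝ) + k / x0 := by linarith [(abs_le.1 hq).1]
  rw [Real.sq_sqrt hx3, Real.sq_sqrt hx4]
  field_simp
  ring

section padic

variable {p : ℕ} [hp : Fact p.Prime]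

/-- `1 + z` is a square if `|z| < |4|` -/
theorem sq_one_add {z : ℚ_[p]} (hz : ‖z‖ < ‖(2 : ℚ_[p])‖ ^ 2) : IsSquare (1 + z) := by
  have h2 : ‖(2 : ℚ_[p])‖ ≤ 1 := by
    have := Padic.norm_int_le_one (p := p) 2
    exact_mod_cast this
  have hz1 : ‖z‖ ≤ 1 := hz.le.trans (by nlinarith [norm_nonneg (2 : ℚ_[p])])
  set z' : ℤ_[p] := ⟨z, hz1⟩ with hz'
  have key : ‖(X ^ 2 - C (1 + z') : ℤ_[p][X]).eval 1‖ <
      ‖(X ^ 2 - C (1 + z') : ℤ_[p][X]).derivative.eval 1‖ ^ 2 := by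
    have e1 : (X ^ 2 - C (1 + z') : ℤ_[p][X]).eval 1 = -z' := by simp
    have e2 : (X ^ 2 - C (1 + z') : ℤ_[p][X]).derivative.eval 1 = 2 := by
      simp [one_add_one_eq_two]
    rw [e1, e2, norm_neg]
    have e3 : ‖(2 : ℤ_[p])‖ = ‖(2 : ℚ_[p])‖ := by
      rw [PadicInt.norm_def]
      norm_cast
    rw [e3]
    exact hz
  obtain ⟨t, ht, -⟩ := hensels_lemma key
  refine ⟨(t : ℚ_[p]), ?_⟩
  have h3 : t ^ 2 - (1 + z') = 0 := by simpa using ht
  have h4 : ((t : ℚ_[p])) ^ 2 - (1 + z) = 0 := by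
    have := congrArg (fun w : ℤ_[p] => (w : ℚ_[p])) h3
    push_cast at this
    exact this
  linear_combination -h4

/-- there are small powers of `p` -/
theorem exists_pow_small (M : ℝ) : ∃ j : ℕ, M * ‖((p : ℚ_[p]) ^ j) ^ 2‖ < ‖(2 : ℚ_[p])‖ ^ 2 := by
  have h2 : (0 : ℝ) < ‖(2 : ℚ_[p])‖ ^ 2 := by
    have : (2 : ℚ_[p]) ≠ 0 := two_ne_zero
    positivity
  have hlt : ‖(p : ℚ_[p])‖ < 1 := Padic.norm_p_lt_one
  have ht : Filter.Tendsto (fun j : ℕ => M * ‖((p : ℚ_[p]) ^ j) ^ 2‖) Filter.atTop (nhds (M * 0)) := by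
    refine Filter.Tendsto.const_mul _ ?_
    have e : (fun j : ℕ => ‖((p : ℚ_[p]) ^ j) ^ 2‖) = fun j : ℕ => (‖(p : ℚ_[p])‖ ^ 2) ^ j := by
      funext j
      rw [norm_pow, norm_pow, ← pow_mul, ← pow_mul, mul_comm]
    rw [e]
    exact tendsto_pow_atTop_nhds_zero_of_lt_one (by positivity)
      (pow_lt_one₀ (norm_nonneg _) hlt two_ne_zero)
  rw [mul_zero] at ht
  exact (ht.eventually (gt_mem_nhds h2)).exists

/-- if `n ≠ 0` is a square in `ℚ_p` there is a point near infinity -/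
theorem sol_of_sq {m n k : ℤ} (hn : n ≠ 0) (h : IsSquare (n : ℚ_[p])) : Sol m n k ℚ_[p] := by
  obtain ⟨t, ht⟩ := h
  have hn' : (n : ℚ_[p]) ≠ 0 := by exact_mod_cast hn
  obtain ⟨j, hj⟩ := exists_pow_small (p := p) (‖(m : ℚ_[p])‖ + ‖(k : ℚ_[p]) / n‖)
  set w : ℚ_[p] := (p : ℚ_[p]) ^ j with hw
  have hw0 : w ≠ 0 := pow_ne_zero _ (by exact_mod_cast hp.out.ne_zero)
  have h1 : ‖(m : ℚ_[p]) * w ^ 2‖ < ‖(2 : ℚ_[p])‖ ^ 2 := by
    rw [norm_mul]
    refine lt_of_le_of_lt ?_ hj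
    exact mul_le_mul_of_nonneg_right (by linarith [norm_nonneg ((k : ℚ_[p]) / n)]) (norm_nonneg _)
  have h2 : ‖((k : ℚ_[p]) / n) * w ^ 2‖ < ‖(2 : ℚ_[p])‖ ^ 2 := by
    rw [norm_mul]
    refine lt_of_le_of_lt ?_ hj
    exact mul_le_mul_of_nonneg_right (by linarith [norm_nonneg (m : ℚ_[p])]) (norm_nonneg _)
  obtain ⟨a, ha⟩ := sq_one_add h1
  obtain ⟨b, hb⟩ := sq_one_add h2
  refine ⟨a / w, t * b, ?_⟩
  have e1 : (a / w) ^ 2 - (m : ℚ_[p]) = 1 / w ^ 2 := by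
    field_simp
    linear_combination -ha
  have e2 : (t * b) ^ 2 - (n : ℚ_[p]) = k * w ^ 2 := by
    have : (t * b) ^ 2 = n * (1 + (k : ℚ_[p]) / n * w ^ 2) := by rw [hb, ht]; ring
    rw [this]
    field_simp
    ring
  rw [e1, e2]
  field_simp

theorem isSquare_two {n : ℤ} (h : n % 8 = 1) : IsSquare (n : ℚ_[2]) := by
  have h1 : (8 : ℤ) ∣ n - 1 := by omega
  obtain ⟨c, hc⟩ := h1
  have e : (n : ℚ_[2]) = 1 + ((8 * c : ℤ) : ℚ_[2]) := by
    have : n = 1 + 8 * c := by omega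
    conv_lhs => rw [this]
    push_cast
    ring
  rw [e]
  refine sq_one_add ?_
  have e2 : ‖(2 : ℚ_[2])‖ = 1 / 2 := by
    have := Padic.norm_p (p := 2)
    rw [one_div]
    exact_mod_cast this
  have e8 : ((8 * c : ℤ) : ℚ_[2]) = (2 : ℚ_[2]) ^ 3 * (c : ℚ_[2]) := by
    push_cast
    norm_num
  rw [e8, norm_mul, norm_pow, e2]
  have := Padic.norm_int_le_one (p := 2) c
  nlinarith

/-- Hensel's lemma for squares, `p` odd -/
theorem isSquare_odd {n : ℤ} (h2 : p ≠ 2) (hn : ¬ (p : ℤ) ∣ n) (h : IsSquare (n : ZMod p)) :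
    IsSquare (n : ℚ_[p]) := by
  obtain ⟨r, hr⟩ := h
  obtain ⟨a, rfl⟩ := ZMod.intCast_surjective r
  have h1 : (p : ℤ) ∣ a ^ 2 - n := by
    rw [← ZMod.intCast_zmod_eq_zero_iff_dvd]
    push_cast
    rw [hr]
    ring
  have hpz : Prime (p : ℤ) := Nat.prime_iff_prime_int.1 hp.out
  have ha : ¬ (p : ℤ) ∣ a := by
    intro ha
    apply hn
    have h3 := dvd_sub (ha.mul_right a) (a := (p : ℤ)) (b := a * a) h1
    have e : a * a - (a ^ 2 - n) = n := by ring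
    rwa [e] at h3
  have h2a : ¬ (p : ℤ) ∣ 2 * a := by
    intro hd
    rcases hpz.dvd_or_dvd hd with h4 | h4
    · have : p ∣ 2 := by exact_mod_cast h4
      have := (Nat.prime_dvd_prime_iff_eq hp.out Nat.prime_two).1 this
      exact h2 this
    · exact ha h4
  have key : ‖(X ^ 2 - C (n : ℤ_[p]) : ℤ_[p][X]).eval (a : ℤ_[p])‖ <
      ‖(X ^ 2 - C (n : ℤ_[p]) : ℤ_[p][X]).derivative.eval (a : ℤ_[p])‖ ^ 2 := by
    have e1 : (X ^ 2 - C (n : ℤ_[p]) : ℤ_[p][X]).eval (a : ℤ_[p]) = ((a ^ 2 - n : ℤ) : ℤ_[p]) := by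
      simp
    have e2 : (X ^ 2 - C (n : ℤ_[p]) : ℤ_[p][X]).derivative.eval (a : ℤ_[p]) =
        ((2 * a : ℤ) : ℤ_[p]) := by
      rw [derivative_sub, derivative_C, derivative_X_pow]
      simp
    rw [e1, e2]
    have e3 : ‖((2 * a : ℤ) : ℤ_[p])‖ = 1 := by
      refine le_antisymm (PadicInt.norm_le_one _) (not_lt.1 fun hlt => h2a ?_)
      exact (PadicInt.norm_int_lt_one_iff_dvd (p := p) _).1 hlt
    rw [e3]
    have := (PadicInt.norm_int_lt_one_iff_dvd (p := p) (a ^ 2 - n)).2 h1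
    simpa using this
  obtain ⟨t, ht, -⟩ := hensels_lemma key
  refine ⟨(t : ℚ_[p]), ?_⟩
  have h3 : t ^ 2 - (n : ℤ_[p]) = 0 := by simpa using ht
  have h4 : ((t : ℚ_[p])) ^ 2 - (n : ℚ_[p]) = 0 := by
    have := congrArg (fun w : ℤ_[p] => (w : ℚ_[p])) h3
    push_cast at this
    exact this
  linear_combination -h4

/-- lifting a point with `x ≠ 0` -/
theorem sol_lift {m n k : ℤ} (h2 : p ≠ 2) (hk : ¬ (p : ℤ) ∣ k) {x y : ZMod p} (hx : x ≠ 0)
    (h : (x ^ 2 - m) * (y ^ 2 - n) = k) : Sol m n k ℚ_[p] := by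
  obtain ⟨a, rfl⟩ := ZMod.intCast_surjective x
  obtain ⟨b, rfl⟩ := ZMod.intCast_surjective y
  have h1 : (p : ℤ) ∣ (a ^ 2 - m) * (b ^ 2 - n) - k := by
    rw [← ZMod.intCast_zmod_eq_zero_iff_dvd]
    push_cast
    rw [h]
    ring
  have hpz : Prime (p : ℤ) := Nat.prime_iff_prime_int.1 hp.out
  have ha : ¬ (p : ℤ) ∣ a := by
    rw [← ZMod.intCast_zmod_eq_zero_iff_dvd]
    exact hx
  have hb : ¬ (p : ℤ) ∣ b ^ 2 - n := by
    intro hb
    apply hk
    have h3 := dvd_sub (hb.mul_left (a ^ 2 - m)) h1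
    have e : (a ^ 2 - m) * (b ^ 2 - n) - ((a ^ 2 - m) * (b ^ 2 - n) - k) = k := by ring
    rwa [e] at h3
  have h2a : ¬ (p : ℤ) ∣ 2 * a * (b ^ 2 - n) := by
    intro hd
    rcases hpz.dvd_or_dvd hd with h5 | h5
    · rcases hpz.dvd_or_dvd h5 with h4 | h4
      · have : p ∣ 2 := by exact_mod_cast h4
        have := (Nat.prime_dvd_prime_iff_eq hp.out Nat.prime_two).1 this
        exact h2 this
      · exact ha h4
    · exact hb h5
  set F : ℤ_[p][X] := C ((b ^ 2 - n : ℤ) : ℤ_[p]) * (X ^ 2 - C (m : ℤ_[p])) - C (k : ℤ_[p]) with hF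
  have key : ‖F.eval (a : ℤ_[p])‖ < ‖F.derivative.eval (a : ℤ_[p])‖ ^ 2 := by
    have e1 : F.eval (a : ℤ_[p]) = (((a ^ 2 - m) * (b ^ 2 - n) - k : ℤ) : ℤ_[p]) := by
      rw [hF]
      simp
      ring
    have e2 : F.derivative.eval (a : ℤ_[p]) = ((2 * a * (b ^ 2 - n) : ℤ) : ℤ_[p]) := by
      rw [hF, derivative_sub, derivative_C, derivative_mul, derivative_C, derivative_sub,
        derivative_C, derivative_X_pow]
      simp
      ring
    rw [e1, e2]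
    have e3 : ‖((2 * a * (b ^ 2 - n) : ℤ) : ℤ_[p])‖ = 1 := by
      refine le_antisymm (PadicInt.norm_le_one _) (not_lt.1 fun hlt => h2a ?_)
      exact (PadicInt.norm_int_lt_one_iff_dvd (p := p) _).1 hlt
    rw [e3]
    have := (PadicInt.norm_int_lt_one_iff_dvd (p := p) ((a ^ 2 - m) * (b ^ 2 - n) - k)).2 h1
    simpa using this
  obtain ⟨t, ht, -⟩ := hensels_lemma key
  refine ⟨(t : ℚ_[p]), (b : ℚ_[p]), ?_⟩
  have h3 : ((b ^ 2 - n : ℤ) : ℤ_[p]) * (t ^ 2 - (m : ℤ_[p])) - (k : ℤ_[p]) = 0 := by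
    have := ht
    rw [hF] at this
    simpa using this
  have h4 : ((b ^ 2 - n : ℤ) : ℚ_[p]) * ((t : ℚ_[p]) ^ 2 - (m : ℚ_[p])) - (k : ℚ_[p]) = 0 := by
    have := congrArg (fun w : ℤ_[p] => (w : ℚ_[p])) h3
    push_cast at this
    push_cast
    exact this
  push_cast at h4
  linear_combination h4

/-- the pigeonhole principle: the values of `x² - m` and of `k / (y² - n)` meet -/
theorem sol_fin {m n k : ZMod p} (h2 : p ≠ 2) (hk : k ≠ 0) (hm : m = 0 ∨ ¬ IsSquare m)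
    (hn : n = 0 ∨ ¬ IsSquare n) (hmn : ¬ (m = 0 ∧ n = 0)) :
    ∃ x y : ZMod p, (x ^ 2 - m) * (y ^ 2 - n) = k ∧ (x ≠ 0 ∨ y ≠ 0) := by
  classical
  have hodd : p % 2 = 1 := (hp.out.eq_two_or_odd).resolve_left h2
  have hcard : Fintype.card (ZMod p) = p := ZMod.card p
  -- the images
  have him : ∀ a : ZMod p, p + 1 ≤ 2 * (Finset.univ.image fun x : ZMod p => x ^ 2 - a).card := by
    intro a
    have h1 := FiniteField.card_image_polynomial_eval (R := ZMod p) (p := X ^ 2 - C a)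
      (by rw [degree_X_pow_sub_C (by norm_num)]; norm_num)
    rw [natDegree_X_pow_sub_C, hcard] at h1
    have e : (Finset.univ.image fun x : ZMod p => eval x (X ^ 2 - C a)) =
        Finset.univ.image fun x : ZMod p => x ^ 2 - a := by
      refine Finset.image_congr fun x _ => ?_
      simp
    rw [e] at h1
    omega
  -- nonzero values
  have hnz : ∀ a : ZMod p, (a = 0 ∨ ¬ IsSquare a) →
      p + 1 ≤ 2 * ((Finset.univ.image fun x : ZMod p => x ^ 2 - a).erase 0).card +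
        (if a = 0 then 2 else 0) := by
    intro a ha
    have h1 := him a
    by_cases h0 : a = 0
    · rw [if_pos h0]
      have := Finset.pred_card_le_card_erase (s := Finset.univ.image fun x : ZMod p => x ^ 2 - a)
        (a := 0)
      omega
    · rw [if_neg h0, Finset.erase_eq_of_notMem]
      · omega
      · intro hmem
        obtain ⟨x, -, hx⟩ := Finset.mem_image.1 hmem
        exact (ha.resolve_left h0) ⟨x, by linear_combination -hx⟩
  set A := (Finset.univ.image fun x : ZMod p => x ^ 2 - m).erase 0 with hA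
  set B := ((Finset.univ.image fun x : ZMod p => x ^ 2 - n).erase 0).image (fun t => k / t) with hB
  have hBcard : B.card = ((Finset.univ.image fun x : ZMod p => x ^ 2 - n).erase 0).card := by
    refine Finset.card_image_of_injective _ ?_
    intro s t hst
    simp only [div_eq_mul_inv] at hst
    exact inv_injective (mul_left_cancel₀ hk hst)
  have hsub : A ∪ B ⊆ Finset.univ.erase 0 := by
    intro t ht
    rw [Finset.mem_union] at ht
    rw [Finset.mem_erase]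
    refine ⟨?_, Finset.mem_univ _⟩
    rcases ht with ht | ht
    · exact (Finset.mem_erase.1 ht).1
    · obtain ⟨s, hs, rfl⟩ := Finset.mem_image.1 ht
      exact div_ne_zero hk (Finset.mem_erase.1 hs).1
  have hcu : (A ∪ B).card ≤ p - 1 := by
    refine (Finset.card_le_card hsub).trans ?_
    rw [Finset.card_erase_of_mem (Finset.mem_univ _), Finset.card_univ, hcard]
  have hui := Finset.card_union_add_card_inter A B
  have hp1 : 1 < p := hp.out.one_lt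
  have h1 := hnz m hm
  have h3 := hnz n hn
  rw [← hBcard] at h3
  rw [← hA] at h1
  -- the intersection
  have hfin : ∀ t ∈ A ∩ B, ∃ x y : ZMod p, (x ^ 2 - m) * (y ^ 2 - n) = k ∧ x ^ 2 - m = t := by
    intro t ht
    rw [Finset.mem_inter] at ht
    obtain ⟨ht1, ht2⟩ := ht
    obtain ⟨ht0, ht1⟩ := Finset.mem_erase.1 ht1
    obtain ⟨x, -, hx⟩ := Finset.mem_image.1 ht1
    obtain ⟨s, hs, hst⟩ := Finset.mem_image.1 ht2
    obtain ⟨hs0, hs1⟩ := Finset.mem_erase.1 hs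
    obtain ⟨y, -, hy⟩ := Finset.mem_image.1 hs1
    refine ⟨x, y, ?_, hx⟩
    rw [hx, hy, ← hst]
    field_simp
  by_cases hm0 : m = 0
  · have hn0 : n ≠ 0 := fun h => hmn ⟨hm0, h⟩
    rw [if_pos hm0] at h1
    rw [if_neg hn0] at h3
    have hpos : 0 < (A ∩ B).card := by omega
    obtain ⟨t, ht⟩ := Finset.card_pos.1 hpos
    obtain ⟨x, y, h, hx⟩ := hfin t ht
    refine ⟨x, y, h, Or.inl ?_⟩
    rintro rfl
    rw [hm0] at h
    apply hk
    rw [← h]
    ring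
  · rw [if_neg hm0] at h1
    by_cases hn0 : n = 0
    · rw [if_pos hn0] at h3
      have hpos : 0 < (A ∩ B).card := by omega
      obtain ⟨t, ht⟩ := Finset.card_pos.1 hpos
      obtain ⟨x, y, h, hx⟩ := hfin t ht
      refine ⟨x, y, h, Or.inr ?_⟩
      rintro rfl
      rw [hn0] at h
      apply hk
      rw [← h]
      ring
    · rw [if_neg hn0] at h3
      have hpos : 1 < (A ∩ B).card := by omega
      obtain ⟨t, ht, htm⟩ := Finset.exists_mem_ne hpos (-m)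
      obtain ⟨x, y, h, hx⟩ := hfin t ht
      refine ⟨x, y, h, Or.inl ?_⟩
      rintro rfl
      apply htm
      rw [← hx]
      ring

/-- local solubility at the odd primes not dividing `k` -/
theorem sol_good {m n k : ℤ} (h2 : p ≠ 2) (hk : ¬ (p : ℤ) ∣ k)
    (hmn : ¬ ((p : ℤ) ∣ m ∧ (p : ℤ) ∣ n)) : Sol m n k ℚ_[p] := by
  by_cases hn : ¬ (p : ℤ) ∣ n ∧ IsSquare (n : ZMod p)
  · refine sol_of_sq ?_ (isSquare_odd h2 hn.1 hn.2)
    rintro rfl
    exact hn.1 (dvd_zero _)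
  · by_cases hm : ¬ (p : ℤ) ∣ m ∧ IsSquare (m : ZMod p)
    · refine (sol_of_sq ?_ (isSquare_odd h2 hm.1 hm.2)).symm
      rintro rfl
      exact hm.1 (dvd_zero _)
    · rw [← ZMod.intCast_zmod_eq_zero_iff_dvd] at hm hn hk
      rw [← ZMod.intCast_zmod_eq_zero_iff_dvd, ← ZMod.intCast_zmod_eq_zero_iff_dvd] at hmn
      obtain ⟨x, y, h, hxy⟩ := sol_fin (m := (m : ZMod p)) (n := (n : ZMod p)) (k := (k : ZMod p)) h2 hk
        (by tauto) (by tauto) hmn
      rw [ZMod.intCast_zmod_eq_zero_iff_dvd] at hk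
      rcases hxy with hx | hy
      · exact sol_lift h2 hk hx h
      · exact (sol_lift (m := n) (n := m) (y := x) h2 hk hy (by rw [← h]; ring)).symm

end padic

/-- a sufficient condition for local solubility -/
theorem els {m n k : ℤ} (hn : 1 ≤ n) (h8 : n % 8 = 1)
    (hp : ∀ p : ℕ, p.Prime → p ≠ 2 → (p : ℤ) ∣ k →
      (¬ (p : ℤ) ∣ n ∧ IsSquare (n : ZMod p)) ∨ (¬ (p : ℤ) ∣ m ∧ IsSquare (m : ZMod p)))
    (hg : ∀ p : ℕ, p.Prime → p ≠ 2 → ¬ ((p : ℤ) ∣ m ∧ (p : ℤ) ∣ n)) : ELS m n k := by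
  refine ⟨sol_real hn, fun p hpp => ?_⟩
  by_cases h2 : p = 2
  · subst h2
    exact sol_of_sq (by omega) (isSquare_two h8)
  · by_cases hk : (p : ℤ) ∣ k
    · rcases hp p hpp.out h2 hk with h | h
      · refine sol_of_sq ?_ (isSquare_odd h2 h.1 h.2)
        rintro rfl
        exact h.1 (dvd_zero _)
      · refine (sol_of_sq ?_ (isSquare_odd h2 h.1 h.2)).symm
        rintro rfl
        exact h.1 (dvd_zero _)
    · exact sol_good h2 hk (hg p hpp.out h2)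

end Pool.Agent.H14Q
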