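import Pool.Agent.H14Q.Up1

/-!
# Counting coprime pairs, one of them in an arithmetic progression
-/

set_option autoImplicit false

namespace Pool.Agent.H14Q

open Finset

/-- natural version of `card_class` -/
theorem card_classN {M H : ℕ} (hM : 0 < M) (S : Finset ℕ) (hS : ∀ x ∈ S, x ≤ H)
    (hc : ∀ x ∈ S, ∀ y ∈ S, (M : ℤ) ∣ (x : ℤ) - y) : (S.card : ℝ) ≤ (H : ℝ) / M + 1 := by
  have h := card_class (M := M) hM (a := 0) (b := H) (S.map Nat.castEmbedding) (by
    intro x hx
    obtain ⟨n, hn, rfl⟩ := Finset.mem_map.1 hx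
    have := hS n hn
    simp only [Nat.castEmbedding_apply]
    omega) (by
    intro x hx y hy
    obtain ⟨n, hn, rfl⟩ := Finset.mem_map.1 hx
    obtain ⟨n', hn', rfl⟩ := Finset.mem_map.1 hy
    exact hc n hn n' hn')
  rw [Finset.card_map] at h
  have e : |((H : ℤ) : ℝ) - ((0 : ℤ) : ℝ)| = H := by
    push_cast
    rw [sub_zero, abs_of_nonneg (Nat.cast_nonneg _)]
  rwa [e] at h

/-- the pairs `(m, n)`, `n ≡ a mod M` -/
def prog (M a H : ℕ) : Finset (ℕ × ℕ) :=
  Icc 1 H ×ˢ (Icc 1 H).filter fun n => n % M = a % M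

theorem sum_inv_sq (H : ℕ) : ∑ d ∈ Icc 3 H, (1 : ℝ) / (d : ℝ) ^ 2 ≤ 1 / 2 := by
  have h := sum_sq_tail (y := 2) (Q := H) (by norm_num)
  refine le_trans (le_of_eq ?_) (h.trans (by norm_num))
  refine Finset.sum_congr ?_ fun _ _ => rfl
  ext t
  simp only [mem_Icc, mem_filter]
  omega

theorem sum_inv (H : ℕ) : ∑ d ∈ Icc 3 H, (1 : ℝ) / (d : ℝ) ≤ 1 + Real.log H := by
  have h := harmonic_le_one_add_log H
  have e : ((harmonic H : ℚ) : ℝ) = ∑ d ∈ Icc 1 H, (1 : ℝ) / (d : ℝ) := by
    rw [harmonic_eq_sum_Icc]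
    push_cast
    exact Finset.sum_congr rfl fun d _ => by rw [one_div]
  rw [e] at h
  refine le_trans ?_ h
  refine Finset.sum_le_sum_of_subset_of_nonneg ?_ fun _ _ _ => by positivity
  intro d hd
  rw [mem_Icc] at hd ⊢
  omega

/-- **Coprime pairs.** -/
theorem cop {M a H : ℕ} (hM : Even M) (hM0 : 0 < M) (ha : a.Coprime M) (ha1 : a ≤ M) (hH : 1 ≤ H) :
    (H : ℝ) ^ 2 / (2 * M) - H * (2 + Real.log H) ≤
      (((prog M a H).filter fun p => p.1.Coprime p.2).card : ℝ) := by
  classical
  have hMr : (0 : ℝ) < M := by exact_mod_cast hM0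
  have hHr : (1 : ℝ) ≤ H := by exact_mod_cast hH
  have hM2 : 2 ∣ M := hM.two_dvd
  have ha0 : 0 < a := by
    rcases Nat.eq_zero_or_pos a with h | h
    · rw [h, Nat.coprime_zero_left] at ha
      omega
    · exact h
  -- the number of the n
  have h1 : (H : ℝ) / M - 1 ≤ (((Icc 1 H).filter fun n => n % M = a % M).card : ℝ) := by
    have h2 : H / M ≤ ((Icc 1 H).filter fun n => n % M = a % M).card := by
      have h3 : ((Finset.range (H / M)).image fun j => a + M * j) ⊆
          (Icc 1 H).filter fun n => n % M = a % M := by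
        intro n hn
        obtain ⟨j, hj, rfl⟩ := Finset.mem_image.1 hn
        rw [Finset.mem_range] at hj
        rw [mem_filter, mem_Icc]
        refine ⟨⟨by omega, ?_⟩, by rw [Nat.add_mul_mod_self_left]⟩
        calc a + M * j ≤ M + M * j := by omega
          _ = M * (j + 1) := by ring
          _ ≤ M * (H / M) := Nat.mul_le_mul_left _ hj
          _ ≤ H := Nat.mul_div_le H M
      have h4 := Finset.card_le_card h3
      rwa [Finset.card_image_of_injective _ (fun i j h => Nat.eq_of_mul_eq_mul_left hM0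
        (Nat.add_left_cancel h)), Finset.card_range] at h4
    have h3 : (H : ℝ) / M < ((H / M : ℕ) : ℝ) + 1 := by
      rw [div_lt_iff₀ hMr]
      have := Nat.lt_div_mul_add (a := H) (b := M) hM0
      have h5 : H < (H / M + 1) * M := by linarith [Nat.add_mul (H / M) 1 M]
      exact_mod_cast h5
    have h4 : ((H / M : ℕ) : ℝ) ≤ (((Icc 1 H).filter fun n => n % M = a % M).card : ℝ) := by
      exact_mod_cast h2
    linarith
  have hcard : ((prog M a H).card : ℝ) = H * (((Icc 1 H).filter fun n => n % M = a % M).card : ℝ) := by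
    unfold prog
    rw [Finset.card_product, Nat.card_Icc]
    push_cast
    norm_num
  -- the non-coprime pairs
  have hsub : (prog M a H).filter (fun p => ¬ p.1.Coprime p.2) ⊆
      (Icc 3 H).biUnion fun d => (prog M a H).filter fun p => d ∣ p.1 ∧ d ∣ p.2 := by
    intro p hp
    rw [mem_filter] at hp
    have hp1 := hp.1
    unfold prog at hp1
    rw [mem_product, mem_filter, mem_Icc, mem_Icc] at hp1
    rw [mem_biUnion]
    refine ⟨Nat.gcd p.1 p.2, ?_, ?_⟩
    · rw [mem_Icc]
      have hpos : 0 < Nat.gcd p.1 p.2 := Nat.gcd_pos_of_pos_left _ (by omega)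
      have hne : Nat.gcd p.1 p.2 ≠ 1 := hp.2
      have hle : Nat.gcd p.1 p.2 ≤ H := (Nat.le_of_dvd (by omega) (Nat.gcd_dvd_left p.1 p.2)).trans
        hp1.1.2
      have hne2 : Nat.gcd p.1 p.2 ≠ 2 := by
        intro h2
        have h3 : 2 ∣ p.2 := h2 ▸ Nat.gcd_dvd_right p.1 p.2
        have h4 : 2 ∣ a := by
          have h5 : p.2 % 2 = a % 2 := by
            rw [← Nat.mod_mod_of_dvd p.2 hM2, ← Nat.mod_mod_of_dvd a hM2, hp1.2.2]
          omega
        have h5 : 2 ∣ Nat.gcd a M := Nat.dvd_gcd h4 hM2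
        rw [ha] at h5
        omega
      omega
    · rw [mem_filter]
      exact ⟨hp.1, Nat.gcd_dvd_left _ _, Nat.gcd_dvd_right _ _⟩
  have hd : ∀ d ∈ Icc 3 H, ((((prog M a H).filter fun p => d ∣ p.1 ∧ d ∣ p.2).card : ℕ) : ℝ) ≤
      (H : ℝ) ^ 2 / M * (1 / (d : ℝ) ^ 2) + H * (1 / (d : ℝ)) := by
    intro d hd
    rw [mem_Icc] at hd
    have hd0 : (0 : ℝ) < d := by
      have : (3 : ℝ) ≤ d := by exact_mod_cast hd.1
      linarith
    have e : (prog M a H).filter (fun p => d ∣ p.1 ∧ d ∣ p.2) =
        (Icc 1 H).filter (fun m => d ∣ m) ×ˢ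
          (Icc 1 H).filter (fun n => n % M = a % M ∧ d ∣ n) := by
      ext p
      unfold prog
      simp only [mem_filter, mem_product]
      tauto
    rw [e, Finset.card_product]
    have e1 : (((Icc 1 H).filter (fun m => d ∣ m)).card : ℝ) ≤ H / d := by
      have : ((Icc 1 H).filter (fun m => d ∣ m)).card = H / d := by
        have := Nat.Ioc_filter_dvd_card_eq_div H d
        rw [← this]
        congr 1
      rw [this]
      exact Nat.cast_div_le
    have e2 : (((Icc 1 H).filter (fun n => n % M = a % M ∧ d ∣ n)).card : ℝ) ≤ H / (d * M) + 1 := by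
      by_cases hcop : d.Coprime M
      · have h5 := card_classN (M := d * M) (H := H) (Nat.mul_pos (by omega) hM0)
          ((Icc 1 H).filter (fun n => n % M = a % M ∧ d ∣ n)) (by
            intro x hx
            rw [mem_filter, mem_Icc] at hx
            exact hx.1.2) (by
            intro x hx y hy
            rw [mem_filter] at hx hy
            have h6 : (d : ℤ) ∣ (x : ℤ) - y :=
              dvd_sub (Int.natCast_dvd_natCast.2 hx.2.2) (Int.natCast_dvd_natCast.2 hy.2.2)
            have h7 : (M : ℤ) ∣ (x : ℤ) - y := by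
              have : (y : ℤ) ≡ x [ZMOD M] := by
                unfold Int.ModEq
                exact_mod_cast (hy.2.1.trans hx.2.1.symm)
              exact this.dvd
            push_cast
            exact (Nat.isCoprime_iff_coprime.2 hcop).mul_dvd h6 h7)
        push_cast at h5
        exact h5
      · have : (Icc 1 H).filter (fun n => n % M = a % M ∧ d ∣ n) = ∅ := by
          rw [Finset.filter_eq_empty_iff]
          rintro n - ⟨h6, h7⟩
          apply hcop
          obtain ⟨g, hg⟩ : ∃ g, g = Nat.gcd d M := ⟨_, rfl⟩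
          have hgd : g ∣ d := hg ▸ Nat.gcd_dvd_left d M
          have hgM : g ∣ M := hg ▸ Nat.gcd_dvd_right d M
          have h8 : g ∣ a := by
            have h9 : n % g = a % g := by
              rw [← Nat.mod_mod_of_dvd n hgM, ← Nat.mod_mod_of_dvd a hgM, h6]
            have h10 : g ∣ n := hgd.trans h7
            rw [Nat.dvd_iff_mod_eq_zero] at h10 ⊢
            omega
          have h9 : g ∣ Nat.gcd a M := Nat.dvd_gcd h8 hgM
          rw [ha] at h9
          have : g = 1 := Nat.dvd_one.1 h9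
          rw [Nat.Coprime, ← hg, this]
        rw [this, Finset.card_empty]
        push_cast
        positivity
    push_cast
    calc (((Icc 1 H).filter (fun m => d ∣ m)).card : ℝ) *
          (((Icc 1 H).filter (fun n => n % M = a % M ∧ d ∣ n)).card : ℝ)
        ≤ (H / d) * (H / (d * M) + 1) := mul_le_mul e1 e2 (Nat.cast_nonneg _) (by positivity)
      _ = (H : ℝ) ^ 2 / M * (1 / (d : ℝ) ^ 2) + H * (1 / (d : ℝ)) := by
        field_simp
  have hnon : (((prog M a H).filter (fun p => ¬ p.1.Coprime p.2)).card : ℝ) ≤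
      (H : ℝ) ^ 2 / (2 * M) + H * (1 + Real.log H) := by
    have h5 := (Finset.card_le_card hsub).trans Finset.card_biUnion_le
    have h6 : (((prog M a H).filter (fun p => ¬ p.1.Coprime p.2)).card : ℝ) ≤
        ∑ d ∈ Icc 3 H, ((((prog M a H).filter fun p => d ∣ p.1 ∧ d ∣ p.2).card : ℕ) : ℝ) := by
      exact_mod_cast h5
    refine h6.trans ((Finset.sum_le_sum hd).trans ?_)
    rw [Finset.sum_add_distrib, ← Finset.mul_sum, ← Finset.mul_sum]
    have h7 := mul_le_mul_of_nonneg_left (sum_inv_sq H) (by positivity : 0 ≤ (H : ℝ) ^ 2 / M)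
    have h8 := mul_le_mul_of_nonneg_left (sum_inv H) (by positivity : 0 ≤ (H : ℝ))
    have e : (H : ℝ) ^ 2 / (2 * M) = (H : ℝ) ^ 2 / M * (1 / 2) := by field_simp
    rw [e]
    linarith
  have hsum : ((prog M a H).card : ℝ) =
      (((prog M a H).filter fun p => p.1.Coprime p.2).card : ℝ) +
      (((prog M a H).filter (fun p => ¬ p.1.Coprime p.2)).card : ℝ) := by
    have := Finset.card_filter_add_card_filter_not (s := prog M a H) (fun p : ℕ × ℕ => p.1.Coprime p.2)
    exact_mod_cast this.symm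
  have h9 : (H : ℝ) * (H / M - 1) ≤ ((prog M a H).card : ℝ) := by
    rw [hcard]
    exact mul_le_mul_of_nonneg_left h1 (by linarith)
  have e : (H : ℝ) * (H / M - 1) = 2 * ((H : ℝ) ^ 2 / (2 * M)) - H := by
    field_simp
  rw [e] at h9
  linarith

end Pool.Agent.H14Q
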