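import Pool.Agent.H14Q.Den3

/-!
# The sieve for one covering
-/

set_option autoImplicit false

namespace Pool.Agent.H14Q

open Finset

/-- the triples `(m, n, h)` without obstruction for `g` at the primes of `P1` and `P2` -/
def Surv (P1 P2 : Finset ℕ) (g m n h : ℤ) : Prop :=
  (∀ t ∈ P1, ¬ NR t m) ∧ ∀ t ∈ P2, ¬ (((t : ℤ) ∣ n ∧ NR t h) ∨ ((t : ℤ) ∣ h ∧ NR t n) ∨
    ((t : ℤ) ∣ m * n - g * h ∧ NR t (g * n)))

theorem cube : ∃ C : ℝ, 0 < C ∧ ∀ (H Q1 Q2 : ℕ) (P1 P2 : Finset ℕ) (b g : ℤ)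
    (Z : Finset (ℤ × ℤ × ℤ)), 1 ≤ H → 1 ≤ Q2 → (Q1 * Q2) ^ 2 ≤ 2 * H + 1 → Disjoint P1 P2 →
    ∏ t ∈ P1, t ≤ Q1 → (∀ t ∈ P1 ∪ P2, t.Prime ∧ t ≠ 2) → (∀ t ∈ P2, t ≤ Q2 ∧ ¬ (t : ℤ) ∣ g) →
    (∀ z ∈ Z, |z.1| ≤ H ∧ |z.2.1| ≤ H ∧ b < z.2.2 ∧ z.2.2 ≤ b + (2 * H + 1) ∧
      Surv P1 P2 g z.1 z.2.1 z.2.2) →
    (Z.card : ℝ) * ∏ t ∈ P1, (1 + eta1 t) ≤
      C * (2 * (H : ℝ) + 1) ^ 3 * Real.exp (-∑ t ∈ P2, eta3 t) := by
  classical
  obtain ⟨C, hC, hs⟩ := sieve 3 (3 / 2) (by norm_num)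
  refine ⟨C, hC, ?_⟩
  intro H Q1 Q2 P1 P2 b g Z hH hQ2 hQ hd hP1 hpr hP2 hZ
  set f : ℤ × ℤ × ℤ → (Fin 3 → ℤ) := fun p => ![p.1, p.2.1, p.2.2] with hf
  have hinj : Function.Injective f := by
    rintro ⟨a, b, c⟩ ⟨a', b', c'⟩ h
    have h0 := congrFun h 0
    have h1 := congrFun h 1
    have h2 := congrFun h 2
    simp [hf] at h0 h1 h2
    rw [h0, h1, h2]
  set η : ℕ → ℝ := fun t => if t ∈ P1 then eta1 t else eta3 t with hη
  have hη1 : ∀ t ∈ P1, η t = eta1 t := fun t ht => by simp only [hη]; rw [if_pos ht]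
  have hη2 : ∀ t ∈ P2, η t = eta3 t := fun t ht => by
    simp only [hη]
    rw [if_neg fun h => disjoint_left.1 hd h ht]
  have h1 := hs (2 * H + 1) Q1 Q2 P1 P2 ![-(H : ℤ) - 1, -(H : ℤ) - 1, b] (Z.image f) η
    (by omega) hQ2 hQ hd hP1 (fun t ht => (hpr t ht).1) (fun t ht => (hP2 t ht).1)
    (fun t ht => by
      rw [hη1 t ht]
      exact eta1_pos (hpr t (mem_union_left _ ht)).1)
    (fun t ht => by
      rw [hη2 t ht]
      have := eta3_pos (hpr t (mem_union_right _ ht)).1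
      exact ⟨this.1, this.2.1⟩)
    (by
      intro z hz i
      obtain ⟨p, hp, rfl⟩ := mem_image.1 hz
      obtain ⟨h1, h2, h3, h4, -⟩ := hZ p hp
      rw [abs_le] at h1 h2
      fin_cases i
      · show -(H : ℤ) - 1 < p.1 ∧ p.1 ≤ -(H : ℤ) - 1 + ((2 * H + 1 : ℕ) : ℤ)
        push_cast
        omega
      · show -(H : ℤ) - 1 < p.2.1 ∧ p.2.1 ≤ -(H : ℤ) - 1 + ((2 * H + 1 : ℕ) : ℤ)
        push_cast
        omega
      · show b < p.2.2 ∧ p.2.2 ≤ b + ((2 * H + 1 : ℕ) : ℤ)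
        push_cast
        omega)
    (by
      intro t ht
      obtain ⟨htp, ht2⟩ := hpr t ht
      have : Fact t.Prime := ⟨htp⟩
      rcases mem_union.1 ht with ht' | ht'
      · refine ⟨E1 t, ?_, ?_⟩
        · rw [hη1 t ht']
          exact eta1_card ht2
        · intro z hz hmem
          obtain ⟨p, hp, rfl⟩ := mem_image.1 hz
          unfold E1 at hmem
          have h5 := (mem_filter.1 hmem).2
          simp only [hf, Matrix.cons_val] at h5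
          exact (hZ p hp).2.2.2.2.1 t ht' h5
      · have hg0 : ((g : ℤ) : ZMod t) ≠ 0 := by
          intro h0
          rw [ZMod.intCast_zmod_eq_zero_iff_dvd] at h0
          exact (hP2 t ht').2 h0
        refine ⟨E3 t (g : ZMod t), ?_, ?_⟩
        · rw [hη2 t ht']
          exact eta3_card ht2 hg0
        · intro z hz hmem
          obtain ⟨p, hp, rfl⟩ := mem_image.1 hz
          unfold E3 at hmem
          have h5 := (mem_filter.1 hmem).2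
          simp only [hf, Matrix.cons_val] at h5
          refine (hZ p hp).2.2.2.2.2 t ht' ?_
          rcases h5 with ⟨h5, h6⟩ | ⟨h5, h6⟩ | ⟨h5, h6⟩
          · exact Or.inl ⟨(ZMod.intCast_zmod_eq_zero_iff_dvd _ _).1 h5, h6⟩
          · exact Or.inr (Or.inl ⟨(ZMod.intCast_zmod_eq_zero_iff_dvd _ _).1 h5, h6⟩)
          · refine Or.inr (Or.inr ⟨?_, ?_⟩)
            · rw [← ZMod.intCast_zmod_eq_zero_iff_dvd]
              push_cast
              rw [h5, sub_self]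
            · unfold NR
              push_cast
              exact h6)
  rw [card_image_of_injective _ hinj] at h1
  have e1 : ∏ t ∈ P1, (1 + η t) = ∏ t ∈ P1, (1 + eta1 t) :=
    Finset.prod_congr rfl fun t ht => by rw [hη1 t ht]
  have e2 : ∑ t ∈ P2, η t = ∑ t ∈ P2, eta3 t := Finset.sum_congr rfl hη2
  rw [e1, e2] at h1
  push_cast at h1
  exact h1

/-- the triples with `|m|, |n| ≤ H`, `|h| ≤ X` -/
theorem slab : ∃ C : ℝ, 0 < C ∧ ∀ (H Q1 Q2 X : ℕ) (P1 P2 : Finset ℕ) (g : ℤ)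
    (Z : Finset (ℤ × ℤ × ℤ)), 1 ≤ H → H ≤ X → 1 ≤ Q2 → (Q1 * Q2) ^ 2 ≤ 2 * H + 1 → Disjoint P1 P2 →
    ∏ t ∈ P1, t ≤ Q1 → (∀ t ∈ P1 ∪ P2, t.Prime ∧ t ≠ 2) → (∀ t ∈ P2, t ≤ Q2 ∧ ¬ (t : ℤ) ∣ g) →
    (∀ z ∈ Z, |z.1| ≤ H ∧ |z.2.1| ≤ H ∧ |z.2.2| ≤ X ∧ Surv P1 P2 g z.1 z.2.1 z.2.2) →
    (Z.card : ℝ) ≤
      C * X * (H : ℝ) ^ 2 * (Real.exp (-∑ t ∈ P2, eta3 t) / ∏ t ∈ P1, (1 + eta1 t)) := by
  classical
  obtain ⟨C, hC, hs⟩ := cube
  refine ⟨54 * C, by positivity, ?_⟩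
  intro H Q1 Q2 X P1 P2 g Z hH hHX hQ2 hQ hd hP1 hpr hP2 hZ
  have hHr : (1 : ℝ) ≤ H := by exact_mod_cast hH
  have hHX' : (H : ℝ) ≤ X := by exact_mod_cast hHX
  have hprod : 0 < ∏ t ∈ P1, (1 + eta1 t) :=
    Finset.prod_pos fun t ht => by
      have := eta1_pos (hpr t (mem_union_left _ ht)).1
      linarith
  set J := X / H + 1 with hJ
  have hJr : (J : ℝ) ≤ 2 * (X / H) := by
    rw [hJ]
    push_cast
    have h1 : ((X / H : ℕ) : ℝ) ≤ X / H := Nat.cast_div_le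
    have h2 : (1 : ℝ) ≤ X / H := by
      rw [le_div_iff₀ (by linarith)]
      linarith
    linarith
  -- the pieces
  set piece : ℕ → Finset (ℤ × ℤ × ℤ) := fun j => Z.filter fun z =>
    -(X : ℤ) - 1 + j * (2 * H + 1) < z.2.2 ∧ z.2.2 ≤ -(X : ℤ) - 1 + j * (2 * H + 1) + (2 * H + 1)
    with hpiece
  have hcov : Z ⊆ (range J).biUnion piece := by
    intro z hz
    obtain ⟨-, -, h3, -⟩ := hZ z hz
    rw [abs_le] at h3
    rw [mem_biUnion]
    have hN : (0 : ℤ) < 2 * H + 1 := by positivity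
    obtain ⟨q, hq⟩ : ∃ q : ℕ, (q : ℤ) = (z.2.2 + X) / (2 * H + 1) :=
      ⟨((z.2.2 + X) / (2 * H + 1)).toNat, Int.toNat_of_nonneg (Int.ediv_nonneg (by omega) hN.le)⟩
    have h4 := Int.ediv_mul_le (z.2.2 + X) hN.ne'
    have h5 := Int.lt_ediv_add_one_mul_self (z.2.2 + X) hN
    rw [← hq] at h4 h5
    refine ⟨q, ?_, ?_⟩
    · rw [mem_range]
      have h6 : (q : ℤ) * (2 * H + 1) ≤ 2 * X := by linarith
      have h7 : q * (2 * H + 1) ≤ 2 * X := by exact_mod_cast h6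
      have h8 : q ≤ X / H := by
        rw [Nat.le_div_iff_mul_le (by omega)]
        nlinarith
      omega
    · rw [hpiece]
      simp only [mem_filter]
      refine ⟨hz, ?_, ?_⟩
      · linarith
      · linarith
  have hcard : ∀ j ∈ range J, ((piece j).card : ℝ) ≤
      C * (27 * (H : ℝ) ^ 3) * (Real.exp (-∑ t ∈ P2, eta3 t) / ∏ t ∈ P1, (1 + eta1 t)) := by
    intro j _
    have h1 := hs H Q1 Q2 P1 P2 (-(X : ℤ) - 1 + j * (2 * H + 1)) g (piece j) hH hQ2 hQ hd hP1 hpr hP2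
      (by
        intro z hz
        rw [hpiece] at hz
        simp only [mem_filter] at hz
        obtain ⟨h1, h2, h3⟩ := hz
        obtain ⟨h4, h5, -, h6⟩ := hZ z h1
        exact ⟨h4, h5, h2, h3, h6⟩)
    rw [← le_div_iff₀ hprod] at h1
    refine h1.trans ?_
    rw [mul_div_assoc]
    refine mul_le_mul_of_nonneg_right ?_ (by positivity)
    refine mul_le_mul_of_nonneg_left ?_ hC.le
    have : (2 * (H : ℝ) + 1) ^ 3 ≤ (3 * H) ^ 3 := pow_le_pow_left₀ (by positivity) (by linarith) 3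
    refine this.trans (le_of_eq ?_)
    ring
  have h2 : (Z.card : ℝ) ≤ ∑ j ∈ range J, ((piece j).card : ℝ) := by
    exact_mod_cast (card_le_card hcov).trans card_biUnion_le
  refine h2.trans ((Finset.sum_le_card_nsmul _ _ _ hcard).trans ?_)
  rw [card_range, nsmul_eq_mul]
  set W := Real.exp (-∑ t ∈ P2, eta3 t) / ∏ t ∈ P1, (1 + eta1 t) with hW
  have hW0 : 0 ≤ W := by positivity
  calc (J : ℝ) * (C * (27 * (H : ℝ) ^ 3) * W) ≤ (2 * (X / H)) * (C * (27 * (H : ℝ) ^ 3) * W) :=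
        mul_le_mul_of_nonneg_right hJr (by positivity)
    _ = 54 * C * X * (H : ℝ) ^ 2 * W := by
        field_simp
        ring

end Pool.Agent.H14Q
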