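import Pool.Agent.H14Q.Up1

/-!
# Local densities in dimension three
-/

set_option autoImplicit false

namespace Pool.Agent.H14Q

open Finset

section

variable {t : ℕ} [ht : Fact t.Prime]

open Classical in
/-- the excluded classes for `(m, n, h)` at a prime not dividing `g` -/
noncomputable def E3 (t : ℕ) [Fact t.Prime] (g : ZMod t) : Finset (Fin 3 → ZMod t) :=
  univ.filter fun w => (w 1 = 0 ∧ ¬ IsSquare (w 2)) ∨ (w 2 = 0 ∧ ¬ IsSquare (w 1)) ∨
    (w 0 * w 1 = g * w 2 ∧ ¬ IsSquare (g * w 1))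

open Classical in
/-- the excluded classes at a prime dividing `g` -/
noncomputable def E1 (t : ℕ) [Fact t.Prime] : Finset (Fin 3 → ZMod t) :=
  univ.filter fun w => ¬ IsSquare (w 0)

open Classical in
/-- the number of the nonsquares -/
theorem card_ns (h2 : t ≠ 2) : t ≤ 2 * (univ.filter fun b : ZMod t => ¬ IsSquare b).card + 1 := by
  have := card_nonsq h2 (one_ne_zero (α := ZMod t))
  simpa only [one_mul] using this

theorem card_E3 (h2 : t ≠ 2) {g : ZMod t} (hg : g ≠ 0) :
    (3 * t - 1) * (t - 1) ≤ 2 * (E3 t g).card := by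
  classical
  set S := univ.filter fun b : ZMod t => ¬ IsSquare b with hS
  have hs := card_ns (t := t) h2
  rw [← hS] at hs
  have hS0 : ∀ b ∈ S, b ≠ 0 := by
    intro b hb h0
    rw [hS, mem_filter, h0] at hb
    exact hb.2 (by simp)
  have hSm : ∀ b ∈ S, ¬ IsSquare b := fun b hb => (mem_filter.1 hb).2
  have ht1 : 1 < t := ht.out.one_lt
  set f1 : ZMod t × ZMod t → (Fin 3 → ZMod t) := fun p => ![p.1, 0, p.2] with hf1
  set f2 : ZMod t × ZMod t → (Fin 3 → ZMod t) := fun p => ![p.1, p.2, 0] with hf2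
  set f3 : ZMod t × ZMod t → (Fin 3 → ZMod t) := fun p => ![p.1, p.2 / g, p.1 * p.2 / g ^ 2] with hf3
  have i1 : Function.Injective f1 := by
    rintro ⟨a, b⟩ ⟨c, d⟩ h
    have h0 := congrFun h 0
    have h1 := congrFun h 2
    simp [hf1] at h0 h1
    rw [h0, h1]
  have i2 : Function.Injective f2 := by
    rintro ⟨a, b⟩ ⟨c, d⟩ h
    have h0 := congrFun h 0
    have h1 := congrFun h 1
    simp [hf2] at h0 h1
    rw [h0, h1]
  have i3 : Function.Injective f3 := by
    rintro ⟨a, b⟩ ⟨c, d⟩ h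
    have h0 := congrFun h 0
    have h1 := congrFun h 1
    simp [hf3] at h0 h1
    rw [div_left_inj' hg] at h1
    rw [h0, h1]
  set A1 := ((univ : Finset (ZMod t)) ×ˢ S).image f1 with hA1
  set A2 := ((univ : Finset (ZMod t)) ×ˢ S).image f2 with hA2
  set A3 := (((univ : Finset (ZMod t)).erase 0) ×ˢ S).image f3 with hA3
  have c1 : A1.card = t * S.card := by
    rw [hA1, card_image_of_injective _ i1, card_product, card_univ, ZMod.card]
  have c2 : A2.card = t * S.card := by
    rw [hA2, card_image_of_injective _ i2, card_product, card_univ, ZMod.card]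
  have c3 : A3.card = (t - 1) * S.card := by
    rw [hA3, card_image_of_injective _ i3, card_product, card_erase_of_mem (mem_univ _), card_univ,
      ZMod.card]
  have d12 : Disjoint A1 A2 := by
    rw [disjoint_left]
    intro w h1 h2
    obtain ⟨p, -, rfl⟩ := mem_image.1 h1
    obtain ⟨q, hq, e⟩ := mem_image.1 h2
    have := congrFun e 1
    simp [hf1, hf2] at this
    exact hS0 _ (mem_product.1 hq).2 this
  have d3 : Disjoint (A1 ∪ A2) A3 := by
    rw [disjoint_left]
    intro w h1 h2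
    obtain ⟨q, hq, rfl⟩ := mem_image.1 h2
    have hq1 := hS0 _ (mem_product.1 hq).2
    have hq2 := (mem_erase.1 (mem_product.1 hq).1).1
    rcases mem_union.1 h1 with h1 | h1
    · obtain ⟨p, -, e⟩ := mem_image.1 h1
      have := congrFun e 1
      simp [hf1, hf3] at this
      exact div_ne_zero hq1 hg this.symm
    · obtain ⟨p, -, e⟩ := mem_image.1 h1
      have := congrFun e 2
      simp only [hf2, hf3, Matrix.cons_val] at this
      exact div_ne_zero (mul_ne_zero hq2 hq1) (pow_ne_zero 2 hg) this.symm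
  have hsub : A1 ∪ A2 ∪ A3 ⊆ E3 t g := by
    intro w hw
    unfold E3
    rw [mem_filter]
    refine ⟨mem_univ _, ?_⟩
    rcases mem_union.1 hw with hw | hw
    · rcases mem_union.1 hw with hw | hw
      · obtain ⟨p, hp, rfl⟩ := mem_image.1 hw
        left
        simp only [hf1, Matrix.cons_val]
        exact ⟨trivial, hSm _ (mem_product.1 hp).2⟩
      · obtain ⟨p, hp, rfl⟩ := mem_image.1 hw
        right
        left
        simp only [hf2, Matrix.cons_val]
        exact ⟨trivial, hSm _ (mem_product.1 hp).2⟩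
    · obtain ⟨p, hp, rfl⟩ := mem_image.1 hw
      right
      right
      simp only [hf3, Matrix.cons_val]
      refine ⟨?_, ?_⟩
      · field_simp
      · rw [mul_div_cancel₀ _ hg]
        exact hSm _ (mem_product.1 hp).2
  have hc := card_le_card hsub
  rw [card_union_of_disjoint d3, card_union_of_disjoint d12, c1, c2, c3] at hc
  have e : t * S.card + t * S.card + (t - 1) * S.card = (3 * t - 1) * S.card := by
    have : 3 * t - 1 = t + t + (t - 1) := by omega
    rw [this]
    ring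
  rw [e] at hc
  calc (3 * t - 1) * (t - 1) ≤ (3 * t - 1) * (2 * S.card) := Nat.mul_le_mul_left _ (by omega)
    _ = 2 * ((3 * t - 1) * S.card) := by ring
    _ ≤ 2 * (E3 t g).card := Nat.mul_le_mul_left _ hc

theorem card_E1 (h2 : t ≠ 2) : (t - 1) * t ^ 2 ≤ 2 * (E1 t).card := by
  classical
  set S := univ.filter fun b : ZMod t => ¬ IsSquare b with hS
  have hs := card_ns (t := t) h2
  rw [← hS] at hs
  set f : ZMod t × ZMod t × ZMod t → (Fin 3 → ZMod t) := fun p => ![p.1, p.2.1, p.2.2] with hf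
  have hi : Function.Injective f := by
    rintro ⟨a, b, c⟩ ⟨a', b', c'⟩ h
    have h0 := congrFun h 0
    have h1 := congrFun h 1
    have h2 := congrFun h 2
    simp [hf] at h0 h1 h2
    rw [h0, h1, h2]
  have hsub : (S ×ˢ ((univ : Finset (ZMod t)) ×ˢ (univ : Finset (ZMod t)))).image f ⊆ E1 t := by
    intro w hw
    obtain ⟨p, hp, rfl⟩ := mem_image.1 hw
    unfold E1
    rw [mem_filter]
    refine ⟨mem_univ _, ?_⟩
    simp only [hf, Matrix.cons_val]
    exact (mem_filter.1 (mem_product.1 hp).1).2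
  have hc := card_le_card hsub
  rw [card_image_of_injective _ hi, card_product, card_product, card_univ, ZMod.card] at hc
  calc (t - 1) * t ^ 2 ≤ (2 * S.card) * t ^ 2 := Nat.mul_le_mul_right _ (by omega)
    _ = 2 * (S.card * (t * t)) := by ring
    _ ≤ 2 * (E1 t).card := Nat.mul_le_mul_left _ hc

end

/-- densities -/
noncomputable def eta3 (t : ℕ) : ℝ := (3 * (t : ℝ) - 1) * (t - 1) / (2 * (t : ℝ) ^ 3)

/-- densities -/
noncomputable def eta1 (t : ℕ) : ℝ := ((t : ℝ) - 1) / (2 * t)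

theorem eta3_pos {t : ℕ} (ht : t.Prime) : 0 < eta3 t ∧ eta3 t ≤ (3 / 2) / t ∧
    3 / 2 * (1 / t) - 2 * (1 / (t : ℝ) ^ 2) ≤ eta3 t := by
  have h2 : (2 : ℝ) ≤ t := by exact_mod_cast ht.two_le
  have h0 : (0 : ℝ) < t := by linarith
  unfold eta3
  refine ⟨div_pos (mul_pos (by linarith) (by linarith)) (by positivity), ?_, ?_⟩
  · rw [div_le_div_iff₀ (by positivity) h0]
    nlinarith [pow_pos h0 2, pow_pos h0 3]
  · have e : (3 * (t : ℝ) - 1) * (t - 1) / (2 * (t : ℝ) ^ 3) =
        3 / 2 * (1 / t) - 2 * (1 / (t : ℝ) ^ 2) + 1 / (2 * (t : ℝ) ^ 3) := by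
      field_simp
      ring
    rw [e]
    have : (0 : ℝ) ≤ 1 / (2 * (t : ℝ) ^ 3) := by positivity
    linarith

theorem eta1_pos {t : ℕ} (ht : t.Prime) : 0 < eta1 t := by
  have h2 : (2 : ℝ) ≤ t := by exact_mod_cast ht.two_le
  unfold eta1
  exact div_pos (by linarith) (by linarith)

theorem eta3_card {t : ℕ} [ht : Fact t.Prime] (h2 : t ≠ 2) {g : ZMod t} (hg : g ≠ 0) :
    eta3 t * (t : ℝ) ^ 3 ≤ ((E3 t g).card : ℝ) := by
  have h := card_E3 h2 hg
  have ht1 : 1 ≤ t := ht.out.one_lt.le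
  have h0 : (0 : ℝ) < t := by exact_mod_cast ht.out.pos
  have h3 : (((3 * t - 1) * (t - 1) : ℕ) : ℝ) ≤ 2 * ((E3 t g).card : ℝ) := by exact_mod_cast h
  push_cast [Nat.cast_sub ht1, Nat.cast_sub (by omega : 1 ≤ 3 * t)] at h3
  unfold eta3
  rw [div_mul_eq_mul_div, div_le_iff₀ (by positivity)]
  nlinarith [pow_pos h0 3]

theorem eta1_card {t : ℕ} [ht : Fact t.Prime] (h2 : t ≠ 2) :
    eta1 t * (t : ℝ) ^ 3 ≤ ((E1 t).card : ℝ) := by
  have h := card_E1 (t := t) h2
  have ht1 : 1 ≤ t := ht.out.one_lt.le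
  have h0 : (0 : ℝ) < t := by exact_mod_cast ht.out.pos
  have h3 : (((t - 1) * t ^ 2 : ℕ) : ℝ) ≤ 2 * ((E1 t).card : ℝ) := by exact_mod_cast h
  push_cast [Nat.cast_sub ht1] at h3
  unfold eta1
  rw [div_mul_eq_mul_div, div_le_iff₀ (by positivity)]
  nlinarith [pow_pos h0 3]

end Pool.Agent.H14Q
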