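import Pool.Agent.H14Q.Mert

/-!
# Sums of multiplicative functions, upper bounds
-/

set_option autoImplicit false

namespace Pool.Agent.H14Q

open Finset

/-- `(1 / g) ∏_{t ∣ g} a t` -/
noncomputable def mf (a : ℕ → ℝ) (g : ℕ) : ℝ := 1 / (g : ℝ) * ∏ t ∈ g.primeFactors, a t

theorem mf_mul (a : ℕ → ℝ) {m n : ℕ} (h : m.Coprime n) : mf a (m * n) = mf a m * mf a n := by
  unfold mf
  rw [h.primeFactors_mul, Finset.prod_union h.disjoint_primeFactors]
  push_cast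
  rw [one_div, one_div, one_div, mul_inv]
  ring

theorem mf_one (a : ℕ → ℝ) : mf a 1 = 1 := by simp [mf]

theorem mf_prime_pow (a : ℕ → ℝ) {p : ℕ} (hp : p.Prime) (n : ℕ) :
    mf a (p ^ n) = if n = 0 then 1 else a p * (1 / (p : ℝ)) ^ n := by
  by_cases hn : n = 0
  · rw [if_pos hn, hn, pow_zero, mf_one]
  · rw [if_neg hn]
    unfold mf
    rw [Nat.primeFactors_prime_pow hn hp, Finset.prod_singleton]
    push_cast
    rw [one_div_pow]
    ring

/-- **Upper bound by the Euler product.** -/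
theorem ep {a : ℕ → ℝ} (ha : ∀ t, 0 ≤ a t) (H : ℕ) :
    ∑ g ∈ Icc 1 H, mf a g ≤ Real.exp (∑ t ∈ (Icc 1 H).filter Nat.Prime, a t / ((t : ℝ) - 1)) := by
  have hnn : ∀ g, 0 ≤ mf a g := fun g => mul_nonneg (by positivity)
    (Finset.prod_nonneg fun t _ => ha t)
  have hser : ∀ {p : ℕ}, p.Prime → HasSum (fun n : ℕ => mf a (p ^ n)) (1 + a p / ((p : ℝ) - 1)) := by
    intro p hp
    have hp1 : (1 : ℝ) < p := by exact_mod_cast hp.one_lt
    have h0 : (0 : ℝ) ≤ 1 / (p : ℝ) := by positivity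
    have h1 : 1 / (p : ℝ) < 1 := by rw [div_lt_one (by linarith)]; exact hp1
    have h2 := (hasSum_geometric_of_lt_one h0 h1).mul_left (a p)
    have h3 : HasSum (fun n : ℕ => if n = 0 then (1 - a p : ℝ) else 0) (1 - a p) := by
      have := hasSum_ite_eq (0 : ℕ) (1 - a p : ℝ)
      exact this
    have h4 := h3.add h2
    convert h4 using 1
    · funext n
      rw [mf_prime_pow a hp]
      by_cases hn : n = 0
      · simp [hn]
      · simp [hn]
    · have h5 : (p : ℝ) - 1 ≠ 0 := by linarith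
      have h6 : (p : ℝ) ≠ 0 := by linarith
      have h7 : (1 - 1 / (p : ℝ))⁻¹ = p / ((p : ℝ) - 1) := by
        rw [one_sub_div h6, inv_div]
      rw [h7]
      field_simp
      ring
  have hsum : ∀ {p : ℕ}, p.Prime → Summable (fun n : ℕ => ‖mf a (p ^ n)‖) := by
    intro p hp
    have := (hser hp).summable
    refine this.congr fun n => ?_
    rw [Real.norm_of_nonneg (hnn _)]
  have hEP := EulerProduct.summable_and_hasSum_smoothNumbers_prod_primesBelow_tsum (mf_one a)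
    (fun {m n} h => mf_mul a h) hsum (H + 1)
  have h1 : ∑ g ∈ Icc 1 H, mf a g ≤ ∏ p ∈ (H + 1).primesBelow, ∑' n : ℕ, mf a (p ^ n) := by
    have hsub : ∀ g ∈ Icc 1 H, g ∈ (H + 1).smoothNumbers := by
      intro g hg
      rw [mem_Icc] at hg
      exact Nat.mem_smoothNumbers_of_lt (by omega) (by omega)
    have h2 : ∑ g ∈ Icc 1 H, mf a g =
        ∑ g ∈ (Icc 1 H).attach.map ⟨fun x => (⟨x.1, hsub x.1 x.2⟩ : (H + 1).smoothNumbers), by
          intro x y h
          have := congrArg Subtype.val h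
          exact Subtype.ext this⟩, mf a g := by
      rw [Finset.sum_map, ← Finset.sum_attach]
      rfl
    rw [h2]
    exact sum_le_hasSum _ (fun g _ => hnn g) hEP.2
  refine h1.trans ?_
  rw [Real.exp_sum]
  have e : (H + 1).primesBelow = (Icc 1 H).filter Nat.Prime := by
    ext t
    rw [Nat.mem_primesBelow, mem_filter, mem_Icc]
    constructor
    · rintro ⟨h2, h3⟩
      exact ⟨⟨h3.pos, by omega⟩, h3⟩
    · rintro ⟨h2, h3⟩
      exact ⟨by omega, h3⟩
  rw [e]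
  refine Finset.prod_le_prod (fun t _ => tsum_nonneg fun n => hnn _) fun t ht => ?_
  rw [(hser (mem_filter.1 ht).2).tsum_eq, add_comm]
  exact Real.add_one_le_exp _

/-- `exp (3 / (2 t)) / (t - 1) ≤ 1 / t + 8 / t²` -/
theorem aux_a {t : ℕ} (ht : t.Prime) :
    Real.exp (3 / 2 * (1 / (t : ℝ))) / ((t : ℝ) - 1) ≤ 1 / t + 8 * (1 / (t : ℝ) ^ 2) := by
  have h2 : (2 : ℝ) ≤ t := by exact_mod_cast ht.two_le
  have h0 : (0 : ℝ) < t := by linarith
  have h1 : (0 : ℝ) < (t : ℝ) - 1 := by linarith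
  have hx : 3 / 2 * (1 / (t : ℝ)) ≤ 3 / 4 := by
    rw [mul_one_div, div_le_iff₀ h0]
    linarith
  have he : Real.exp (3 / 2 * (1 / (t : ℝ))) ≤ 1 + 3 / t := by
    set x := 3 / 2 * (1 / (t : ℝ)) with hx'
    have hx0 : 0 ≤ x := by positivity
    have h3 : Real.exp x ≤ 1 + 2 * x := by
      -- convexity: exp (-x) ≥ 1 - x, and 1/(1-x) ≤ 1 + 2x iff x ≤ 1/2
      have h4 := convexOn_exp.2 (Set.mem_univ (0 : ℝ)) (Set.mem_univ (1 : ℝ))
        (show 0 ≤ 1 - x by linarith) hx0 (by ring)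
      simp only [smul_eq_mul, mul_zero, mul_one, zero_add, Real.exp_zero] at h4
      have h5 := Real.exp_one_lt_d9
      nlinarith
    refine h3.trans (le_of_eq ?_)
    rw [hx']
    ring
  calc Real.exp (3 / 2 * (1 / (t : ℝ))) / ((t : ℝ) - 1) ≤ (1 + 3 / t) / ((t : ℝ) - 1) :=
        div_le_div_of_nonneg_right he h1.le
    _ ≤ 1 / t + 8 * (1 / (t : ℝ) ^ 2) := by
        rw [div_le_iff₀ h1]
        have e : (1 / (t : ℝ) + 8 * (1 / (t : ℝ) ^ 2)) * ((t : ℝ) - 1) - (1 + 3 / t) =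
          (4 * t - 8) / (t : ℝ) ^ 2 := by
          field_simp
          ring
        have : 0 ≤ (4 * (t : ℝ) - 8) / (t : ℝ) ^ 2 := div_nonneg (by linarith) (by positivity)
        linarith

/-- `exp (3 / (2 t)) (2 t / (3 t - 1)) / (t - 1) ≤ (2/3) / t + 8 / t²` -/
theorem aux_b {t : ℕ} (ht : t.Prime) (h3 : 3 ≤ t) :
    Real.exp (3 / 2 * (1 / (t : ℝ))) * (2 * t / (3 * t - 1)) / ((t : ℝ) - 1) ≤
      2 / 3 * (1 / t) + 8 * (1 / (t : ℝ) ^ 2) := by
  have h2 : (3 : ℝ) ≤ t := by exact_mod_cast h3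
  have h0 : (0 : ℝ) < t := by linarith
  have h1 : (0 : ℝ) < (t : ℝ) - 1 := by linarith
  have h4 : (0 : ℝ) < 3 * t - 1 := by linarith
  have h5 := aux_a ht
  have e : Real.exp (3 / 2 * (1 / (t : ℝ))) * (2 * t / (3 * t - 1)) / ((t : ℝ) - 1) =
    Real.exp (3 / 2 * (1 / (t : ℝ))) / ((t : ℝ) - 1) * (2 * t / (3 * t - 1)) := by ring
  rw [e]
  have hx : 3 / 2 * (1 / (t : ℝ)) ≤ 1 / 2 := by
    rw [mul_one_div, div_le_iff₀ h0]
    linarith
  have he : Real.exp (3 / 2 * (1 / (t : ℝ))) ≤ 1 + 3 / t := by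
    set x := 3 / 2 * (1 / (t : ℝ)) with hx'
    have hx0 : 0 ≤ x := by positivity
    have h3 : Real.exp x ≤ 1 + 2 * x := by
      have h4 := convexOn_exp.2 (Set.mem_univ (0 : ℝ)) (Set.mem_univ (1 : ℝ))
        (show 0 ≤ 1 - x by linarith) hx0 (by ring)
      simp only [smul_eq_mul, mul_zero, mul_one, zero_add, Real.exp_zero] at h4
      have h5 := Real.exp_one_lt_d9
      nlinarith
    refine h3.trans (le_of_eq ?_)
    rw [hx']
    ring
  have h6 : Real.exp (3 / 2 * (1 / (t : ℝ))) / ((t : ℝ) - 1) * (2 * t / (3 * t - 1)) ≤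
      (1 + 3 / t) / ((t : ℝ) - 1) * (2 * t / (3 * t - 1)) :=
    mul_le_mul_of_nonneg_right (div_le_div_of_nonneg_right he h1.le) (by positivity)
  refine h6.trans ?_
  have e2 : (1 + 3 / (t : ℝ)) / ((t : ℝ) - 1) * (2 * t / (3 * t - 1)) =
      2 * (t + 3) / (((t : ℝ) - 1) * (3 * t - 1)) := by
    field_simp
  rw [e2, div_le_iff₀ (by positivity)]
  have e3 : (2 / 3 * (1 / (t : ℝ)) + 8 * (1 / (t : ℝ) ^ 2)) * (((t : ℝ) - 1) * (3 * t - 1)) -
      2 * (t + 3) = (46 / 3 * t ^ 2 - 94 / 3 * t + 8) / (t : ℝ) ^ 2 := by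
    field_simp
    ring
  have : 0 ≤ (46 / 3 * (t : ℝ) ^ 2 - 94 / 3 * t + 8) / (t : ℝ) ^ 2 :=
    div_nonneg (by nlinarith) (by positivity)
  linarith

end Pool.Agent.H14Q
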