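import Pool.Agent.H14Q.Cop
import Pool.Agent.H14Q.Loc

/-!
# Lower bound for the number of everywhere locally soluble curves, `k` fixed
-/

set_option autoImplicit false

namespace Pool.Agent.H14Q

open Finset

theorem els_prog {k : ℤ} {H : ℕ} {p : ℕ × ℕ} (hp : p ∈ prog (8 * k.natAbs) 1 H)
    (hc : p.1.Coprime p.2) : ELS (p.1 : ℤ) (p.2 : ℤ) k := by
  unfold prog at hp
  rw [mem_product, mem_filter, mem_Icc, mem_Icc] at hp
  obtain ⟨h1, h2, h3⟩ := hp
  have h4 : ∀ d : ℕ, d ∣ 8 * k.natAbs → p.2 % d = 1 % d := by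
    intro d hd
    rw [← Nat.mod_mod_of_dvd p.2 hd, h3, Nat.mod_mod_of_dvd 1 hd]
  refine els (by exact_mod_cast h2.1) ?_ ?_ ?_
  · have := h4 8 (dvd_mul_right _ _)
    omega
  · intro q hq hq2 hqk
    left
    have h5 := h4 q (Dvd.dvd.mul_left (Int.natCast_dvd.1 hqk) 8)
    have : Fact q.Prime := ⟨hq⟩
    have h6 : ((p.2 : ℕ) : ZMod q) = 1 := by
      have := (ZMod.natCast_eq_natCast_iff' p.2 1 q).2 h5
      simpa using this
    refine ⟨?_, ?_⟩
    · rw [← ZMod.intCast_zmod_eq_zero_iff_dvd]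
      push_cast
      rw [h6]
      exact one_ne_zero
    · push_cast
      rw [h6]
      exact IsSquare.one
  · rintro q hq - ⟨h5, h6⟩
    have h7 : q ∣ Nat.gcd p.1 p.2 := Nat.dvd_gcd (by exact_mod_cast h5) (by exact_mod_cast h6)
    rw [hc] at h7
    exact hq.one_lt.ne' (Nat.dvd_one.1 h7)

theorem log_le_sqrt {H : ℕ} (hH : 1 ≤ H) : Real.log H ≤ 2 * Real.sqrt H := by
  have hHr : (1 : ℝ) ≤ H := by exact_mod_cast hH
  have h1 : Real.log (Real.sqrt H) ≤ Real.sqrt H - 1 :=
    Real.log_le_sub_one_of_pos (Real.sqrt_pos.2 (by linarith))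
  rw [Real.log_sqrt (by linarith)] at h1
  linarith

open Classical in
/-- **Lower bound.** -/
theorem low1 {k : ℤ} (hk : k ≠ 0) {H : ℕ} (hH : (160 * k.natAbs) ^ 2 ≤ H) :
    (H : ℝ) ^ 2 / (32 * k.natAbs) ≤
      (((box H).filter fun p => ELS p.1 p.2 k ∧ p.1 * p.2 ≠ 0 ∧ p.1 * p.2 ≠ k).card : ℝ) := by
  have hK1 : 1 ≤ k.natAbs := Int.natAbs_pos.2 hk
  set K := k.natAbs with hK
  have hKr : (1 : ℝ) ≤ K := by exact_mod_cast hK1
  have hH1 : 1 ≤ H := le_trans (by nlinarith) hH
  have hHr : (1 : ℝ) ≤ H := by exact_mod_cast hH1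
  have h1 := cop (M := 8 * K) (a := 1) (H := H) ⟨4 * K, by ring⟩ (by omega)
    (Nat.coprime_one_left _) (by omega) hH1
  push_cast at h1
  -- the sizes
  have hs : 160 * (K : ℝ) ≤ Real.sqrt H := by
    refine Real.le_sqrt_of_sq_le ?_
    exact_mod_cast hH
  have hs2 : Real.sqrt H * Real.sqrt H = H := Real.mul_self_sqrt (by linarith)
  have hs1 : 1 ≤ Real.sqrt H := by linarith
  have hlog := log_le_sqrt hH1
  have h2 : (H : ℝ) * (3 + Real.log H) ≤ (H : ℝ) ^ 2 / (32 * K) := by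
    rw [le_div_iff₀ (by positivity)]
    have h3 : (3 + Real.log H) * (32 * K) ≤ H := by
      have h4 : 3 + Real.log H ≤ 5 * Real.sqrt H := by linarith
      calc (3 + Real.log H) * (32 * K) ≤ (5 * Real.sqrt H) * (32 * K) :=
            mul_le_mul_of_nonneg_right h4 (by positivity)
        _ = (160 * K) * Real.sqrt H := by ring
        _ ≤ Real.sqrt H * Real.sqrt H := mul_le_mul_of_nonneg_right hs (by linarith)
        _ = H := hs2
    calc (H : ℝ) * (3 + Real.log H) * (32 * K) = H * ((3 + Real.log H) * (32 * K)) := by ring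
      _ ≤ H * H := mul_le_mul_of_nonneg_left h3 (by linarith)
      _ = (H : ℝ) ^ 2 := by ring
  -- the pairs with product k
  set S := (prog (8 * K) 1 H).filter fun p => p.1.Coprime p.2 with hS
  have hbad : (S.filter fun p => ((p.1 : ℤ) * p.2 = k)).card ≤ H := by
    have h3 : (S.filter fun p => ((p.1 : ℤ) * p.2 = k)).card ≤ (Icc 1 H).card := by
      refine Finset.card_le_card_of_injOn (fun p => p.1) ?_ ?_
      · intro p hp
        have := (mem_filter.1 (mem_filter.1 hp).1).1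
        unfold prog at this
        exact (mem_product.1 this).1
      · rintro ⟨m, n⟩ hp ⟨m', n'⟩ hp' h
        simp only at h
        subst h
        have e1 := (mem_filter.1 hp).2
        have e2 := (mem_filter.1 hp').2
        have e3 := (mem_filter.1 (mem_filter.1 hp).1).1
        unfold prog at e3
        have e4 := (mem_Icc.1 (mem_product.1 e3).1).1
        simp only at e1 e2 e4
        have e5 : (m : ℤ) ≠ 0 := by
          have : (0 : ℤ) < m := by exact_mod_cast e4
          exact this.ne'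
        have e6 : (n : ℤ) = n' := mul_left_cancel₀ e5 (e1.trans e2.symm)
        rw [Prod.mk.injEq]
        exact ⟨rfl, by exact_mod_cast e6⟩
    rwa [Nat.card_Icc, Nat.add_sub_cancel] at h3
  have hsplit : S.card = (S.filter fun p => ((p.1 : ℤ) * p.2 = k)).card +
      (S.filter fun p => ¬ ((p.1 : ℤ) * p.2 = k)).card :=
    (Finset.card_filter_add_card_filter_not _).symm
  have hinj : (S.filter fun p => ¬ ((p.1 : ℤ) * p.2 = k)).card ≤
      ((box H).filter fun p => ELS p.1 p.2 k ∧ p.1 * p.2 ≠ 0 ∧ p.1 * p.2 ≠ k).card := by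
    refine Finset.card_le_card_of_injOn (fun p => ((p.1 : ℤ), (p.2 : ℤ))) ?_ ?_
    · intro p hp
      obtain ⟨h3, h4⟩ := mem_filter.1 (Finset.mem_coe.1 hp)
      obtain ⟨h5, h6⟩ := mem_filter.1 h3
      have h7 := els_prog (k := k) h5 h6
      unfold prog at h5
      rw [mem_product, mem_filter, mem_Icc, mem_Icc] at h5
      rw [Finset.mem_coe, mem_filter, mem_box]
      refine ⟨⟨?_, ?_⟩, h7, ?_, h4⟩
      · rw [abs_of_nonneg (by positivity)]
        show ((p.1 : ℕ) : ℤ) ≤ H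
        exact_mod_cast h5.1.2
      · rw [abs_of_nonneg (by positivity)]
        show ((p.2 : ℕ) : ℤ) ≤ H
        exact_mod_cast h5.2.1.2
      · have e1 : (0 : ℤ) < p.1 := by exact_mod_cast h5.1.1
        have e2 : (0 : ℤ) < p.2 := by exact_mod_cast h5.2.1.1
        exact (mul_pos e1 e2).ne'
    · rintro ⟨m, n⟩ _ ⟨m', n'⟩ _ h
      rw [Prod.mk.injEq] at h ⊢
      exact ⟨by exact_mod_cast h.1, by exact_mod_cast h.2⟩
  have h3 : (S.card : ℝ) ≤ H + (((box H).filter fun p => ELS p.1 p.2 k ∧ p.1 * p.2 ≠ 0 ∧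
      p.1 * p.2 ≠ k).card : ℝ) := by
    have : S.card ≤ H + ((box H).filter fun p => ELS p.1 p.2 k ∧ p.1 * p.2 ≠ 0 ∧
      p.1 * p.2 ≠ k).card := by omega
    exact_mod_cast this
  have e : (H : ℝ) ^ 2 / (2 * (8 * K)) = 2 * ((H : ℝ) ^ 2 / (32 * K)) := by
    field_simp
    norm_num
  rw [e] at h1
  linarith

end Pool.Agent.H14Q
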