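import Pool.Agent.H14Q.SumX

/-!
# Upper bound for the number of triples `(m, n, k)` without certificate
-/

set_option autoImplicit false

namespace Pool.Agent.H14Q

open Finset

/-- the triples with `|m|, |n| ≤ H`, `|k| ≤ H²` -/
noncomputable def box3 (H : ℕ) : Finset (ℤ × ℤ × ℤ) :=
  Icc (-(H : ℤ)) H ×ˢ Icc (-(H : ℤ)) H ×ˢ Icc (-((H ^ 2 : ℕ) : ℤ)) ((H ^ 2 : ℕ) : ℤ)

theorem mem_box3 {H : ℕ} {p : ℤ × ℤ × ℤ} :
    p ∈ box3 H ↔ |p.1| ≤ H ∧ |p.2.1| ≤ H ∧ |p.2.2| ≤ ((H ^ 2 : ℕ) : ℤ) := by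
  unfold box3
  rw [mem_product, mem_product, mem_Icc, mem_Icc, mem_Icc, abs_le, abs_le, abs_le]

/-- the coverings `(g, h)` with small `g` -/
def Ap (H : ℕ) (p : ℤ × ℤ × ℤ) : Prop :=
  p.2.2 ≠ 0 ∧ ∃ g h : ℤ, g * h = p.2.2 ∧ |g| ≤ H ∧ ∀ q : ℕ, 2 ≤ q → ¬ Obs p.1 p.2.1 g h q

theorem nocert_Ap {H : ℕ} {p : ℤ × ℤ × ℤ} (hp : p ∈ box3 H) (hk : p.2.2 ≠ 0)
    (hc : ¬ Cert p.1 p.2.1 p.2.2) : Ap H p ∨ Ap H (p.2.1, p.1, p.2.2) := by
  unfold Cert at hc
  push Not at hc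
  obtain ⟨g, h, hgh, ho⟩ := hc hk
  have hb := (mem_box3.1 hp).2.2
  by_cases hg : |g| ≤ H
  · exact Or.inl ⟨hk, g, h, hgh, hg, ho⟩
  · right
    refine ⟨hk, h, g, by rw [mul_comm]; exact hgh, ?_, fun q hq hob => ho q hq hob.symm⟩
    rw [← hgh, abs_mul] at hb
    push_cast at hb
    have h1 : (H : ℤ) < |g| := not_le.1 hg
    have h2 : (0 : ℤ) ≤ H := by positivity
    by_contra hcon
    have h3 : (H : ℤ) < |h| := not_le.1 hcon
    have h4 : (H : ℤ) * H < |g| * |h| := by nlinarith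
    nlinarith

/-- the bad triples -/
def Bad (H : ℕ) (p : ℤ × ℤ × ℤ) : Prop :=
  ∃ t ∈ prs (yH H) (QH H) 1, (t : ℤ) ^ 2 ∣ p.2.1 ∨ (t : ℤ) ^ 2 ∣ p.1 * p.2.1 - p.2.2

theorem surv_of {H : ℕ} {m n g h : ℤ}
    (hb : ¬ Bad H (m, n, g * h)) (ho : ∀ q : ℕ, 2 ≤ q → ¬ Obs m n g h q) :
    Surv (P1 H g.natAbs) (prs (yH H) (QH H) g.natAbs) g m n h := by
  constructor
  · intro t ht hnr
    have ht' : t ∈ pz (zH H) g.natAbs := by
      unfold P1 at ht
      split_ifs at ht with hc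
      · exact ht
      · simp at ht
    unfold pz at ht'
    obtain ⟨h1, h2⟩ := mem_filter.1 ht'
    have htp := Nat.prime_of_mem_primeFactors h1
    exact ho t htp.two_le (obs_d htp (Int.natCast_dvd.2 (Nat.dvd_of_mem_primeFactors h1)) hnr)
  · intro t ht hcon
    obtain ⟨h1, htp, h2, h3⟩ := mem_prs.1 ht
    unfold Bad at hb
    push Not at hb
    obtain ⟨hb1, hb2⟩ := hb t (mem_prs.2 ⟨h1, htp, h2, fun h => htp.one_lt.ne' (Nat.dvd_one.1 h)⟩)
    simp only at hb1 hb2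
    rcases hcon with ⟨h4, h5⟩ | ⟨h4, h5⟩ | ⟨h4, h5⟩
    · exact ho t htp.two_le (obs_b htp h4 hb1 h5)
    · exact ho t htp.two_le (obs_e htp h4 h5)
    · exact ho t htp.two_le (obs_c htp h4 hb2 h5)

open Classical in
/-- the survivors for `g` -/
noncomputable def Z3 (H : ℕ) (g : ℤ) : Finset (ℤ × ℤ × ℤ) :=
  (Icc (-(H : ℤ)) H ×ˢ Icc (-(H : ℤ)) H ×ˢ
    Icc (-((H ^ 2 / g.natAbs : ℕ) : ℤ)) ((H ^ 2 / g.natAbs : ℕ) : ℤ)).filter fun z =>
      Surv (P1 H g.natAbs) (prs (yH H) (QH H) g.natAbs) g z.1 z.2.1 z.2.2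

theorem card_Z3 : ∃ C : ℝ, 0 < C ∧ ∀ (H : ℕ) (g : ℤ), 256 ≤ H → g ≠ 0 → |g| ≤ H →
    ((Z3 H g).card : ℝ) ≤ C * (H : ℝ) ^ 4 * (1 / (g.natAbs : ℝ) * Wt H g.natAbs) := by
  classical
  obtain ⟨C, hC, hs⟩ := slab
  refine ⟨C, hC, ?_⟩
  intro H g hH hg hgH
  obtain ⟨hQ4, hQH, hQL⟩ := Q_facts hH
  obtain ⟨hL, hLL⟩ := logs (by omega : 16 ≤ H)
  have hy2 : 2 ≤ yH H := Nat.le_floor (by push_cast; linarith)
  have hgn : g.natAbs ≤ H := by
    rw [Int.abs_eq_natAbs] at hgH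
    exact_mod_cast hgH
  have hg0 : 0 < g.natAbs := Int.natAbs_pos.2 hg
  have hX : H ≤ H ^ 2 / g.natAbs := by
    rw [Nat.le_div_iff_mul_le hg0]
    nlinarith
  have hP1 : ∀ t ∈ P1 H g.natAbs, t ∈ pz (zH H) g.natAbs := by
    intro t ht
    unfold P1 at ht
    split_ifs at ht with hc
    · exact ht
    · simp at ht
  have h1 := hs H (QH H) (QH H) (H ^ 2 / g.natAbs) (P1 H g.natAbs) (prs (yH H) (QH H) g.natAbs) g
    (Z3 H g) (by omega) hX (by omega)
    (by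
      have : (QH H * QH H) ^ 2 = QH H ^ 4 := by ring
      omega)
    (by
      rw [disjoint_left]
      intro t ht1 ht2
      have h2 := hP1 t ht1
      unfold pz at h2
      exact (mem_prs.1 ht2).2.2.2 (Nat.dvd_of_mem_primeFactors (mem_filter.1 h2).1))
    (by
      unfold P1
      split_ifs with hc
      · exact hc
      · rw [Finset.prod_empty]
        omega)
    (by
      intro t ht
      rcases mem_union.1 ht with ht | ht
      · have h2 := hP1 t ht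
        unfold pz at h2
        obtain ⟨h3, h4⟩ := mem_filter.1 h2
        exact ⟨Nat.prime_of_mem_primeFactors h3, by omega⟩
      · obtain ⟨h3, h4, h5, h6⟩ := mem_prs.1 ht
        exact ⟨h4, by omega⟩)
    (by
      intro t ht
      obtain ⟨h3, h4, h5, h6⟩ := mem_prs.1 ht
      exact ⟨h3, by rwa [← Int.natCast_dvd] at h6⟩)
    (by
      intro z hz
      unfold Z3 at hz
      rw [mem_filter, mem_product, mem_product, mem_Icc, mem_Icc, mem_Icc, ← abs_le, ← abs_le,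
        ← abs_le] at hz
      exact ⟨hz.1.1, hz.1.2.1, hz.1.2.2, hz.2⟩)
  refine h1.trans ?_
  have h2 : ((H ^ 2 / g.natAbs : ℕ) : ℝ) ≤ (H : ℝ) ^ 2 / g.natAbs := by
    have := Nat.cast_div_le (α := ℝ) (m := H ^ 2) (n := g.natAbs)
    push_cast at this ⊢
    exact this
  have hW : 0 ≤ Wt H g.natAbs := by
    unfold Wt
    refine div_nonneg (Real.exp_pos _).le (Finset.prod_nonneg fun t ht => ?_)
    have h3 := hP1 t ht
    unfold pz at h3
    have := eta1_pos (Nat.prime_of_mem_primeFactors (mem_filter.1 h3).1)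
    linarith
  calc C * ((H ^ 2 / g.natAbs : ℕ) : ℝ) * (H : ℝ) ^ 2 *
        (Real.exp (-∑ t ∈ prs (yH H) (QH H) g.natAbs, eta3 t) / ∏ t ∈ P1 H g.natAbs, (1 + eta1 t))
      = C * ((H ^ 2 / g.natAbs : ℕ) : ℝ) * (H : ℝ) ^ 2 * Wt H g.natAbs := rfl
    _ ≤ C * ((H : ℝ) ^ 2 / g.natAbs) * (H : ℝ) ^ 2 * Wt H g.natAbs := by
        refine mul_le_mul_of_nonneg_right ?_ hW
        refine mul_le_mul_of_nonneg_right ?_ (by positivity)
        exact mul_le_mul_of_nonneg_left h2 hC.le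
    _ = C * (H : ℝ) ^ 4 * (1 / (g.natAbs : ℝ) * Wt H g.natAbs) := by ring

open Classical in
theorem Ap_sub {H : ℕ} : (box3 H).filter (Ap H) ⊆
    (box3 H).filter (Bad H) ∪ ((Icc (-(H : ℤ)) H).filter (fun g => g ≠ 0)).biUnion fun g =>
      (Z3 H g).image fun z => (z.1, z.2.1, g * z.2.2) := by
  intro p hp
  rw [mem_filter] at hp
  obtain ⟨hp1, hk, g, h, hgh, hg, ho⟩ := hp
  rw [mem_union]
  by_cases hb : Bad H p
  · exact Or.inl (mem_filter.2 ⟨hp1, hb⟩)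
  · right
    have hg0 : g ≠ 0 := by
      rintro rfl
      exact hk (by rw [← hgh, zero_mul])
    rw [mem_biUnion]
    refine ⟨g, ?_, ?_⟩
    · rw [mem_filter, mem_Icc, ← abs_le]
      exact ⟨hg, hg0⟩
    · rw [mem_image]
      refine ⟨(p.1, p.2.1, h), ?_, ?_⟩
      · unfold Z3
        rw [mem_filter, mem_product, mem_product, mem_Icc, mem_Icc, mem_Icc, ← abs_le, ← abs_le,
          ← abs_le]
        obtain ⟨h1, h2, h3⟩ := mem_box3.1 hp1
        refine ⟨⟨h1, h2, ?_⟩, surv_of ?_ ho⟩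
        · have hgn : 0 < g.natAbs := Int.natAbs_pos.2 hg0
          have h4 : h.natAbs ≤ H ^ 2 / g.natAbs := by
            rw [Nat.le_div_iff_mul_le hgn]
            rw [← hgh, Int.abs_eq_natAbs] at h3
            have h5 : (g * h).natAbs ≤ H ^ 2 := by exact_mod_cast h3
            rw [Int.natAbs_mul] at h5
            rw [mul_comm]
            exact h5
          show |h| ≤ ((H ^ 2 / g.natAbs : ℕ) : ℤ)
          rw [Int.abs_eq_natAbs]
          exact_mod_cast h4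
        · rw [hgh]
          exact hb
      · show (p.1, p.2.1, g * h) = p
        rw [hgh]

open Classical in
theorem card_Bad {H : ℕ} (hH : 256 ≤ H) :
    (((box3 H).filter (Bad H)).card : ℝ) ≤ 54 * (H : ℝ) ^ 4 * (1 / (yH H : ℝ)) := by
  obtain ⟨hQ4, hQH, hQL⟩ := Q_facts hH
  obtain ⟨hL, hLL⟩ := logs (by omega : 16 ≤ H)
  have hHr : (256 : ℝ) ≤ H := by exact_mod_cast hH
  have hy2 : 2 ≤ yH H := Nat.le_floor (by push_cast; linarith)
  have hsub : (box3 H).filter (Bad H) ⊆ (prs (yH H) (QH H) 1).biUnion fun t =>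
      (box3 H).filter (fun p => (t : ℤ) ^ 2 ∣ p.2.1) ∪
      (box3 H).filter (fun p => (t : ℤ) ^ 2 ∣ p.1 * p.2.1 - p.2.2) := by
    intro p hp
    rw [mem_filter] at hp
    obtain ⟨hp1, t, ht, h⟩ := hp
    rw [mem_biUnion]
    refine ⟨t, ht, ?_⟩
    rw [mem_union, mem_filter, mem_filter]
    rcases h with h | h
    · exact Or.inl ⟨hp1, h⟩
    · exact Or.inr ⟨hp1, h⟩
  have hI : ((Icc (-(H : ℤ)) H).card : ℝ) ≤ 3 * H := by
    rw [Int.card_Icc]
    have : ((H : ℤ) + 1 - -(H : ℤ)).toNat = 2 * H + 1 := by omega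
    rw [this]
    push_cast
    linarith
  have hJ : ((Icc (-((H ^ 2 : ℕ) : ℤ)) ((H ^ 2 : ℕ) : ℤ)).card : ℝ) ≤ 3 * (H : ℝ) ^ 2 := by
    rw [Int.card_Icc]
    have : (((H ^ 2 : ℕ) : ℤ) + 1 - -((H ^ 2 : ℕ) : ℤ)).toNat = 2 * H ^ 2 + 1 := by omega
    rw [this]
    push_cast
    nlinarith
  have hone : ∀ t ∈ prs (yH H) (QH H) 1,
      ((((box3 H).filter (fun p => (t : ℤ) ^ 2 ∣ p.2.1) ∪
      (box3 H).filter (fun p => (t : ℤ) ^ 2 ∣ p.1 * p.2.1 - p.2.2)).card : ℕ) : ℝ) ≤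
      54 * (H : ℝ) ^ 4 * (1 / (t : ℝ) ^ 2) := by
    intro t ht
    obtain ⟨htQ, htp, -, -⟩ := mem_prs.1 ht
    have ht0 : (0 : ℝ) < t := by exact_mod_cast htp.pos
    have htH : (t : ℝ) ^ 2 ≤ H := by
      have h1 : t ^ 2 ≤ H := by
        calc t ^ 2 ≤ QH H ^ 2 := Nat.pow_le_pow_left htQ 2
          _ ≤ QH H ^ 4 := Nat.pow_le_pow_right (by omega) (by norm_num)
          _ ≤ H := hQH
      exact_mod_cast h1
    have h1 : (((box3 H).filter (fun p => (t : ℤ) ^ 2 ∣ p.2.1)).card : ℝ) ≤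
        27 * (H : ℝ) ^ 4 * (1 / (t : ℝ) ^ 2) := by
      have e : (box3 H).filter (fun p => (t : ℤ) ^ 2 ∣ p.2.1) =
          Icc (-(H : ℤ)) H ×ˢ ((Icc (-(H : ℤ)) H).filter fun n => (t : ℤ) ^ 2 ∣ n) ×ˢ
            Icc (-((H ^ 2 : ℕ) : ℤ)) ((H ^ 2 : ℕ) : ℤ) := by
        ext p
        unfold box3
        simp only [mem_filter, mem_product]
        tauto
      rw [e, card_product, card_product]
      have h2 := card_class (M := t ^ 2) (pow_pos htp.pos 2) (a := -(H : ℤ)) (b := H)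
        ((Icc (-(H : ℤ)) H).filter fun n => (t : ℤ) ^ 2 ∣ n) (by
          intro x hx
          rw [mem_filter, mem_Icc] at hx
          exact hx.1) (by
          intro x hx y hy
          rw [mem_filter] at hx hy
          push_cast
          exact dvd_sub hx.2 hy.2)
      have e2 : |((H : ℤ) : ℝ) - ((-(H : ℤ) : ℤ) : ℝ)| = 2 * H := by
        push_cast
        rw [sub_neg_eq_add, abs_of_nonneg (by positivity)]
        ring
      rw [e2] at h2
      have h3 : (((Icc (-(H : ℤ)) H).filter fun n => (t : ℤ) ^ 2 ∣ n).card : ℝ) ≤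
          3 * H / (t : ℝ) ^ 2 := by
        refine h2.trans ?_
        push_cast
        rw [div_add_one (by positivity), div_le_div_iff_of_pos_right (by positivity)]
        linarith
      push_cast
      calc ((Icc (-(H : ℤ)) H).card : ℝ) *
            ((((Icc (-(H : ℤ)) H).filter fun n => (t : ℤ) ^ 2 ∣ n).card : ℝ) *
            ((Icc (-((H : ℤ) ^ 2)) ((H : ℤ) ^ 2)).card : ℝ))
          ≤ (3 * H) * ((3 * H / (t : ℝ) ^ 2) * (3 * (H : ℝ) ^ 2)) := by
            push_cast at hJ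
            exact mul_le_mul hI (mul_le_mul h3 hJ (Nat.cast_nonneg _) (by positivity))
              (by positivity) (by positivity)
        _ = 27 * (H : ℝ) ^ 4 * (1 / (t : ℝ) ^ 2) := by ring
    have h2 : (((box3 H).filter (fun p => (t : ℤ) ^ 2 ∣ p.1 * p.2.1 - p.2.2)).card : ℝ) ≤
        27 * (H : ℝ) ^ 4 * (1 / (t : ℝ) ^ 2) := by
      have e : ((box3 H).filter (fun p => (t : ℤ) ^ 2 ∣ p.1 * p.2.1 - p.2.2)).card =
          ∑ m ∈ Icc (-(H : ℤ)) H, ∑ n ∈ Icc (-(H : ℤ)) H,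
            ((Icc (-((H ^ 2 : ℕ) : ℤ)) ((H ^ 2 : ℕ) : ℤ)).filter fun k =>
              (t : ℤ) ^ 2 ∣ m * n - k).card := by
        unfold box3
        rw [card_filter, sum_product]
        refine Finset.sum_congr rfl fun m _ => ?_
        rw [sum_product]
        refine Finset.sum_congr rfl fun n _ => ?_
        rw [card_filter]
      rw [e]
      push_cast
      have h3 : ∀ m ∈ Icc (-(H : ℤ)) H, ∀ n ∈ Icc (-(H : ℤ)) H,
          ((((Icc (-((H : ℤ) ^ 2)) ((H : ℤ) ^ 2)).filter fun k =>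
              (t : ℤ) ^ 2 ∣ m * n - k).card : ℕ) : ℝ) ≤ 3 * (H : ℝ) ^ 2 / (t : ℝ) ^ 2 := by
        intro m _ n _
        have h4 := card_class (M := t ^ 2) (pow_pos htp.pos 2) (a := -((H : ℤ) ^ 2))
          (b := (H : ℤ) ^ 2)
          ((Icc (-((H : ℤ) ^ 2)) ((H : ℤ) ^ 2)).filter fun k => (t : ℤ) ^ 2 ∣ m * n - k) (by
            intro x hx
            rw [mem_filter, mem_Icc] at hx
            exact hx.1) (by
            intro x hx y hy
            rw [mem_filter] at hx hy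
            push_cast
            have := dvd_sub hy.2 hx.2
            have e3 : m * n - y - (m * n - x) = x - y := by ring
            rwa [e3] at this)
        have e2 : |(((H : ℤ) ^ 2 : ℤ) : ℝ) - ((-((H : ℤ) ^ 2) : ℤ) : ℝ)| = 2 * (H : ℝ) ^ 2 := by
          push_cast
          rw [sub_neg_eq_add, abs_of_nonneg (by positivity)]
          ring
        rw [e2] at h4
        refine h4.trans ?_
        push_cast
        rw [div_add_one (by positivity), div_le_div_iff_of_pos_right (by positivity)]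
        nlinarith
      calc ∑ m ∈ Icc (-(H : ℤ)) H, ∑ n ∈ Icc (-(H : ℤ)) H,
            ((((Icc (-((H : ℤ) ^ 2)) ((H : ℤ) ^ 2)).filter fun k =>
              (t : ℤ) ^ 2 ∣ m * n - k).card : ℕ) : ℝ)
          ≤ ∑ m ∈ Icc (-(H : ℤ)) H, ∑ n ∈ Icc (-(H : ℤ)) H, 3 * (H : ℝ) ^ 2 / (t : ℝ) ^ 2 :=
            Finset.sum_le_sum fun m hm => Finset.sum_le_sum fun n hn => h3 m hm n hn
        _ = ((Icc (-(H : ℤ)) H).card : ℝ) * (((Icc (-(H : ℤ)) H).card : ℝ) *
              (3 * (H : ℝ) ^ 2 / (t : ℝ) ^ 2)) := by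
            rw [Finset.sum_const, Finset.sum_const, nsmul_eq_mul, nsmul_eq_mul]
        _ ≤ (3 * H) * ((3 * H) * (3 * (H : ℝ) ^ 2 / (t : ℝ) ^ 2)) := by
            exact mul_le_mul hI (mul_le_mul_of_nonneg_right hI (by positivity))
              (by positivity) (by positivity)
        _ = 27 * (H : ℝ) ^ 4 * (1 / (t : ℝ) ^ 2) := by ring
    have h3 : ((((box3 H).filter (fun p => (t : ℤ) ^ 2 ∣ p.2.1) ∪
      (box3 H).filter (fun p => (t : ℤ) ^ 2 ∣ p.1 * p.2.1 - p.2.2)).card : ℕ) : ℝ) ≤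
      (((box3 H).filter (fun p => (t : ℤ) ^ 2 ∣ p.2.1)).card : ℝ) +
      (((box3 H).filter (fun p => (t : ℤ) ^ 2 ∣ p.1 * p.2.1 - p.2.2)).card : ℝ) := by
      exact_mod_cast card_union_le _ _
    linarith
  have h1 : (((box3 H).filter (Bad H)).card : ℝ) ≤ ∑ t ∈ prs (yH H) (QH H) 1,
      ((((box3 H).filter (fun p => (t : ℤ) ^ 2 ∣ p.2.1) ∪
      (box3 H).filter (fun p => (t : ℤ) ^ 2 ∣ p.1 * p.2.1 - p.2.2)).card : ℕ) : ℝ) := by
    exact_mod_cast (card_le_card hsub).trans card_biUnion_le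
  refine h1.trans ((Finset.sum_le_sum hone).trans ?_)
  rw [← Finset.mul_sum]
  refine mul_le_mul_of_nonneg_left ?_ (by positivity)
  refine le_trans ?_ (sum_sq_tail (y := yH H) (Q := QH H) (by omega))
  refine Finset.sum_le_sum_of_subset_of_nonneg ?_ fun t _ _ => by positivity
  intro t ht
  rw [mem_prs] at ht
  rw [mem_filter, mem_Icc]
  exact ⟨⟨ht.2.1.pos, ht.1⟩, ht.2.2.1⟩

open Classical in
/-- **Upper bound.** -/
theorem up3 : ∃ C : ℝ, 0 < C ∧ ∀ H : ℕ, 256 ≤ H →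
    (((box3 H).filter fun p => p.2.2 ≠ 0 ∧ ¬ Cert p.1 p.2.1 p.2.2).card : ℝ) ≤
      C * (H : ℝ) ^ 4 * Real.log H ^ (-(4 : ℝ) / 5) := by
  obtain ⟨C1, hC1, h1⟩ := card_Z3
  obtain ⟨C2, hC2, h2⟩ := sum_Wt
  refine ⟨2 * (108 + 2 * C1 * C2), by positivity, ?_⟩
  intro H hH
  obtain ⟨hL, hLL⟩ := logs (by omega : 16 ≤ H)
  have hHr : (256 : ℝ) ≤ H := by exact_mod_cast hH
  set L := Real.log H with hLdef
  have hL0 : 0 < L := by linarith
  -- A
  have hA : (((box3 H).filter (Ap H)).card : ℝ) ≤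
      (108 + 2 * C1 * C2) * (H : ℝ) ^ 4 * L ^ (-(4 : ℝ) / 5) := by
    have h3 : (((box3 H).filter (Ap H)).card : ℝ) ≤ (((box3 H).filter (Bad H)).card : ℝ) +
        ∑ g ∈ (Icc (-(H : ℤ)) H).filter (fun g => g ≠ 0), ((Z3 H g).card : ℝ) := by
      have h4 := (card_le_card (Ap_sub (H := H))).trans (card_union_le _ _)
      have h5 := h4.trans (Nat.add_le_add_left (card_biUnion_le.trans
        (Finset.sum_le_sum fun g _ => card_image_le)) _)
      exact_mod_cast h5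
    have h4 : (((box3 H).filter (Bad H)).card : ℝ) ≤ 108 * (H : ℝ) ^ 4 * L ^ (-(4 : ℝ) / 5) := by
      refine (card_Bad hH).trans ?_
      have hyL' : L < (yH H : ℝ) + 1 := Nat.lt_floor_add_one L
      have hy2 : (2 : ℝ) ≤ yH H := by
        have : 2 ≤ yH H := Nat.le_floor (by push_cast; linarith)
        exact_mod_cast this
      have h5 : 1 / (yH H : ℝ) ≤ 2 * L ^ (-(1 : ℝ)) := by
        rw [Real.rpow_neg_one, ← div_eq_mul_inv, div_le_div_iff₀ (by linarith) hL0]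
        linarith
      have h6 : L ^ (-(1 : ℝ)) ≤ L ^ (-(4 : ℝ) / 5) :=
        Real.rpow_le_rpow_of_exponent_le (by linarith) (by norm_num)
      calc 54 * (H : ℝ) ^ 4 * (1 / (yH H : ℝ)) ≤ 54 * (H : ℝ) ^ 4 * (2 * L ^ (-(4 : ℝ) / 5)) :=
            mul_le_mul_of_nonneg_left (by linarith) (by positivity)
        _ = 108 * (H : ℝ) ^ 4 * L ^ (-(4 : ℝ) / 5) := by ring
    have h5 : ∑ g ∈ (Icc (-(H : ℤ)) H).filter (fun g => g ≠ 0), ((Z3 H g).card : ℝ) ≤
        2 * (C1 * (H : ℝ) ^ 4 * (C2 * L ^ (-(4 : ℝ) / 5))) := by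
      set F : ℕ → ℝ := fun g => C1 * (H : ℝ) ^ 4 * (1 / (g : ℝ) * Wt H g) with hF
      have h6 : ∑ g ∈ (Icc (-(H : ℤ)) H).filter (fun g => g ≠ 0), ((Z3 H g).card : ℝ) ≤
          ∑ g ∈ (Icc (-(H : ℤ)) H).filter (fun g => g ≠ 0), F g.natAbs := by
        refine Finset.sum_le_sum fun g hg => ?_
        rw [mem_filter, mem_Icc, ← abs_le] at hg
        exact h1 H g hH hg.2 hg.1
      have h7 : ∑ g ∈ (Icc (-(H : ℤ)) H).filter (fun g => g ≠ 0), F g.natAbs =
          2 * ∑ g ∈ Icc 1 H, F g := by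
        have hun : (Icc (-(H : ℤ)) H).filter (fun g => g ≠ 0) =
            (Icc 1 H).image (fun g : ℕ => (g : ℤ)) ∪ (Icc 1 H).image (fun g : ℕ => -(g : ℤ)) := by
          ext g
          simp only [mem_filter, mem_Icc, mem_union, mem_image]
          constructor
          · rintro ⟨⟨h8, h9⟩, h10⟩
            rcases lt_or_gt_of_ne h10 with h11 | h11
            · exact Or.inr ⟨g.natAbs, by omega, by omega⟩
            · exact Or.inl ⟨g.natAbs, by omega, by omega⟩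
          · rintro (⟨a, ha, rfl⟩ | ⟨a, ha, rfl⟩)
            · omega
            · omega
        rw [hun, Finset.sum_union, Finset.sum_image, Finset.sum_image]
        · simp only [Int.natAbs_natCast, Int.natAbs_neg]
          ring
        · intro a _ b _ hab
          simpa using hab
        · intro a _ b _ hab
          simpa using hab
        · rw [disjoint_left]
          intro g hg1 hg2
          obtain ⟨a, ha, rfl⟩ := mem_image.1 hg1
          obtain ⟨b, hb, e⟩ := mem_image.1 hg2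
          rw [mem_Icc] at ha hb
          omega
      rw [h7] at h6
      refine h6.trans ?_
      rw [hF, ← Finset.mul_sum]
      exact mul_le_mul_of_nonneg_left (mul_le_mul_of_nonneg_left (h2 H hH) (by positivity))
        (by norm_num)
    calc (((box3 H).filter (Ap H)).card : ℝ) ≤ 108 * (H : ℝ) ^ 4 * L ^ (-(4 : ℝ) / 5) +
          2 * (C1 * (H : ℝ) ^ 4 * (C2 * L ^ (-(4 : ℝ) / 5))) := by linarith
      _ = (108 + 2 * C1 * C2) * (H : ℝ) ^ 4 * L ^ (-(4 : ℝ) / 5) := by ring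
  -- both
  have hsub : (box3 H).filter (fun p => p.2.2 ≠ 0 ∧ ¬ Cert p.1 p.2.1 p.2.2) ⊆
      (box3 H).filter (Ap H) ∪ ((box3 H).filter (Ap H)).image fun p => (p.2.1, p.1, p.2.2) := by
    intro p hp
    rw [mem_filter] at hp
    obtain ⟨hp1, hk, hc⟩ := hp
    rw [mem_union, mem_filter, mem_image]
    rcases nocert_Ap hp1 hk hc with h3 | h3
    · exact Or.inl ⟨hp1, h3⟩
    · right
      refine ⟨(p.2.1, p.1, p.2.2), ?_, rfl⟩
      rw [mem_filter]
      obtain ⟨h4, h5, h6⟩ := mem_box3.1 hp1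
      exact ⟨mem_box3.2 ⟨h5, h4, h6⟩, h3⟩
  have h3 : (((box3 H).filter fun p => p.2.2 ≠ 0 ∧ ¬ Cert p.1 p.2.1 p.2.2).card : ℝ) ≤
      (((box3 H).filter (Ap H)).card : ℝ) + (((box3 H).filter (Ap H)).card : ℝ) := by
    have h4 := (card_le_card hsub).trans ((card_union_le _ _).trans
      (Nat.add_le_add_left card_image_le _))
    exact_mod_cast h4
  refine h3.trans ?_
  have e : 2 * (108 + 2 * C1 * C2) * (H : ℝ) ^ 4 * L ^ (-(4 : ℝ) / 5) =
    (108 + 2 * C1 * C2) * (H : ℝ) ^ 4 * L ^ (-(4 : ℝ) / 5) +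
    (108 + 2 * C1 * C2) * (H : ℝ) ^ 4 * L ^ (-(4 : ℝ) / 5) := by ring
  rw [e]
  exact add_le_add hA hA

end Pool.Agent.H14Q
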