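import Pool.Agent.H14Q.Res
import Pool.Agent.H14Q.Up3
import Pool.Agent.H14Q.Low1
import Pool.Agent.Helper380.VDC.Jb7

/-!
# Lower bound for the number of everywhere locally soluble curves
-/

set_option autoImplicit false

namespace Pool.Agent.H14Q

open Finset

/-- the primes `≡ 3 mod 4` in `(H, z]` -/
def Pr (H z : ℕ) : Finset ℕ := (range (z + 1)).filter fun p => p.Prime ∧ p % 4 = 3 ∧ H < p

theorem card_Pr : ∃ c : ℝ, 0 < c ∧ ∃ H0 : ℕ, ∀ H K : ℕ, H0 ≤ H → 1 ≤ K → K ≤ QH H →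
    c * (H : ℝ) ^ 2 / (K * Real.log H) ≤ ((Pr H (H ^ 2 / K)).card : ℝ) := by
  classical
  obtain ⟨c, z0, hc, hch⟩ := Pool.Agent.Helper380.VDCX.Jb7.cheb3
  obtain ⟨B, hB⟩ := exists_nat_ge (32 / c)
  refine ⟨c / 8, by positivity, max (max 256 z0) ((B + 2) ^ 4), ?_⟩
  intro H K hH hK hKQ
  have hH256 : 256 ≤ H := le_trans (le_trans (le_max_left _ _) (le_max_left _ _)) hH
  have hHz : z0 ≤ H := le_trans (le_trans (le_max_right _ _) (le_max_left _ _)) hH
  have hHB : (B + 2) ^ 4 ≤ H := le_trans (le_max_right _ _) hH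
  obtain ⟨hQ4, hQH, hQL⟩ := Q_facts hH256
  obtain ⟨hL, hLL⟩ := logs (by omega : 16 ≤ H)
  have hQB : B + 2 ≤ QH H := by
    unfold QH
    rw [Nat.le_sqrt, Nat.le_sqrt]
    calc (B + 2) * (B + 2) * ((B + 2) * (B + 2)) = (B + 2) ^ 4 := by ring
      _ ≤ H := hHB
  set Q := QH H with hQ
  set L := Real.log H with hLdef
  set s := Real.sqrt H with hs
  have hHr : (256 : ℝ) ≤ H := by exact_mod_cast hH256
  have hss : s * s = H := Real.mul_self_sqrt (by linarith)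
  have hs0 : 0 < s := Real.sqrt_pos.2 (by linarith)
  have hQr : (Q : ℝ) ^ 2 ≤ s := by
    refine Real.le_sqrt_of_sq_le ?_
    have : ((Q : ℝ) ^ 2) ^ 2 = (Q : ℝ) ^ 4 := by ring
    rw [this]
    exact_mod_cast hQH
  have hQ0 : (4 : ℝ) ≤ Q := by exact_mod_cast hQ4
  have hKr : (1 : ℝ) ≤ K := by exact_mod_cast hK
  have hKQr : (K : ℝ) ≤ Q := by exact_mod_cast hKQ
  have hBQ : 32 / c ≤ Q := by
    have : (B : ℝ) ≤ Q := by exact_mod_cast (by omega : B ≤ Q)
    linarith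
  -- z
  set z := H ^ 2 / K with hz
  have hKH : K ≤ H := by
    have h1 : Q ≤ Q ^ 4 := Nat.le_self_pow (by norm_num) Q
    omega
  have hzH : H ≤ z := by
    rw [hz, Nat.le_div_iff_mul_le (by omega)]
    nlinarith
  have hz2 : (H : ℝ) ^ 2 / (2 * K) ≤ z := by
    have h1 : (H : ℝ) ^ 2 / K < (z : ℝ) + 1 := by
      rw [div_lt_iff₀ (by linarith)]
      have h2 := Nat.lt_div_mul_add (a := H ^ 2) (b := K) (by omega)
      have h3 : H ^ 2 < (z + 1) * K := by
        rw [hz]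
        linarith [Nat.add_mul (H ^ 2 / K) 1 K]
      exact_mod_cast h3
    have h2 : (H : ℝ) ^ 2 / K = 2 * ((H : ℝ) ^ 2 / (2 * K)) := by field_simp
    have h3 : (1 : ℝ) ≤ (H : ℝ) ^ 2 / (2 * K) := by
      rw [le_div_iff₀ (by linarith)]
      have : (K : ℝ) ≤ H := by exact_mod_cast hKH
      nlinarith
    linarith
  have hz0 : (0 : ℝ) < z := by
    have : (H : ℝ) ≤ z := by exact_mod_cast hzH
    linarith
  have hlz : Real.log z ≤ 2 * L := by
    have h1 : (z : ℝ) ≤ (H : ℝ) ^ 2 := by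
      have : z ≤ H ^ 2 := Nat.div_le_self _ _
      exact_mod_cast this
    calc Real.log z ≤ Real.log ((H : ℝ) ^ 2) := Real.log_le_log hz0 h1
      _ = 2 * L := by rw [Real.log_pow, ← hLdef]; norm_num
  have hlz0 : 0 < Real.log z := by
    refine Real.log_pos ?_
    have : (H : ℝ) ≤ z := by exact_mod_cast hzH
    linarith
  have hL2 : L ≤ 2 * s := log_le_sqrt (by omega)
  have h1 := hch z (hHz.trans hzH)
  -- z / log z is large
  have h2 : (H : ℝ) ^ 2 / (2 * K) / (2 * L) ≤ z / Real.log z :=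
    div_le_div₀ hz0.le hz2 hlz0 hlz
  have h3 : (H : ℝ) * Q / 8 ≤ (H : ℝ) ^ 2 / (2 * K) / (2 * L) := by
    rw [div_div, div_le_div_iff₀ (by norm_num) (by positivity)]
    have h4 : K * L ≤ Q * (2 * s) := mul_le_mul hKQr hL2 (by linarith) (by linarith)
    have h5 : (Q : ℝ) * (K * L) ≤ 2 * H := by
      calc (Q : ℝ) * (K * L) ≤ Q * (Q * (2 * s)) := mul_le_mul_of_nonneg_left h4 (by linarith)
        _ = 2 * ((Q : ℝ) ^ 2 * s) := by ring
        _ ≤ 2 * (s * s) := by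
            have := mul_le_mul_of_nonneg_right hQr hs0.le
            linarith
        _ = 2 * H := by rw [hss]
    calc (H : ℝ) * Q * (2 * K * (2 * L)) = 4 * H * (Q * (K * L)) := by ring
      _ ≤ 4 * H * (2 * H) := mul_le_mul_of_nonneg_left h5 (by linarith)
      _ = (H : ℝ) ^ 2 * 8 := by ring
  have h4 : (H : ℝ) + 1 ≤ c / 2 * (z / Real.log z) := by
    have h5 : (H : ℝ) * Q / 8 ≤ z / Real.log z := h3.trans h2
    have h6 : 32 ≤ c * Q := by
      rw [div_le_iff₀ hc] at hBQ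
      linarith
    calc (H : ℝ) + 1 ≤ 2 * H := by linarith
      _ = 32 * (H / 16) := by ring
      _ ≤ (c * Q) * (H / 16) := mul_le_mul_of_nonneg_right h6 (by linarith)
      _ = c / 2 * ((H : ℝ) * Q / 8) := by ring
      _ ≤ c / 2 * (z / Real.log z) := mul_le_mul_of_nonneg_left h5 (by linarith)
  have h5 : (((range (z + 1)).filter (fun p => p.Prime ∧ p % 4 = 3)).card : ℝ) ≤
      (H + 1 : ℝ) + ((Pr H z).card : ℝ) := by
    have hsub : (range (z + 1)).filter (fun p => p.Prime ∧ p % 4 = 3) ⊆ range (H + 1) ∪ Pr H z := by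
      intro p hp
      rw [mem_filter, mem_range] at hp
      unfold Pr
      rw [mem_union, mem_range, mem_filter, mem_range]
      by_cases h : H < p
      · exact Or.inr ⟨hp.1, hp.2.1, hp.2.2, h⟩
      · exact Or.inl (by omega)
    have h6 := (card_le_card hsub).trans (card_union_le _ _)
    rw [card_range] at h6
    exact_mod_cast h6
  have h6 : c * z / Real.log z = c * (z / Real.log z) := by ring
  rw [h6] at h1
  have h7 : c / 2 * (z / Real.log z) ≤ ((Pr H z).card : ℝ) := by linarith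
  refine le_trans ?_ h7
  have h8 := mul_le_mul_of_nonneg_left h2 (by linarith : 0 ≤ c / 2)
  refine le_trans (le_of_eq ?_) h8
  field_simp
  ring

open Classical in
/-- the sign that makes `m` a square modulo `p` -/
noncomputable def sg (p m : ℕ) : ℤ := if IsSquare ((m : ℕ) : ZMod p) then (m : ℤ) else -(m : ℤ)

theorem sg_abs (p m : ℕ) : (sg p m).natAbs = m := by
  unfold sg
  split_ifs
  · exact Int.natAbs_natCast m
  · rw [Int.natAbs_neg]
    exact Int.natAbs_natCast m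

theorem sg_sq {p m : ℕ} (hp : p.Prime) (h4 : p % 4 = 3) : IsSquare ((sg p m : ℤ) : ZMod p) := by
  have : Fact p.Prime := ⟨hp⟩
  unfold sg
  split_ifs with h
  · push_cast
    exact h
  · push_cast
    have h1 : ¬ IsSquare (-1 : ZMod p) := by
      intro h1
      exact ZMod.exists_sq_eq_neg_one_iff.1 h1 h4
    have h2 := quadraticChar_neg_one_iff_not_isSquare.2 h
    have h3 := quadraticChar_neg_one_iff_not_isSquare.2 h1
    have h5 : ((m : ℕ) : ZMod p) ≠ 0 := by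
      intro h0
      rw [h0] at h
      exact h (by simp)
    have h6 : quadraticChar (ZMod p) (-((m : ℕ) : ZMod p)) = 1 := by
      have : -((m : ℕ) : ZMod p) = (-1) * ((m : ℕ) : ZMod p) := by ring
      rw [this, map_mul, h2, h3]
      norm_num
    exact (quadraticChar_one_iff_isSquare (neg_ne_zero.2 h5)).1 h6

/-- the triples constructed are good -/
theorem good_triple {D : Finset ℕ} (hD : ∀ q ∈ D, q.Prime ∧ q ≠ 2) {H p m n : ℕ}
    (hp : p ∈ Pr H (H ^ 2 / ∏ q ∈ D, q)) (hmn : (m, n) ∈ Tp D H) :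
    (sg p m, (n : ℤ), (((∏ q ∈ D, q) * p : ℕ) : ℤ)) ∈ box3 H ∧
      (((∏ q ∈ D, q) * p : ℕ) : ℤ) ≠ 0 ∧ ELS (sg p m) n (((∏ q ∈ D, q) * p : ℕ) : ℤ) ∧
      sg p m * n ≠ 0 ∧ sg p m * n ≠ (((∏ q ∈ D, q) * p : ℕ) : ℤ) := by
  classical
  set K := ∏ q ∈ D, q with hK
  have hK0 : 0 < K := Finset.prod_pos fun q hq => (hD q hq).1.pos
  unfold Pr at hp
  rw [mem_filter, mem_range] at hp
  obtain ⟨hpz, hpp, hp4, hpH⟩ := hp
  unfold Tp at hmn
  rw [mem_filter, mem_product, mem_Icc, mem_Icc] at hmn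
  obtain ⟨⟨⟨hm1, hmH⟩, hn1, hnH⟩, h8, hcop, hsq⟩ := hmn
  simp only at hm1 hmH hn1 hnH h8 hcop hsq
  have habs := sg_abs p m
  have hpm : ¬ (p : ℤ) ∣ sg p m := by
    intro hd
    have h1 : p ∣ (sg p m).natAbs := Int.natCast_dvd.1 hd
    rw [habs] at h1
    have := Nat.le_of_dvd (by omega) h1
    omega
  have hpn : ¬ (p : ℤ) ∣ (n : ℤ) := by
    intro hd
    have h1 : p ∣ n := by exact_mod_cast hd
    have := Nat.le_of_dvd (by omega) h1
    omega
  have hKp : K * p ≤ H ^ 2 := by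
    have h1 : p ≤ H ^ 2 / K := by omega
    calc K * p ≤ K * (H ^ 2 / K) := Nat.mul_le_mul_left _ h1
      _ ≤ H ^ 2 := Nat.mul_div_le _ _
  have hn0 : (n : ℤ) ≠ 0 := by
    have : (0 : ℤ) < n := by exact_mod_cast hn1
    exact this.ne'
  have hm0 : sg p m ≠ 0 := by
    intro h0
    rw [h0] at habs
    simp at habs
    omega
  refine ⟨?_, ?_, ?_, mul_ne_zero hm0 hn0, ?_⟩
  · rw [mem_box3]
    refine ⟨?_, ?_, ?_⟩
    · show |sg p m| ≤ H
      rw [Int.abs_eq_natAbs, habs]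
      exact_mod_cast hmH
    · show |((n : ℕ) : ℤ)| ≤ H
      rw [Int.abs_eq_natAbs, Int.natAbs_natCast]
      exact_mod_cast hnH
    · show |(((K * p : ℕ) : ℕ) : ℤ)| ≤ ((H ^ 2 : ℕ) : ℤ)
      rw [Int.abs_eq_natAbs, Int.natAbs_natCast]
      exact_mod_cast hKp
  · have : K * p ≠ 0 := mul_ne_zero hK0.ne' hpp.ne_zero
    exact_mod_cast this
  · refine els (by exact_mod_cast hn1) (by omega) ?_ ?_
    · intro q hq hq2 hqk
      have h1 : q ∣ K * p := by exact_mod_cast hqk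
      rcases (Nat.Prime.dvd_mul hq).1 h1 with h2 | h2
      · left
        rw [hK, hq.prime.dvd_finsetProd_iff] at h2
        obtain ⟨q', hq', h3⟩ := h2
        have h4 : q = q' := (Nat.prime_dvd_prime_iff_eq hq (hD q' hq').1).1 h3
        subst h4
        obtain ⟨h5, h6⟩ := hsq q hq'
        refine ⟨?_, by push_cast; exact h6⟩
        rw [← ZMod.intCast_zmod_eq_zero_iff_dvd]
        push_cast
        exact h5
      · right
        have h4 : q = p := (Nat.prime_dvd_prime_iff_eq hq hpp).1 h2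
        subst h4
        exact ⟨hpm, sg_sq hpp hp4⟩
    · rintro q hq - ⟨h1, h2⟩
      have h3 : q ∣ m := by
        have := Int.natCast_dvd.1 h1
        rwa [habs] at this
      have h4 : q ∣ n := by exact_mod_cast h2
      have h5 := Nat.dvd_gcd h3 h4
      rw [hcop] at h5
      exact hq.one_lt.ne' (Nat.dvd_one.1 h5)
  · intro h0
    have h1 : (p : ℤ) ∣ sg p m * n := by
      rw [h0]
      push_cast
      exact dvd_mul_left _ _
    rcases (Nat.prime_iff_prime_int.1 hpp).dvd_or_dvd h1 with h2 | h2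
    · exact hpm h2
    · exact hpn h2

open Classical in
/-- **Lower bound.** -/
theorem low3 : ∃ c : ℝ, 0 < c ∧ ∃ H0 : ℕ, ∀ H : ℕ, H0 ≤ H →
    c * (H : ℝ) ^ 4 * Real.log H ^ (-(1 : ℝ) / 2) ≤
      (((box3 H).filter fun p => p.2.2 ≠ 0 ∧ ELS p.1 p.2.1 p.2.2 ∧ p.1 * p.2.1 ≠ 0 ∧
        p.1 * p.2.1 ≠ p.2.2).card : ℝ) := by
  obtain ⟨c1, hc1, H1, hPr⟩ := card_Pr
  obtain ⟨c2, hc2, hsums⟩ := Pool.Agent.Q91.EL.sums 1 one_pos
  obtain ⟨C2, hC2, hM⟩ := mert
  obtain ⟨C3, hC3, hS⟩ := sum_sq_le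
  obtain ⟨c3, hc3⟩ : ∃ c3 : ℝ, c3 = Real.exp (-(1 / 2 * (Real.log (Real.log 3) + C2 + C3 +
    Real.log 16))) := ⟨_, rfl⟩
  have hc30 : 0 < c3 := by rw [hc3]; exact Real.exp_pos _
  refine ⟨c1 / 32 * c2 * c3, by positivity, max H1 (128 ^ 4), ?_⟩
  intro H hH
  have hH1 : H1 ≤ H := le_trans (le_max_left _ _) hH
  have hH2 : 128 ^ 4 ≤ H := le_trans (le_max_right _ _) hH
  have hH256 : 256 ≤ H := le_trans (by norm_num) hH2
  obtain ⟨hQ4, hQH, hQL⟩ := Q_facts hH256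
  obtain ⟨hL, hLL⟩ := logs (by omega : 16 ≤ H)
  have hQ128 : 128 ≤ QH H := by
    unfold QH
    rw [Nat.le_sqrt, Nat.le_sqrt]
    calc 128 * 128 * (128 * 128) = 128 ^ 4 := by norm_num
      _ ≤ H := hH2
  obtain ⟨Q, hQ⟩ : ∃ Q, Q = QH H := ⟨_, rfl⟩
  obtain ⟨L, hLdef⟩ : ∃ L, L = Real.log H := ⟨_, rfl⟩
  obtain ⟨s, hs⟩ : ∃ s, s = Real.sqrt H := ⟨_, rfl⟩
  rw [← hQ] at hQ4 hQH hQL hQ128
  rw [← hLdef] at hQL hL hLL
  rw [← hLdef]
  have hHr : (256 : ℝ) ≤ H := by exact_mod_cast hH256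
  have hL0 : 0 < L := by linarith
  have hss : s * s = H := by rw [hs]; exact Real.mul_self_sqrt (by linarith)
  have hs0 : 0 < s := by rw [hs]; exact Real.sqrt_pos.2 (by linarith)
  have hQr : (Q : ℝ) ^ 2 ≤ s := by
    rw [hs]
    refine Real.le_sqrt_of_sq_le ?_
    have : ((Q : ℝ) ^ 2) ^ 2 = (Q : ℝ) ^ 4 := by ring
    rw [this]
    exact_mod_cast hQH
  have hQ128r : (128 : ℝ) ≤ Q := by exact_mod_cast hQ128
  have hL2 : L ≤ 2 * s := by rw [hLdef, hs]; exact log_le_sqrt (by omega)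
  -- the sets
  set P := prs 2 Q 1 with hP
  have hPp : ∀ t ∈ P, t.Prime ∧ t ≠ 2 ∧ t ≤ Q := by
    intro t ht
    obtain ⟨h1, h2, h3, -⟩ := mem_prs.1 ht
    exact ⟨h2, by omega, h1⟩
  set Ds := P.powerset.filter (fun D => ∏ t ∈ D, t ≤ Q) with hDs
  have hDm : ∀ D ∈ Ds, (∀ q ∈ D, q.Prime ∧ q ≠ 2) ∧ (∀ q ∈ D, q ≤ Q) ∧ ∏ t ∈ D, t ≤ Q := by
    intro D hD
    rw [hDs, mem_filter, mem_powerset] at hD
    exact ⟨fun q hq => ⟨(hPp q (hD.1 hq)).1, (hPp q (hD.1 hq)).2.1⟩,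
      fun q hq => (hPp q (hD.1 hq)).2.2, hD.2⟩
  obtain ⟨I, hI⟩ : ∃ I : Finset (Σ _ : Finset ℕ, ℕ × (ℕ × ℕ)), I =
    Ds.sigma fun D => Pr H (H ^ 2 / ∏ q ∈ D, q) ×ˢ Tp D H := ⟨_, rfl⟩
  obtain ⟨f, hf⟩ : ∃ f : (Σ _ : Finset ℕ, ℕ × (ℕ × ℕ)) → ℤ × ℤ × ℤ, ∀ x, f x =
    (sg x.2.1 x.2.2.1, (x.2.2.2 : ℤ), (((∏ q ∈ x.1, q) * x.2.1 : ℕ) : ℤ)) := ⟨_, fun _ => rfl⟩
  have hcard : I.card ≤ ((box3 H).filter fun p => p.2.2 ≠ 0 ∧ ELS p.1 p.2.1 p.2.2 ∧
      p.1 * p.2.1 ≠ 0 ∧ p.1 * p.2.1 ≠ p.2.2).card := by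
    refine card_le_card_of_injOn f ?_ ?_
    · rintro ⟨D, p, m, n⟩ hx
      rw [mem_coe, hI, mem_sigma, mem_product] at hx
      simp only at hx
      obtain ⟨h1, h2, h3⟩ := hx
      have h4 := good_triple (hDm D h1).1 h2 h3
      rw [mem_coe, mem_filter, hf]
      exact ⟨h4.1, h4.2⟩
    · rintro ⟨D, p, m, n⟩ hx ⟨D', p', m', n'⟩ hx' h
      rw [mem_coe, hI, mem_sigma, mem_product] at hx hx'
      simp only at hx hx'
      obtain ⟨h1, h2, h3⟩ := hx
      obtain ⟨h1', h2', h3'⟩ := hx'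
      rw [hf, hf, Prod.mk.injEq, Prod.mk.injEq] at h
      simp only at h
      obtain ⟨e1, e2, e3⟩ := h
      have e3' : (∏ q ∈ D, q) * p = (∏ q ∈ D', q) * p' := by exact_mod_cast e3
      unfold Pr at h2 h2'
      rw [mem_filter] at h2 h2'
      have hQHlt : Q ≤ H := by
        have : Q ≤ Q ^ 4 := Nat.le_self_pow (by norm_num) Q
        omega
      have hnot : ¬ p ∣ ∏ q ∈ D', q := by
        intro hd
        rw [h2.2.1.prime.dvd_finsetProd_iff] at hd
        obtain ⟨q, hq, hpq⟩ := hd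
        have := (Nat.prime_dvd_prime_iff_eq h2.2.1 ((hDm D' h1').1 q hq).1).1 hpq
        have h5 := (hDm D' h1').2.1 q hq
        have h6 := h2.2.2.2
        omega
      have hpp' : p = p' := by
        have h5 : p ∣ (∏ q ∈ D', q) * p' := by rw [← e3']; exact dvd_mul_left _ _
        rcases (Nat.Prime.dvd_mul h2.2.1).1 h5 with h6 | h6
        · exact absurd h6 hnot
        · exact (Nat.prime_dvd_prime_iff_eq h2.2.1 h2'.2.1).1 h6
      subst hpp'
      have hDD : D = D' := by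
        have h5 : ∏ q ∈ D, q = ∏ q ∈ D', q := Nat.eq_of_mul_eq_mul_right h2.2.1.pos e3'
        rw [← Nat.primeFactors_prod (fun q hq => ((hDm D h1).1 q hq).1),
          ← Nat.primeFactors_prod (fun q hq => ((hDm D' h1').1 q hq).1), h5]
      subst hDD
      have hmm : m = m' := by
        have := congrArg Int.natAbs e1
        rwa [sg_abs, sg_abs] at this
      subst hmm
      have hnn : n = n' := by exact_mod_cast e2
      subst hnn
      rfl
  have hIc : ((I.card : ℕ) : ℝ) = ∑ D ∈ Ds, ((Pr H (H ^ 2 / ∏ q ∈ D, q)).card : ℝ) *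
      ((Tp D H).card : ℝ) := by
    rw [hI, card_sigma]
    push_cast
    refine Finset.sum_congr rfl fun D _ => ?_
    rw [card_product]
    push_cast
    rfl
  have hterm : ∀ D ∈ Ds, c1 / 32 * (H : ℝ) ^ 4 / L * ∏ t ∈ D, eta t ≤
      ((Pr H (H ^ 2 / ∏ q ∈ D, q)).card : ℝ) * ((Tp D H).card : ℝ) := by
    intro D hD
    obtain ⟨h1, h2, h3⟩ := hDm D hD
    obtain ⟨K, hK⟩ : ∃ K, K = ∏ q ∈ D, q := ⟨_, rfl⟩
    have hK0 : 0 < K := by rw [hK]; exact Finset.prod_pos fun q hq => (h1 q hq).1.pos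
    have hKQ : K ≤ Q := by rw [hK]; exact h3
    have hKr : (0 : ℝ) < K := by exact_mod_cast hK0
    have hKQr : (K : ℝ) ≤ Q := by exact_mod_cast hKQ
    have a1 := hPr H K hH1 hK0 (hQ ▸ hKQ)
    rw [← hLdef] at a1
    have a2 := card_Tp h1 (H := H) (by omega) (by
      rw [← hK, ← hLdef]
      have b1 : 2 + L ≤ 4 * s := by
        have : 1 ≤ s := by nlinarith
        linarith
      calc 32 * (K : ℝ) * (2 + L) ≤ 32 * Q * (4 * s) :=
            mul_le_mul (by linarith) b1 (by linarith) (by linarith)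
        _ = 128 * Q * s := by ring
        _ ≤ Q * Q * s := by
            refine mul_le_mul_of_nonneg_right ?_ hs0.le
            exact mul_le_mul_of_nonneg_right hQ128r (by linarith)
        _ = (Q : ℝ) ^ 2 * s := by ring
        _ ≤ s * s := mul_le_mul_of_nonneg_right hQr hs0.le
        _ = H := hss)
    rw [← hK]
    have hpr0 : 0 ≤ ∏ q ∈ D, (((q : ℝ) - 1) / (2 * q)) := Finset.prod_nonneg fun q hq => by
      have : (2 : ℝ) ≤ q := by exact_mod_cast (h1 q hq).1.two_le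
      exact div_nonneg (by linarith) (by linarith)
    have a3 := mul_le_mul a1 a2 (by positivity) (Nat.cast_nonneg _)
    refine le_trans (le_of_eq ?_) a3
    have e : ∏ t ∈ D, eta t = (∏ q ∈ D, (((q : ℝ) - 1) / (2 * q))) / K := by
      have e2 : (K : ℝ) = ∏ q ∈ D, (q : ℝ) := by
        rw [hK]
        push_cast
        rfl
      rw [e2, ← Finset.prod_div_distrib]
      refine Finset.prod_congr rfl fun q hq => ?_
      unfold eta
      rw [div_div]
      congr 1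
      ring
    rw [e]
    generalize ∏ q ∈ D, (((q : ℝ) - 1) / (2 * q)) = W
    field_simp
  have hsum : c1 / 32 * (H : ℝ) ^ 4 / L * ∑ D ∈ Ds, ∏ t ∈ D, eta t ≤ ((I.card : ℕ) : ℝ) := by
    rw [hIc, Finset.mul_sum]
    exact Finset.sum_le_sum hterm
  have h5 := hsums Q P eta (by omega) (fun t ht => (hPp t ht).1) (fun t ht => (hPp t ht).2.2)
    (fun t ht => by
      have := eta_pos (hPp t ht).1
      exact ⟨this.1.le, this.2⟩)
  have h6 : c3 * L ^ ((1 : ℝ) / 2) ≤ Real.exp (∑ t ∈ P, eta t) := by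
    have b1 := hM 2 Q 1 le_rfl (by omega) one_ne_zero
    rw [Nat.primeFactors_one, Finset.sum_empty] at b1
    have b2 := hS P
    have b3 : ∑ t ∈ P, eta t = 1 / 2 * ∑ t ∈ P, (1 : ℝ) / t -
        1 / 2 * ∑ t ∈ P, (1 : ℝ) / (t : ℝ) ^ 2 := by
      rw [Finset.mul_sum, Finset.mul_sum, ← Finset.sum_sub_distrib]
      exact Finset.sum_congr rfl fun t ht => eta_eq (hPp t ht).1
    have b4 : Real.log L - Real.log 16 ≤ Real.log (Real.log Q) := by
      rw [← Real.log_div (by linarith) (by norm_num)]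
      exact Real.log_le_log (by linarith) (by linarith)
    have b5 : ((2 + 1 : ℕ) : ℝ) = 3 := by norm_num
    rw [b5] at b1
    rw [hc3, Real.rpow_def_of_pos hL0, ← Real.exp_add]
    refine Real.exp_le_exp.2 ?_
    rw [b3]
    linarith
  have h7 : c1 / 32 * c2 * c3 * (H : ℝ) ^ 4 * L ^ (-(1 : ℝ) / 2) ≤
      c1 / 32 * (H : ℝ) ^ 4 / L * ∑ D ∈ Ds, ∏ t ∈ D, eta t := by
    have b1 : c2 * (c3 * L ^ ((1 : ℝ) / 2)) ≤ ∑ D ∈ Ds, ∏ t ∈ D, eta t :=
      le_trans (mul_le_mul_of_nonneg_left h6 hc2.le) h5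
    have b2 := mul_le_mul_of_nonneg_left b1 (by positivity : 0 ≤ c1 / 32 * (H : ℝ) ^ 4 / L)
    refine le_trans (le_of_eq ?_) b2
    have b3 : L ^ ((1 : ℝ) / 2) = L * L ^ (-(1 : ℝ) / 2) := by
      have : L * L ^ (-(1 : ℝ) / 2) = L ^ (1 : ℝ) * L ^ (-(1 : ℝ) / 2) := by rw [Real.rpow_one]
      rw [this, ← Real.rpow_add hL0]
      norm_num
    rw [b3]
    field_simp
  have h8 : ((I.card : ℕ) : ℝ) ≤ (((box3 H).filter fun p => p.2.2 ≠ 0 ∧ ELS p.1 p.2.1 p.2.2 ∧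
      p.1 * p.2.1 ≠ 0 ∧ p.1 * p.2.1 ≠ p.2.2).card : ℝ) := by exact_mod_cast hcard
  linarith

end Pool.Agent.H14Q
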