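import Pool.Agent.Q51.EL.LSV
import Pool.Agent.Q91.EL.Sums

/-!
# The large sieve, with two kinds of primes
-/

set_option autoImplicit false

namespace Pool.Agent.H14Q

open Finset

theorem sum_split {P1 P2 : Finset ℕ} {Q1 Q2 : ℕ} (hd : Disjoint P1 P2) (hP1 : ∏ t ∈ P1, t ≤ Q1)
    {η : ℕ → ℝ} (h1 : ∀ t ∈ P1, 0 < η t) (h2 : ∀ t ∈ P2, 0 < η t)
    (hpos : ∀ t ∈ P1, 0 < t) :
    (∏ t ∈ P1, (1 + η t)) * ∑ D ∈ P2.powerset.filter (fun D => ∏ t ∈ D, t ≤ Q2), ∏ t ∈ D, η t ≤
      ∑ D ∈ (P1 ∪ P2).powerset.filter (fun D => ∏ t ∈ D, t ≤ Q1 * Q2), ∏ t ∈ D, η t := by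
  classical
  rw [Finset.prod_one_add, Finset.sum_mul_sum, ← Finset.sum_product']
  have hinj : Set.InjOn (fun x : Finset ℕ × Finset ℕ => x.1 ∪ x.2)
      (P1.powerset ×ˢ P2.powerset.filter (fun D => ∏ t ∈ D, t ≤ Q2) : Finset _) := by
    rintro ⟨A, B⟩ hAB ⟨A', B'⟩ hAB' h
    simp only [Finset.coe_product, Set.mem_prod, Finset.mem_coe, Finset.mem_powerset,
      Finset.mem_filter] at hAB hAB' h
    have e1 : ∀ A B : Finset ℕ, A ⊆ P1 → B ⊆ P2 → (A ∪ B) ∩ P1 = A := by
      intro A B hA hB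
      ext t
      simp only [Finset.mem_inter, Finset.mem_union]
      constructor
      · rintro ⟨h | h, h'⟩
        · exact h
        · exact absurd (hB h) (Finset.disjoint_left.1 hd h')
      · intro h
        exact ⟨Or.inl h, hA h⟩
    have e2 : ∀ A B : Finset ℕ, A ⊆ P1 → B ⊆ P2 → (A ∪ B) ∩ P2 = B := by
      intro A B hA hB
      ext t
      simp only [Finset.mem_inter, Finset.mem_union]
      constructor
      · rintro ⟨h | h, h'⟩
        · exact absurd h' (Finset.disjoint_left.1 hd (hA h))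
        · exact h
      · intro h
        exact ⟨Or.inr h, hB h⟩
    have f1 := e1 A B hAB.1 hAB.2.1
    have f2 := e1 A' B' hAB'.1 hAB'.2.1
    have f3 := e2 A B hAB.1 hAB.2.1
    have f4 := e2 A' B' hAB'.1 hAB'.2.1
    rw [Prod.mk.injEq]
    exact ⟨by rw [← f1, ← f2, h], by rw [← f3, ← f4, h]⟩
  calc ∑ x ∈ P1.powerset ×ˢ P2.powerset.filter (fun D => ∏ t ∈ D, t ≤ Q2),
        (∏ t ∈ x.1, η t) * ∏ t ∈ x.2, η t
      = ∑ x ∈ P1.powerset ×ˢ P2.powerset.filter (fun D => ∏ t ∈ D, t ≤ Q2),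
        ∏ t ∈ x.1 ∪ x.2, η t := by
        refine Finset.sum_congr rfl fun x hx => ?_
        rw [Finset.mem_product, Finset.mem_powerset, Finset.mem_filter, Finset.mem_powerset] at hx
        rw [Finset.prod_union (hd.mono hx.1 hx.2.1)]
    _ = ∑ D ∈ (P1.powerset ×ˢ P2.powerset.filter (fun D => ∏ t ∈ D, t ≤ Q2)).image
        (fun x => x.1 ∪ x.2), ∏ t ∈ D, η t := by
        rw [Finset.sum_image hinj]
    _ ≤ _ := by
        refine Finset.sum_le_sum_of_subset_of_nonneg ?_ ?_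
        · intro D hD
          obtain ⟨x, hx, rfl⟩ := Finset.mem_image.1 hD
          rw [Finset.mem_product, Finset.mem_powerset, Finset.mem_filter, Finset.mem_powerset] at hx
          rw [Finset.mem_filter, Finset.mem_powerset]
          refine ⟨Finset.union_subset_union hx.1 hx.2.1, ?_⟩
          rw [Finset.prod_union (hd.mono hx.1 hx.2.1)]
          refine Nat.mul_le_mul (le_trans ?_ hP1) hx.2.2
          exact Finset.prod_le_prod_of_subset_of_one_le' hx.1 fun t ht _ => hpos t ht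
        · intro D hD _
          rw [Finset.mem_filter, Finset.mem_powerset] at hD
          refine Finset.prod_nonneg fun t ht => ?_
          rcases Finset.mem_union.1 (hD.1 ht) with h | h
          · exact (h1 t h).le
          · exact (h2 t h).le

/-- **The large sieve in dimension `K`.** -/
theorem sieve (K : ℕ) (A : ℝ) (hA : 0 < A) : ∃ C : ℝ, 0 < C ∧
    ∀ (N Q1 Q2 : ℕ) (P1 P2 : Finset ℕ) (b : Fin K → ℤ) (Z : Finset (Fin K → ℤ)) (η : ℕ → ℝ),
      1 ≤ N → 1 ≤ Q2 → (Q1 * Q2) ^ 2 ≤ N → Disjoint P1 P2 → ∏ t ∈ P1, t ≤ Q1 →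
      (∀ t ∈ P1 ∪ P2, t.Prime) → (∀ t ∈ P2, t ≤ Q2) → (∀ t ∈ P1, 0 < η t) →
      (∀ t ∈ P2, 0 < η t ∧ η t ≤ A / t) →
      (∀ z ∈ Z, ∀ i, b i < z i ∧ z i ≤ b i + N) →
      (∀ t ∈ P1 ∪ P2, ∃ E : Finset (Fin K → ZMod t), η t * (t : ℝ) ^ K ≤ (E.card : ℝ) ∧
        ∀ z ∈ Z, (fun i => ((z i : ℤ) : ZMod t)) ∉ E) →
      (Z.card : ℝ) * ∏ t ∈ P1, (1 + η t) ≤ C * (N : ℝ) ^ K * Real.exp (-∑ t ∈ P2, η t) := by
  classical
  obtain ⟨c, hc, hsums⟩ := Pool.Agent.Q91.EL.sums A hA
  refine ⟨12 ^ K / c, by positivity, ?_⟩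
  intro N Q1 Q2 P1 P2 b Z η hN hQ2 hQN hd hP1 hprime hP2 hη1 hη2 hbox hE
  set f : (Fin K → ℤ) → (Fin K → ℕ) := fun z i => (z i - b i).toNat with hf
  have hfz : ∀ z ∈ Z, ∀ i, ((f z i : ℕ) : ℤ) = z i - b i := by
    intro z hz i
    have := hbox z hz i
    exact Int.toNat_of_nonneg (by linarith [this.1])
  have hinj : Set.InjOn f Z := by
    intro z hz z' hz' h
    funext i
    have h1 := hfz z hz i
    have h2 := hfz z' hz' i
    rw [h] at h1
    linarith
  set Z' := Z.image f with hZ'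
  have hcard : Z'.card = Z.card := Finset.card_image_of_injOn hinj
  have hlsv := Pool.Agent.Q51.EL.lsv K N (Q1 * Q2) (fun _ => 0) (P1 ∪ P2) Z'
    (fun t => Z'.image fun z i => ((z i : ℕ) : ZMod t)) η hN hQN hprime ?_ ?_ ?_ ?_
  · have hs := sum_split (Q1 := Q1) (Q2 := Q2) (η := η) hd hP1 hη1 (fun t ht => (hη2 t ht).1)
      (fun t ht => (hprime t (Finset.mem_union_left _ ht)).pos)
    have hs2 := hsums Q2 P2 η hQ2 (fun t ht => hprime t (Finset.mem_union_right _ ht)) hP2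
      (fun t ht => ⟨(hη2 t ht).1.le, (hη2 t ht).2⟩)
    have hprod : 0 < ∏ t ∈ P1, (1 + η t) :=
      Finset.prod_pos fun t ht => by linarith [hη1 t ht]
    rw [hcard] at hlsv
    have h3 : (Z.card : ℝ) * ((∏ t ∈ P1, (1 + η t)) * (c * Real.exp (∑ t ∈ P2, η t))) ≤
        (12 * (N : ℝ)) ^ K := by
      refine le_trans ?_ hlsv
      refine mul_le_mul_of_nonneg_left ?_ (Nat.cast_nonneg _)
      exact le_trans (mul_le_mul_of_nonneg_left hs2 hprod.le) hs
    have h4 : (Z.card : ℝ) * ∏ t ∈ P1, (1 + η t) ≤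
        (12 * (N : ℝ)) ^ K / (c * Real.exp (∑ t ∈ P2, η t)) := by
      rw [le_div_iff₀ (by positivity)]
      linarith
    refine h4.trans (le_of_eq ?_)
    rw [Real.exp_neg, mul_pow]
    field_simp
  · intro z hz i
    obtain ⟨w, hw, rfl⟩ := Finset.mem_image.1 hz
    have h1 := hfz w hw i
    have h2 := hbox w hw i
    rw [Finset.mem_Ioc]
    omega
  · intro t ht
    rcases Finset.mem_union.1 ht with h | h
    · exact hη1 t h
    · exact (hη2 t h).1
  · intro t ht
    have : Fact t.Prime := ⟨hprime t ht⟩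
    obtain ⟨E, hE1, hE2⟩ := hE t ht
    -- shift
    set σ : (Fin K → ZMod t) → (Fin K → ZMod t) := fun w i => w i + ((b i : ℤ) : ZMod t) with hσ
    have hσi : Function.Injective σ := by
      intro w w' h
      funext i
      exact add_right_cancel (congrFun h i)
    have hsub : (Z'.image fun (z : Fin K → ℕ) i => ((z i : ℕ) : ZMod t)).image σ ⊆ univ \ E := by
      intro w hw
      obtain ⟨w1, hw1, rfl⟩ := Finset.mem_image.1 hw
      obtain ⟨z1, hz1, rfl⟩ := Finset.mem_image.1 hw1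
      obtain ⟨z, hz, rfl⟩ := Finset.mem_image.1 hz1
      rw [Finset.mem_sdiff]
      refine ⟨Finset.mem_univ _, ?_⟩
      have : σ (fun i => ((f z i : ℕ) : ZMod t)) = fun i => ((z i : ℤ) : ZMod t) := by
        funext i
        have h1 := hfz z hz i
        simp only [hσ]
        have h2 : ((f z i : ℕ) : ZMod t) = (((f z i : ℕ) : ℤ) : ZMod t) := by push_cast; rfl
        rw [h2, h1]
        push_cast
        ring
      rw [this]
      exact hE2 z hz
    have h1 := Finset.card_le_card hsub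
    rw [Finset.card_image_of_injective _ hσi, Finset.card_sdiff_of_subset (Finset.subset_univ _),
      Finset.card_univ, Fintype.card_fun, ZMod.card, Fintype.card_fin] at h1
    have h2 : E.card ≤ t ^ K := by
      have := Finset.card_le_univ E
      rwa [Fintype.card_fun, ZMod.card, Fintype.card_fin] at this
    have h3 : (((Z'.image fun (z : Fin K → ℕ) i => ((z i : ℕ) : ZMod t)).card : ℕ) : ℝ) ≤
        (t : ℝ) ^ K - E.card := by
      have h4 : ((t ^ K - E.card : ℕ) : ℝ) = (t : ℝ) ^ K - E.card := by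
        rw [Nat.cast_sub h2]
        push_cast
        ring
      rw [← h4]
      exact_mod_cast h1
    refine h3.trans ?_
    linarith
  · intro z hz t _
    exact Finset.mem_image_of_mem _ hz

end Pool.Agent.H14Q
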