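import Pool.Agent.H14Q.Up1

/-!
# Upper bound for the number of pairs without certificate, `k` fixed: conclusion
-/

set_option autoImplicit false

namespace Pool.Agent.H14Q

open Finset

/-- `√(log log H / log H)` -/
noncomputable def rho (H : ℕ) : ℝ := Real.sqrt (Real.log (Real.log H) / Real.log H)

theorem logs {H : ℕ} (hH : 16 ≤ H) : 2.77 ≤ Real.log H ∧ 1 ≤ Real.log (Real.log H) := by
  have h16 : (16 : ℝ) ≤ H := by exact_mod_cast hH
  have h1 : Real.log 16 ≤ Real.log H := Real.log_le_log (by norm_num) h16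
  have h2 : Real.log 16 = 4 * Real.log 2 := by
    rw [show (16 : ℝ) = 2 ^ 4 by norm_num, Real.log_pow]
    norm_num
  have h3 := Real.log_two_gt_d9
  have h4 : 2.77 ≤ Real.log H := by linarith
  refine ⟨h4, ?_⟩
  rw [Real.le_log_iff_exp_le (by linarith)]
  linarith [Real.exp_one_lt_d9]

theorem card_g (k : ℤ) (hk : k ≠ 0) :
    ((Finset.Icc (-(k.natAbs : ℤ)) k.natAbs).filter (fun g => g ∣ k)).card ≤
      2 * k.natAbs.divisors.card := by
  classical
  have hsub : (Finset.Icc (-(k.natAbs : ℤ)) k.natAbs).filter (fun g => g ∣ k) ⊆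
      (k.natAbs.divisors ×ˢ ({1, -1} : Finset ℤ)).image (fun x => (x.1 : ℤ) * x.2) := by
    intro g hg
    rw [Finset.mem_filter] at hg
    rw [Finset.mem_image]
    have hd : g.natAbs ∈ k.natAbs.divisors := by
      rw [Nat.mem_divisors]
      exact ⟨Int.natAbs_dvd_natAbs.2 hg.2, Int.natAbs_ne_zero.2 hk⟩
    rcases Int.natAbs_eq g with h | h
    · refine ⟨(g.natAbs, 1), ?_, by rw [mul_one]; exact h.symm⟩
      rw [Finset.mem_product]
      exact ⟨hd, by simp⟩
    · refine ⟨(g.natAbs, -1), ?_, by rw [mul_neg_one]; exact h.symm⟩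
      rw [Finset.mem_product]
      exact ⟨hd, by simp⟩
  refine (Finset.card_le_card hsub).trans (Finset.card_image_le.trans ?_)
  rw [Finset.card_product]
  have : ({1, -1} : Finset ℤ).card = 2 := by decide
  rw [this]
  omega

open Classical in
theorem up1 : ∃ C : ℝ, 0 < C ∧ ∀ (k : ℤ) (H : ℕ), k ≠ 0 → 16 ≤ H →
    (((box H).filter fun p => ¬ Cert p.1 p.2 k).card : ℝ) ≤
      C * (k.natAbs.divisors.card : ℝ) ^ 2 * (H : ℝ) ^ 2 * rho H := by
  obtain ⟨C1, hC1, hZ⟩ := card_Zg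
  obtain ⟨C2, hC2, hM⟩ := mert
  obtain ⟨C3, hC3, hS⟩ := sum_sq_le
  refine ⟨2 * C1 * Real.exp ((C2 + C3 + Real.log 8) / 2) + 18, by positivity, ?_⟩
  intro k H hk hH
  obtain ⟨hL, hLL⟩ := logs hH
  have hHr : (16 : ℝ) ≤ H := by exact_mod_cast hH
  set L := Real.log H with hLdef
  set y := ⌊L⌋₊ with hy
  set Q := Nat.sqrt H with hQ
  have hy2 : 2 ≤ y := Nat.le_floor (by push_cast; linarith)
  have hyL : (y : ℝ) ≤ L := Nat.floor_le (by linarith)
  have hyL' : L < y + 1 := Nat.lt_floor_add_one L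
  have hQ4 : 4 ≤ Q := by
    rw [hQ, Nat.le_sqrt]
    omega
  have hQH : Q * Q ≤ H := Nat.sqrt_le H
  have hQlog : L ≤ 4 * Real.log Q := by
    have h1 : H < (Q + 1) * (Q + 1) := Nat.lt_succ_sqrt H
    have h2 : (H : ℝ) ≤ (Q : ℝ) ^ 4 := by
      have h3 : H ≤ Q ^ 4 := by
        have h4 : Q + 1 ≤ Q * Q := by nlinarith
        calc H ≤ (Q + 1) * (Q + 1) := h1.le
          _ ≤ (Q * Q) * (Q * Q) := Nat.mul_le_mul h4 h4
          _ = Q ^ 4 := by ring
      exact_mod_cast h3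
    rw [hLdef]
    calc Real.log H ≤ Real.log ((Q : ℝ) ^ 4) := Real.log_le_log (by linarith) h2
      _ = 4 * Real.log Q := by rw [Real.log_pow]; norm_num
  have hlQ : 0 < Real.log Q := by linarith
  -- log log
  have h1 : Real.log L - Real.log 4 ≤ Real.log (Real.log Q) := by
    rw [← Real.log_div (by linarith) (by norm_num)]
    exact Real.log_le_log (by linarith) (by linarith)
  have h2 : Real.log (Real.log ((y + 1 : ℕ) : ℝ)) ≤ Real.log 2 + Real.log (Real.log L) := by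
    rw [← Real.log_mul (by norm_num) (by linarith)]
    have h3 : (0 : ℝ) < Real.log ((y + 1 : ℕ) : ℝ) := by
      refine Real.log_pos ?_
      push_cast
      have : (2 : ℝ) ≤ y := by exact_mod_cast hy2
      linarith
    refine Real.log_le_log h3 ?_
    have h4 : ((y + 1 : ℕ) : ℝ) ≤ L ^ 2 := by
      push_cast
      nlinarith
    calc Real.log ((y + 1 : ℕ) : ℝ) ≤ Real.log (L ^ 2) := Real.log_le_log (by positivity) h4
      _ = 2 * Real.log L := by rw [Real.log_pow]; norm_num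
  have h3 := hM y Q k.natAbs hy2 (by omega) (Int.natAbs_ne_zero.2 hk)
  set Sk := ∑ t ∈ k.natAbs.primeFactors, (1 : ℝ) / t with hSk
  have hSk0 : 0 ≤ Sk := Finset.sum_nonneg fun t _ => by positivity
  set Se := ∑ t ∈ prs y Q k.natAbs, eta t with hSe
  have h4 : Se = 1 / 2 * ∑ t ∈ prs y Q k.natAbs, (1 : ℝ) / t -
      1 / 2 * ∑ t ∈ prs y Q k.natAbs, (1 : ℝ) / (t : ℝ) ^ 2 := by
    rw [hSe, Finset.mul_sum, Finset.mul_sum, ← Finset.sum_sub_distrib]
    exact Finset.sum_congr rfl fun t ht => eta_eq (mem_prs.1 ht).2.1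
  have h5 := hS (prs y Q k.natAbs)
  have hlog8 : Real.log 8 = Real.log 4 + Real.log 2 := by
    rw [← Real.log_mul (by norm_num) (by norm_num)]
    norm_num
  have h6 : -Se ≤ (C2 + C3 + Real.log 8) / 2 + Sk +
      1 / 2 * (Real.log (Real.log L) - Real.log L) := by
    rw [h4, hlog8]
    linarith
  have hexp : Real.exp (-Se) ≤ Real.exp ((C2 + C3 + Real.log 8) / 2) *
      (k.natAbs.divisors.card : ℝ) * rho H := by
    have h7 : Real.exp (1 / 2 * (Real.log (Real.log L) - Real.log L)) = rho H := by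
      unfold rho
      rw [← hLdef, Real.sqrt_eq_rpow, Real.rpow_def_of_pos (div_pos (by linarith) (by linarith)),
        Real.log_div (by linarith) (by linarith)]
      congr 1
      ring
    refine (Real.exp_le_exp.2 h6).trans ?_
    rw [Real.exp_add, Real.exp_add, h7]
    refine mul_le_mul_of_nonneg_right ?_ (Real.sqrt_nonneg _)
    exact mul_le_mul_of_nonneg_left (exp_factors (Int.natAbs_ne_zero.2 hk)) (Real.exp_pos _).le
  -- bad
  have hbad : ∀ t ∈ prs y Q k.natAbs,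
      (((box H).filter fun p => (t : ℤ) ^ 2 ∣ p.1 * p.2 - k).card : ℝ) ≤
        9 * (H : ℝ) ^ 2 * (1 / (t : ℝ) ^ 2) := by
    intro t ht
    obtain ⟨htQ, htp, -, htk⟩ := mem_prs.1 ht
    have h7 := card_bad (H := H) htp (le_trans (Nat.mul_le_mul htQ htQ) hQH)
      (k := k) (by rwa [← Int.natCast_dvd] at htk)
    refine h7.trans (le_of_eq ?_)
    ring
  have hrho0 : 0 ≤ rho H := Real.sqrt_nonneg _
  have hrho : 1 / (y : ℝ) ≤ 2 * rho H := by
    have hy0 : (0 : ℝ) < y := by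
      have : (2 : ℝ) ≤ y := by exact_mod_cast hy2
      linarith
    have h7 : 1 / (y : ℝ) ≤ 2 * (1 / L) := by
      rw [← mul_div_assoc, mul_one, div_le_div_iff₀ hy0 (by linarith)]
      linarith
    refine h7.trans ?_
    refine mul_le_mul_of_nonneg_left ?_ (by norm_num)
    unfold rho
    rw [← hLdef]
    refine Real.le_sqrt_of_sq_le ?_
    rw [div_pow, one_pow, div_le_div_iff₀ (by positivity) (by linarith)]
    nlinarith
  have htau : (1 : ℝ) ≤ (k.natAbs.divisors.card : ℝ) := by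
    have : 0 < k.natAbs.divisors.card := Finset.card_pos.2
      ⟨1, Nat.one_mem_divisors.2 (Int.natAbs_ne_zero.2 hk)⟩
    exact_mod_cast this
  set τ := (k.natAbs.divisors.card : ℝ) with hτ
  set G := (Finset.Icc (-(k.natAbs : ℤ)) k.natAbs).filter (fun g => g ∣ k) with hG
  have hsub : (box H).filter (fun p => ¬ Cert p.1 p.2 k) ⊆
      ((prs y Q k.natAbs).biUnion fun t => (box H).filter fun p => (t : ℤ) ^ 2 ∣ p.1 * p.2 - k) ∪
      (G.biUnion fun g => Zg H y Q k g) := by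
    intro p hp
    rw [Finset.mem_filter] at hp
    rw [Finset.mem_union, Finset.mem_biUnion, Finset.mem_biUnion]
    rcases nocert_sub (y := y) (Q := Q) hk hp.1 hp.2 with ⟨t, ht, h7⟩ | ⟨g, hg, h7⟩
    · exact Or.inl ⟨t, ht, Finset.mem_filter.2 ⟨hp.1, h7⟩⟩
    · exact Or.inr ⟨g, hg, h7⟩
  have hc1 : (((box H).filter (fun p => ¬ Cert p.1 p.2 k)).card : ℝ) ≤
      ∑ t ∈ prs y Q k.natAbs, (((box H).filter fun p => (t : ℤ) ^ 2 ∣ p.1 * p.2 - k).card : ℝ) +
      ∑ g ∈ G, ((Zg H y Q k g).card : ℝ) := by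
    have h7 := (Finset.card_le_card hsub).trans (Finset.card_union_le _ _)
    have h8 := h7.trans (Nat.add_le_add Finset.card_biUnion_le Finset.card_biUnion_le)
    exact_mod_cast h8
  have hc2 : ∑ t ∈ prs y Q k.natAbs,
      (((box H).filter fun p => (t : ℤ) ^ 2 ∣ p.1 * p.2 - k).card : ℝ) ≤
      18 * (H : ℝ) ^ 2 * rho H := by
    refine (Finset.sum_le_sum hbad).trans ?_
    rw [← Finset.mul_sum]
    have h7 : ∑ t ∈ prs y Q k.natAbs, (1 : ℝ) / (t : ℝ) ^ 2 ≤ 1 / y := by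
      refine le_trans ?_ (sum_sq_tail (y := y) (Q := Q) (by omega))
      refine Finset.sum_le_sum_of_subset_of_nonneg ?_ fun t _ _ => by positivity
      intro t ht
      rw [mem_prs] at ht
      rw [Finset.mem_filter, Finset.mem_Icc]
      exact ⟨⟨ht.2.1.pos, ht.1⟩, ht.2.2.1⟩
    calc 9 * (H : ℝ) ^ 2 * ∑ t ∈ prs y Q k.natAbs, (1 : ℝ) / (t : ℝ) ^ 2
        ≤ 9 * (H : ℝ) ^ 2 * (2 * rho H) :=
          mul_le_mul_of_nonneg_left (h7.trans hrho) (by positivity)
      _ = 18 * (H : ℝ) ^ 2 * rho H := by ring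
  have hc3 : ∑ g ∈ G, ((Zg H y Q k g).card : ℝ) ≤
      2 * τ * (C1 * (H : ℝ) ^ 2 * (Real.exp ((C2 + C3 + Real.log 8) / 2) * τ * rho H)) := by
    have h7 : ∀ g ∈ G, ((Zg H y Q k g).card : ℝ) ≤
        C1 * (H : ℝ) ^ 2 * (Real.exp ((C2 + C3 + Real.log 8) / 2) * τ * rho H) := by
      intro g hg
      refine (hZ H y Q k g (by omega) hy2 (by omega) hQH hk (Finset.mem_filter.1 hg).2).trans ?_
      exact mul_le_mul_of_nonneg_left hexp (by positivity)
    refine (Finset.sum_le_card_nsmul _ _ _ h7).trans ?_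
    rw [nsmul_eq_mul]
    refine mul_le_mul_of_nonneg_right ?_ (by positivity)
    have h8 : G.card ≤ 2 * k.natAbs.divisors.card := card_g k hk
    rw [hτ]
    exact_mod_cast h8
  have hτ2 : 1 ≤ τ ^ 2 := one_le_pow₀ htau
  have hlast : 18 * (H : ℝ) ^ 2 * rho H ≤ 18 * (H : ℝ) ^ 2 * rho H * τ ^ 2 :=
    le_mul_of_one_le_right (by positivity) hτ2
  calc (((box H).filter (fun p => ¬ Cert p.1 p.2 k)).card : ℝ)
      ≤ 18 * (H : ℝ) ^ 2 * rho H * τ ^ 2 + 2 * τ * (C1 * (H : ℝ) ^ 2 *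
        (Real.exp ((C2 + C3 + Real.log 8) / 2) * τ * rho H)) := by linarith
    _ = _ := by ring

end Pool.Agent.H14Q
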