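import Pool.Agent.H14Q.Ep
import Pool.Agent.H14Q.Cube3
import Pool.Agent.H14Q.Up1b

/-!
# The sum of the weights over `g`
-/

set_option autoImplicit false

namespace Pool.Agent.H14Q

open Finset

/-- the parameters -/
noncomputable def yH (H : ℕ) : ℕ := ⌊Real.log H⌋₊
noncomputable def QH (H : ℕ) : ℕ := Nat.sqrt (Nat.sqrt H)
noncomputable def xH (H : ℕ) : ℝ := Real.log H ^ ((19 : ℝ) / 20)
noncomputable def zH (H : ℕ) : ℕ := ⌊Real.exp (xH H)⌋₊

/-- the odd primes up to `z` dividing `g` -/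
def pz (z g : ℕ) : Finset ℕ := g.primeFactors.filter fun t => 3 ≤ t ∧ t ≤ z

/-- the primes used at `g` -/
noncomputable def P1 (H g : ℕ) : Finset ℕ := if ∏ t ∈ pz (zH H) g, t ≤ QH H then pz (zH H) g else ∅

/-- the weight -/
noncomputable def Wt (H g : ℕ) : ℝ :=
  Real.exp (-∑ t ∈ prs (yH H) (QH H) g, eta3 t) / ∏ t ∈ P1 H g, (1 + eta1 t)

theorem Q_facts {H : ℕ} (hH : 256 ≤ H) : 4 ≤ QH H ∧ QH H ^ 4 ≤ H ∧
    Real.log H ≤ 16 * Real.log (QH H) := by
  unfold QH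
  set A := Nat.sqrt H with hA
  set B := Nat.sqrt A with hB
  have hA16 : 16 ≤ A := by rw [hA, Nat.le_sqrt]; omega
  have hB4 : 4 ≤ B := by rw [hB, Nat.le_sqrt]; omega
  have h1 : B * B ≤ A := Nat.sqrt_le A
  have h2 : A * A ≤ H := Nat.sqrt_le H
  have h3 : A < (B + 1) * (B + 1) := Nat.lt_succ_sqrt A
  have h4 : H < (A + 1) * (A + 1) := Nat.lt_succ_sqrt H
  refine ⟨hB4, ?_, ?_⟩
  · calc B ^ 4 = (B * B) * (B * B) := by ring
      _ ≤ A * A := Nat.mul_le_mul h1 h1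
      _ ≤ H := h2
  · have h5 : H ≤ A ^ 4 := by
      have h6 : A + 1 ≤ A * A := by nlinarith
      calc H ≤ (A + 1) * (A + 1) := h4.le
        _ ≤ (A * A) * (A * A) := Nat.mul_le_mul h6 h6
        _ = A ^ 4 := by ring
    have h6 : A ≤ B ^ 4 := by
      have h6 : B + 1 ≤ B * B := by nlinarith
      calc A ≤ (B + 1) * (B + 1) := h3.le
        _ ≤ (B * B) * (B * B) := Nat.mul_le_mul h6 h6
        _ = B ^ 4 := by ring
    have h7 : H ≤ B ^ 16 := by
      calc H ≤ A ^ 4 := h5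
        _ ≤ (B ^ 4) ^ 4 := Nat.pow_le_pow_left h6 4
        _ = B ^ 16 := by ring
    have h8 : (H : ℝ) ≤ (B : ℝ) ^ 16 := by exact_mod_cast h7
    calc Real.log H ≤ Real.log ((B : ℝ) ^ 16) :=
          Real.log_le_log (by exact_mod_cast (by omega : 0 < H)) h8
      _ = 16 * Real.log B := by rw [Real.log_pow]; norm_num

theorem x_facts {H : ℕ} (hH : 256 ≤ H) : 2 ≤ xH H ∧ xH H ≤ Real.log H := by
  obtain ⟨hL, hLL⟩ := logs (by omega : 16 ≤ H)
  unfold xH
  refine ⟨?_, ?_⟩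
  · have h1 : Real.log 2 ≤ (19 : ℝ) / 20 * Real.log (Real.log H) := by
      linarith [Real.log_two_lt_d9]
    rw [Real.rpow_def_of_pos (by linarith), mul_comm]
    rw [Real.log_le_iff_le_exp (by norm_num)] at h1
    exact h1
  · calc Real.log H ^ ((19 : ℝ) / 20) ≤ Real.log H ^ (1 : ℝ) :=
          Real.rpow_le_rpow_of_exponent_le (by linarith) (by norm_num)
      _ = Real.log H := Real.rpow_one _

theorem z_facts {H : ℕ} (hH : 256 ≤ H) : 3 ≤ zH H ∧ zH H ≤ H ∧ (zH H : ℝ) ≤ Real.exp (xH H) ∧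
    xH H / 2 ≤ Real.log (zH H) := by
  obtain ⟨hx2, hxL⟩ := x_facts hH
  have hHr : (0 : ℝ) < H := by exact_mod_cast (by omega : 0 < H)
  have h1 : (zH H : ℝ) ≤ Real.exp (xH H) := Nat.floor_le (Real.exp_pos _).le
  have h2 : Real.exp (xH H) < zH H + 1 := Nat.lt_floor_add_one _
  have h3 : 4 ≤ Real.exp (xH H) := by
    have h4 : Real.exp 2 ≤ Real.exp (xH H) := Real.exp_le_exp.2 hx2
    have h5 : Real.exp 2 = Real.exp 1 ^ 2 := by rw [← Real.exp_nat_mul]; norm_num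
    have h6 := Real.exp_one_gt_d9
    nlinarith
  have hz3 : 3 ≤ zH H := by
    have : (3 : ℝ) < (zH H : ℝ) + 1 := by linarith
    have h7 : (3 : ℝ) ≤ (zH H : ℝ) := by
      have : 3 ≤ zH H := Nat.le_floor (by push_cast; linarith)
      exact_mod_cast this
    exact_mod_cast h7
  refine ⟨hz3, ?_, h1, ?_⟩
  · have : (zH H : ℝ) ≤ H := by
      refine h1.trans ?_
      calc Real.exp (xH H) ≤ Real.exp (Real.log H) := Real.exp_le_exp.2 hxL
        _ = H := Real.exp_log hHr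
    exact_mod_cast this
  · have h4 : Real.exp (xH H) / 2 ≤ zH H := by linarith
    have h5 : Real.log (Real.exp (xH H) / 2) ≤ Real.log (zH H) :=
      Real.log_le_log (by positivity) h4
    rw [Real.log_div (Real.exp_pos _).ne' (by norm_num), Real.log_exp] at h5
    linarith [Real.log_two_lt_d9]

/-- first multiplicative function -/
noncomputable def a1 (z : ℕ) (t : ℕ) : ℝ :=
  Real.exp (3 / 2 * (1 / (t : ℝ))) * (if 3 ≤ t ∧ t ≤ z then 2 * (t : ℝ) / (3 * (t : ℝ) - 1) else (1 : ℝ))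

/-- second multiplicative function -/
noncomputable def a2 (z : ℕ) (κ : ℝ) (t : ℕ) : ℝ :=
  Real.exp (3 / 2 * (1 / (t : ℝ))) * (if 3 ≤ t ∧ t ≤ z then (t : ℝ) ^ κ else (1 : ℝ))

theorem a1_nonneg (z t : ℕ) : 0 ≤ a1 z t := by
  unfold a1
  refine mul_nonneg (Real.exp_pos _).le ?_
  split_ifs with h
  · have : (3 : ℝ) ≤ t := by exact_mod_cast h.1
    exact div_nonneg (by linarith) (by linarith)
  · exact zero_le_one

theorem a2_nonneg (z : ℕ) (κ : ℝ) (t : ℕ) : 0 ≤ a2 z κ t := by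
  unfold a2
  refine mul_nonneg (Real.exp_pos _).le ?_
  split_ifs
  · positivity
  · exact zero_le_one

theorem mf_a1 (z g : ℕ) : mf (a1 z) g =
    1 / (g : ℝ) * Real.exp (3 / 2 * ∑ t ∈ g.primeFactors, 1 / (t : ℝ)) *
      ∏ t ∈ pz z g, (2 * (t : ℝ) / (3 * t - 1)) := by
  unfold mf a1 pz
  rw [Finset.prod_mul_distrib, ← Real.exp_sum, ← Finset.mul_sum, Finset.prod_filter, mul_assoc]

theorem mf_a2 (z : ℕ) (κ : ℝ) (g : ℕ) : mf (a2 z κ) g =
    1 / (g : ℝ) * Real.exp (3 / 2 * ∑ t ∈ g.primeFactors, 1 / (t : ℝ)) *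
      ((∏ t ∈ pz z g, t : ℕ) : ℝ) ^ κ := by
  unfold mf a2 pz
  rw [Finset.prod_mul_distrib, ← Real.exp_sum, ← Finset.mul_sum, ← Finset.prod_filter, mul_assoc]
  congr 2
  push_cast
  rw [Real.finsetProd_rpow _ _ fun t _ => Nat.cast_nonneg t]

/-- the bound for one `g` -/
theorem wt_le : ∃ C : ℝ, 0 < C ∧ ∀ H g : ℕ, 256 ≤ H → g ≠ 0 →
    1 / (g : ℝ) * Wt H g ≤ C * (Real.log (Real.log H)) ^ ((3 : ℝ) / 2) *
      Real.log H ^ (-(3 : ℝ) / 2) * (mf (a1 (zH H)) g +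
        Real.exp (-(Real.log (QH H) / xH H)) * mf (a2 (zH H) (1 / xH H)) g) := by
  obtain ⟨C2, hC2, hM⟩ := mert
  obtain ⟨C3, hC3, hS⟩ := sum_sq_le
  refine ⟨Real.exp (2 * C3 + 3 / 2 * C2 + 3 / 2 * Real.log 32), Real.exp_pos _, ?_⟩
  intro H g hH hg
  obtain ⟨hQ4, hQH, hQL⟩ := Q_facts hH
  obtain ⟨hx2, hxL⟩ := x_facts hH
  obtain ⟨hL, hLL⟩ := logs (by omega : 16 ≤ H)
  have hgr : (0 : ℝ) < g := by exact_mod_cast Nat.pos_of_ne_zero hg
  set L := Real.log H with hLdef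
  set ℓ := Real.log L with hℓ
  -- y
  have hy2 : 2 ≤ yH H := Nat.le_floor (by push_cast; linarith)
  have hyL : (yH H : ℝ) ≤ L := Nat.floor_le (by linarith)
  have h2 : Real.log (Real.log ((yH H + 1 : ℕ) : ℝ)) ≤ Real.log 2 + Real.log ℓ := by
    rw [← Real.log_mul (by norm_num) (by linarith)]
    have h3 : (0 : ℝ) < Real.log ((yH H + 1 : ℕ) : ℝ) := by
      refine Real.log_pos ?_
      push_cast
      have : (2 : ℝ) ≤ yH H := by exact_mod_cast hy2
      linarith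
    refine Real.log_le_log h3 ?_
    have h4 : ((yH H + 1 : ℕ) : ℝ) ≤ L ^ 2 := by
      push_cast
      nlinarith
    calc Real.log ((yH H + 1 : ℕ) : ℝ) ≤ Real.log (L ^ 2) := Real.log_le_log (by positivity) h4
      _ = 2 * Real.log L := by rw [Real.log_pow]; norm_num
  have h1 : ℓ - Real.log 16 ≤ Real.log (Real.log (QH H)) := by
    rw [hℓ, ← Real.log_div (by linarith) (by norm_num)]
    exact Real.log_le_log (by linarith) (by linarith)
  have hlog32 : Real.log 32 = Real.log 16 + Real.log 2 := by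
    rw [← Real.log_mul (by norm_num) (by norm_num)]
    norm_num
  have h3 := hM (yH H) (QH H) g hy2 (by omega) hg
  set Sg := ∑ t ∈ g.primeFactors, (1 : ℝ) / t with hSg
  have h4 : 3 / 2 * ∑ t ∈ prs (yH H) (QH H) g, (1 : ℝ) / t -
      2 * ∑ t ∈ prs (yH H) (QH H) g, (1 : ℝ) / (t : ℝ) ^ 2 ≤
      ∑ t ∈ prs (yH H) (QH H) g, eta3 t := by
    rw [Finset.mul_sum, Finset.mul_sum, ← Finset.sum_sub_distrib]
    exact Finset.sum_le_sum fun t ht => (eta3_pos (mem_prs.1 ht).2.1).2.2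
  have h5 := hS (prs (yH H) (QH H) g)
  have h6 : -∑ t ∈ prs (yH H) (QH H) g, eta3 t ≤ (2 * C3 + 3 / 2 * C2 + 3 / 2 * Real.log 32) +
      (3 / 2 * Real.log ℓ) + (-(3 : ℝ) / 2 * ℓ) + 3 / 2 * Sg := by
    rw [hlog32]
    linarith
  have hexp : Real.exp (-∑ t ∈ prs (yH H) (QH H) g, eta3 t) ≤
      Real.exp (2 * C3 + 3 / 2 * C2 + 3 / 2 * Real.log 32) * ℓ ^ ((3 : ℝ) / 2) *
        L ^ (-(3 : ℝ) / 2) * Real.exp (3 / 2 * Sg) := by
    refine (Real.exp_le_exp.2 h6).trans (le_of_eq ?_)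
    rw [Real.exp_add, Real.exp_add, Real.exp_add, Real.rpow_def_of_pos (by linarith : 0 < ℓ),
      Real.rpow_def_of_pos (by linarith : 0 < L)]
    congr 3
    · congr 1
      ring
    · ring
  set K := Real.exp (2 * C3 + 3 / 2 * C2 + 3 / 2 * Real.log 32) * ℓ ^ ((3 : ℝ) / 2) *
        L ^ (-(3 : ℝ) / 2) with hK
  have hK0 : 0 ≤ K := by positivity
  -- the two cases
  have hm1 : 0 ≤ mf (a1 (zH H)) g := mul_nonneg (by positivity)
    (Finset.prod_nonneg fun t _ => a1_nonneg _ t)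
  have hm2 : 0 ≤ Real.exp (-(Real.log (QH H) / xH H)) * mf (a2 (zH H) (1 / xH H)) g :=
    mul_nonneg (Real.exp_pos _).le (mul_nonneg (by positivity)
      (Finset.prod_nonneg fun t _ => a2_nonneg _ _ t))
  unfold Wt P1
  split_ifs with hc
  · have e1 : ∏ t ∈ pz (zH H) g, (2 * (t : ℝ) / (3 * t - 1)) =
        (∏ t ∈ pz (zH H) g, (1 + eta1 t))⁻¹ := by
      rw [← Finset.prod_inv_distrib]
      refine Finset.prod_congr rfl fun t ht => ?_
      have ht3 : (3 : ℝ) ≤ t := by exact_mod_cast (mem_filter.1 ht).2.1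
      unfold eta1
      refine (inv_eq_of_mul_eq_one_left ?_).symm
      have h7 : (3 : ℝ) * t - 1 ≠ 0 := by linarith
      have h8 : (2 : ℝ) * t ≠ 0 := by linarith
      have h9 : 1 + ((t : ℝ) - 1) / (2 * t) = (3 * t - 1) / (2 * t) := by
        rw [eq_div_iff h8, add_mul, div_mul_cancel₀ _ h8]
        ring
      rw [h9, div_mul_div_comm, mul_comm, div_self (mul_ne_zero h7 h8)]
    have hpp : 0 ≤ (∏ t ∈ pz (zH H) g, (1 + eta1 t))⁻¹ := by
      rw [← e1]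
      refine Finset.prod_nonneg fun t ht => ?_
      have ht3 : (3 : ℝ) ≤ t := by exact_mod_cast (mem_filter.1 ht).2.1
      exact div_nonneg (by linarith) (by linarith)
    calc 1 / (g : ℝ) * (Real.exp (-∑ t ∈ prs (yH H) (QH H) g, eta3 t) /
          ∏ t ∈ pz (zH H) g, (1 + eta1 t))
        ≤ 1 / (g : ℝ) * (K * Real.exp (3 / 2 * Sg) * (∏ t ∈ pz (zH H) g, (1 + eta1 t))⁻¹) := by
          rw [div_eq_mul_inv]
          exact mul_le_mul_of_nonneg_left (mul_le_mul_of_nonneg_right hexp hpp) (by positivity)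
      _ = K * mf (a1 (zH H)) g := by
          rw [mf_a1, e1]
          ring
      _ ≤ K * (mf (a1 (zH H)) g +
          Real.exp (-(Real.log (QH H) / xH H)) * mf (a2 (zH H) (1 / xH H)) g) :=
          mul_le_mul_of_nonneg_left (by linarith) hK0
  · rw [Finset.prod_empty, div_one]
    have hQr : (4 : ℝ) ≤ QH H := by exact_mod_cast hQ4
    have h7 : 1 ≤ Real.exp (-(Real.log (QH H) / xH H)) *
        ((∏ t ∈ pz (zH H) g, t : ℕ) : ℝ) ^ (1 / xH H) := by
      have h8 : (QH H : ℝ) ≤ ((∏ t ∈ pz (zH H) g, t : ℕ) : ℝ) := by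
        exact_mod_cast (not_le.1 hc).le
      have h9 : (QH H : ℝ) ^ (1 / xH H) ≤ ((∏ t ∈ pz (zH H) g, t : ℕ) : ℝ) ^ (1 / xH H) :=
        Real.rpow_le_rpow (by linarith) h8 (by positivity)
      have h10 : Real.exp (-(Real.log (QH H) / xH H)) * (QH H : ℝ) ^ (1 / xH H) = 1 := by
        rw [Real.rpow_def_of_pos (by linarith), ← Real.exp_add, mul_one_div, neg_add_cancel,
          Real.exp_zero]
      calc (1 : ℝ) = Real.exp (-(Real.log (QH H) / xH H)) * (QH H : ℝ) ^ (1 / xH H) := h10.symm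
        _ ≤ _ := mul_le_mul_of_nonneg_left h9 (Real.exp_pos _).le
    calc 1 / (g : ℝ) * Real.exp (-∑ t ∈ prs (yH H) (QH H) g, eta3 t)
        ≤ 1 / (g : ℝ) * (K * Real.exp (3 / 2 * Sg)) :=
          mul_le_mul_of_nonneg_left hexp (by positivity)
      _ ≤ 1 / (g : ℝ) * (K * Real.exp (3 / 2 * Sg)) * (Real.exp (-(Real.log (QH H) / xH H)) *
        ((∏ t ∈ pz (zH H) g, t : ℕ) : ℝ) ^ (1 / xH H)) :=
          le_mul_of_one_le_right (by positivity) h7
      _ = K * (Real.exp (-(Real.log (QH H) / xH H)) * mf (a2 (zH H) (1 / xH H)) g) := by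
          rw [mf_a2]
          ring
      _ ≤ K * (mf (a1 (zH H)) g +
          Real.exp (-(Real.log (QH H) / xH H)) * mf (a2 (zH H) (1 / xH H)) g) :=
          mul_le_mul_of_nonneg_left (by linarith) hK0

end Pool.Agent.H14Q
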