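import Pool.Agent.H14Q.SumW

/-!
# The sum of the weights over `g`: conclusion
-/

set_option autoImplicit false

namespace Pool.Agent.H14Q

open Finset

theorem a1_le {z t : ℕ} (ht : t.Prime) : a1 z t / ((t : ℝ) - 1) ≤
    1 / t + 8 * (1 / (t : ℝ) ^ 2) - (if 3 ≤ t ∧ t ≤ z then 1 / 3 * (1 / (t : ℝ)) else 0) := by
  unfold a1
  split_ifs with h
  · have := aux_b ht h.1
    linarith
  · rw [mul_one, sub_zero]
    exact aux_a ht

theorem a2_le {z t : ℕ} {x : ℝ} (hx : 0 < x) (hz : (z : ℝ) ≤ Real.exp x) (ht : t.Prime) :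
    a2 z (1 / x) t / ((t : ℝ) - 1) ≤ 3 * (1 / t + 8 * (1 / (t : ℝ) ^ 2)) := by
  have h2 : (2 : ℝ) ≤ t := by exact_mod_cast ht.two_le
  have h1 : (0 : ℝ) < (t : ℝ) - 1 := by linarith
  have h3 := aux_a ht
  have h4 : (if 3 ≤ t ∧ t ≤ z then (t : ℝ) ^ (1 / x) else (1 : ℝ)) ≤ 3 := by
    split_ifs with h
    · have h5 : (t : ℝ) ≤ Real.exp x := le_trans (by exact_mod_cast h.2) hz
      calc (t : ℝ) ^ (1 / x) ≤ (Real.exp x) ^ (1 / x) :=
            Real.rpow_le_rpow (by linarith) h5 (by positivity)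
        _ = Real.exp 1 := by
            rw [← Real.exp_mul, mul_one_div, div_self hx.ne']
        _ ≤ 3 := by linarith [Real.exp_one_lt_d9]
    · norm_num
  unfold a2
  rw [mul_comm, mul_div_assoc]
  have h6 : 0 ≤ Real.exp (3 / 2 * (1 / (t : ℝ))) / ((t : ℝ) - 1) := by positivity
  calc (if 3 ≤ t ∧ t ≤ z then (t : ℝ) ^ (1 / x) else (1 : ℝ)) *
        (Real.exp (3 / 2 * (1 / (t : ℝ))) / ((t : ℝ) - 1))
      ≤ 3 * (Real.exp (3 / 2 * (1 / (t : ℝ))) / ((t : ℝ) - 1)) := mul_le_mul_of_nonneg_right h4 h6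
    _ ≤ 3 * (1 / t + 8 * (1 / (t : ℝ) ^ 2)) := mul_le_mul_of_nonneg_left h3 (by norm_num)

theorem sum_a1 : ∃ C : ℝ, 0 < C ∧ ∀ H : ℕ, 256 ≤ H →
    ∑ g ∈ Icc 1 H, mf (a1 (zH H)) g ≤ C * Real.log H ^ ((41 : ℝ) / 60) := by
  obtain ⟨C, hC⟩ := Pool.Agent.Erdos456.Mert.mertens_inv
  have hC0 : 0 ≤ C := (abs_nonneg _).trans (hC 3 le_rfl)
  obtain ⟨C3, hC3, hS⟩ := sum_sq_le
  refine ⟨Real.exp (C + 8 * C3 + 1 / 3 * (C + 1 / 2 + Real.log 2)), Real.exp_pos _, ?_⟩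
  intro H hH
  obtain ⟨hx2, hxL⟩ := x_facts hH
  obtain ⟨hz3, hzH, hzx, hzl⟩ := z_facts hH
  obtain ⟨hL, hLL⟩ := logs (by omega : 16 ≤ H)
  refine (ep (a1_nonneg (zH H)) H).trans ?_
  have h1 : ∑ t ∈ (Icc 1 H).filter Nat.Prime, a1 (zH H) t / ((t : ℝ) - 1) ≤
      ∑ t ∈ (Icc 1 H).filter Nat.Prime, (1 : ℝ) / t +
      8 * ∑ t ∈ (Icc 1 H).filter Nat.Prime, (1 : ℝ) / (t : ℝ) ^ 2 -
      1 / 3 * ∑ t ∈ ((Icc 1 H).filter Nat.Prime).filter (fun t => 3 ≤ t ∧ t ≤ zH H), (1 : ℝ) / t := by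
    rw [Finset.mul_sum, Finset.mul_sum, Finset.sum_filter (p := fun t => 3 ≤ t ∧ t ≤ zH H),
      ← Finset.sum_add_distrib, ← Finset.sum_sub_distrib]
    exact Finset.sum_le_sum fun t ht => a1_le (mem_filter.1 ht).2
  have h2 := (abs_le.1 (hC H (by omega))).2
  have h3 := (abs_le.1 (hC (zH H) hz3)).1
  have h4 : ∑ p ∈ (Icc 1 (zH H)).filter Nat.Prime, (1 : ℝ) / p ≤ 1 / 2 +
      ∑ t ∈ ((Icc 1 H).filter Nat.Prime).filter (fun t => 3 ≤ t ∧ t ≤ zH H), (1 : ℝ) / t := by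
    have hsub : (Icc 1 (zH H)).filter Nat.Prime ⊆
        insert 2 (((Icc 1 H).filter Nat.Prime).filter (fun t => 3 ≤ t ∧ t ≤ zH H)) := by
      intro t ht
      rw [mem_filter, mem_Icc] at ht
      rw [mem_insert, mem_filter, mem_filter, mem_Icc]
      have := ht.2.two_le
      by_cases h : t = 2
      · exact Or.inl h
      · exact Or.inr ⟨⟨⟨ht.1.1, ht.1.2.trans hzH⟩, ht.2⟩, by omega, ht.1.2⟩
    refine (Finset.sum_le_sum_of_subset_of_nonneg hsub fun _ _ _ => by positivity).trans ?_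
    rw [Finset.sum_insert (by
      rw [mem_filter]
      omega)]
    push_cast
    linarith
  have h5 := hS ((Icc 1 H).filter Nat.Prime)
  have h6 : (19 : ℝ) / 20 * Real.log (Real.log H) - Real.log 2 ≤ Real.log (Real.log (zH H)) := by
    have e : (19 : ℝ) / 20 * Real.log (Real.log H) = Real.log (xH H) := by
      unfold xH
      rw [Real.log_rpow (by linarith)]
    rw [e, ← Real.log_div (by linarith) (by norm_num)]
    exact Real.log_le_log (by linarith) hzl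
  rw [Real.rpow_def_of_pos (by linarith : 0 < Real.log H), ← Real.exp_add]
  refine Real.exp_le_exp.2 (h1.trans ?_)
  linarith

theorem sum_a2 : ∃ C : ℝ, 0 < C ∧ ∀ H : ℕ, 256 ≤ H →
    ∑ g ∈ Icc 1 H, mf (a2 (zH H) (1 / xH H)) g ≤ C * Real.log H ^ 3 := by
  obtain ⟨C, hC⟩ := Pool.Agent.Erdos456.Mert.mertens_inv
  obtain ⟨C3, hC3, hS⟩ := sum_sq_le
  refine ⟨Real.exp (3 * C + 24 * C3), Real.exp_pos _, ?_⟩
  intro H hH
  obtain ⟨hx2, hxL⟩ := x_facts hH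
  obtain ⟨hz3, hzH, hzx, hzl⟩ := z_facts hH
  obtain ⟨hL, hLL⟩ := logs (by omega : 16 ≤ H)
  refine (ep (a2_nonneg (zH H) (1 / xH H)) H).trans ?_
  have h1 : ∑ t ∈ (Icc 1 H).filter Nat.Prime, a2 (zH H) (1 / xH H) t / ((t : ℝ) - 1) ≤
      3 * (∑ t ∈ (Icc 1 H).filter Nat.Prime, (1 : ℝ) / t +
      8 * ∑ t ∈ (Icc 1 H).filter Nat.Prime, (1 : ℝ) / (t : ℝ) ^ 2) := by
    rw [Finset.mul_sum, ← Finset.sum_add_distrib, Finset.mul_sum]
    exact Finset.sum_le_sum fun t ht => a2_le (by linarith) hzx (mem_filter.1 ht).2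
  have h2 := (abs_le.1 (hC H (by omega))).2
  have h5 := hS ((Icc 1 H).filter Nat.Prime)
  have e : Real.log H ^ 3 = Real.exp (3 * Real.log (Real.log H)) := by
    rw [mul_comm, Real.exp_mul, Real.exp_log (by linarith)]
    norm_cast
  rw [e, ← Real.exp_add]
  refine Real.exp_le_exp.2 (h1.trans ?_)
  linarith

/-- elementary bounds -/
theorem elem {L : ℝ} (hL : 1 ≤ L) :
    Real.log L ^ ((3 : ℝ) / 2) ≤ 90 ^ ((3 : ℝ) / 2) * L ^ ((1 : ℝ) / 60) ∧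
    L ^ (5 : ℝ) * Real.exp (-(L ^ ((1 : ℝ) / 20) / 16)) ≤ 16 ^ 100 * (Nat.factorial 100 : ℝ) := by
  have hL0 : 0 < L := by linarith
  constructor
  · have h1 := Real.log_le_rpow_div hL0.le (by norm_num : (0 : ℝ) < 1 / 90)
    have h2 : Real.log L ≤ 90 * L ^ ((1 : ℝ) / 90) := by
      refine h1.trans (le_of_eq ?_)
      field_simp
    calc Real.log L ^ ((3 : ℝ) / 2) ≤ (90 * L ^ ((1 : ℝ) / 90)) ^ ((3 : ℝ) / 2) :=
          Real.rpow_le_rpow (Real.log_nonneg hL) h2 (by norm_num)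
      _ = 90 ^ ((3 : ℝ) / 2) * L ^ ((1 : ℝ) / 60) := by
          rw [Real.mul_rpow (by norm_num) (by positivity), ← Real.rpow_mul hL0.le]
          norm_num
  · set w := L ^ ((1 : ℝ) / 20) with hw
    have hw0 : 0 ≤ w := by positivity
    have h1 : L ^ (5 : ℝ) = w ^ 100 := by
      rw [hw, ← Real.rpow_natCast, ← Real.rpow_mul hL0.le]
      norm_num
    have h2 := Real.pow_div_factorial_le_exp (x := w / 16) (by positivity) 100
    rw [div_pow, div_div, div_le_iff₀ (by positivity)] at h2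
    rw [h1, Real.exp_neg, ← div_eq_mul_inv, div_le_iff₀ (Real.exp_pos _)]
    linarith

/-- **The sum of the weights.** -/
theorem sum_Wt : ∃ C : ℝ, 0 < C ∧ ∀ H : ℕ, 256 ≤ H →
    ∑ g ∈ Icc 1 H, 1 / (g : ℝ) * Wt H g ≤ C * Real.log H ^ (-(4 : ℝ) / 5) := by
  obtain ⟨C1, hC1, h1⟩ := wt_le
  obtain ⟨C2, hC2, h2⟩ := sum_a1
  obtain ⟨C3, hC3, h3⟩ := sum_a2
  refine ⟨C1 * 90 ^ ((3 : ℝ) / 2) * (C2 + C3 * (16 ^ 100 * (Nat.factorial 100 : ℝ))), by positivity, ?_⟩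
  intro H hH
  obtain ⟨hQ4, hQH, hQL⟩ := Q_facts hH
  obtain ⟨hx2, hxL⟩ := x_facts hH
  obtain ⟨hL, hLL⟩ := logs (by omega : 16 ≤ H)
  set L := Real.log H with hLdef
  have hL0 : 0 < L := by linarith
  obtain ⟨e1, e2⟩ := elem (by linarith : 1 ≤ L)
  have h4 : ∑ g ∈ Icc 1 H, 1 / (g : ℝ) * Wt H g ≤
      C1 * (Real.log L) ^ ((3 : ℝ) / 2) * L ^ (-(3 : ℝ) / 2) *
        (∑ g ∈ Icc 1 H, mf (a1 (zH H)) g + Real.exp (-(Real.log (QH H) / xH H)) *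
          ∑ g ∈ Icc 1 H, mf (a2 (zH H) (1 / xH H)) g) := by
    rw [Finset.mul_sum, ← Finset.sum_add_distrib, Finset.mul_sum]
    refine Finset.sum_le_sum fun g hg => ?_
    rw [mem_Icc] at hg
    exact h1 H g hH (by omega)
  have h5 : Real.exp (-(Real.log (QH H) / xH H)) ≤ Real.exp (-(L ^ ((1 : ℝ) / 20) / 16)) := by
    refine Real.exp_le_exp.2 (neg_le_neg ?_)
    rw [div_le_div_iff₀ (by norm_num) (by linarith)]
    have : L ^ ((1 : ℝ) / 20) * xH H = L := by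
      unfold xH
      rw [← hLdef, ← Real.rpow_add hL0]
      norm_num
    rw [this]
    linarith
  set E := Real.exp (-(L ^ ((1 : ℝ) / 20) / 16)) with hE
  have hE0 : 0 < E := Real.exp_pos _
  have h6 : ∑ g ∈ Icc 1 H, mf (a1 (zH H)) g + Real.exp (-(Real.log (QH H) / xH H)) *
      ∑ g ∈ Icc 1 H, mf (a2 (zH H) (1 / xH H)) g ≤
      C2 * L ^ ((41 : ℝ) / 60) + E * (C3 * L ^ 3) := by
    have h7 : 0 ≤ ∑ g ∈ Icc 1 H, mf (a2 (zH H) (1 / xH H)) g :=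
      Finset.sum_nonneg fun g _ => mul_nonneg (by positivity)
        (Finset.prod_nonneg fun t _ => a2_nonneg _ _ t)
    exact add_le_add (h2 H hH) (mul_le_mul h5 (h3 H hH) h7 hE0.le)
  -- E L^3 ≤ K L^(-2)
  set K : ℝ := 16 ^ 100 * (Nat.factorial 100 : ℝ) with hK
  have h8 : E * L ^ 3 ≤ K * L ^ (-(2 : ℝ)) := by
    have e3 : L ^ 3 = L ^ (5 : ℝ) * L ^ (-(2 : ℝ)) := by
      rw [← Real.rpow_add hL0, ← Real.rpow_natCast]
      norm_num
    rw [e3]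
    calc E * (L ^ (5 : ℝ) * L ^ (-(2 : ℝ))) = (L ^ (5 : ℝ) * E) * L ^ (-(2 : ℝ)) := by ring
      _ ≤ K * L ^ (-(2 : ℝ)) := mul_le_mul_of_nonneg_right e2 (by positivity)
  have h9 : L ^ (-(2 : ℝ)) ≤ L ^ ((41 : ℝ) / 60) :=
    Real.rpow_le_rpow_of_exponent_le (by linarith) (by norm_num)
  have h10 : C2 * L ^ ((41 : ℝ) / 60) + E * (C3 * L ^ 3) ≤ (C2 + C3 * K) * L ^ ((41 : ℝ) / 60) := by
    have : E * (C3 * L ^ 3) ≤ C3 * K * L ^ ((41 : ℝ) / 60) := by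
      calc E * (C3 * L ^ 3) = C3 * (E * L ^ 3) := by ring
        _ ≤ C3 * (K * L ^ (-(2 : ℝ))) := mul_le_mul_of_nonneg_left h8 hC3.le
        _ ≤ C3 * (K * L ^ ((41 : ℝ) / 60)) :=
            mul_le_mul_of_nonneg_left (mul_le_mul_of_nonneg_left h9 (by positivity)) hC3.le
        _ = C3 * K * L ^ ((41 : ℝ) / 60) := by ring
    linarith
  have hKp : 0 < K := by positivity
  calc ∑ g ∈ Icc 1 H, 1 / (g : ℝ) * Wt H g
      ≤ C1 * (Real.log L) ^ ((3 : ℝ) / 2) * L ^ (-(3 : ℝ) / 2) *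
        ((C2 + C3 * K) * L ^ ((41 : ℝ) / 60)) := by
        refine h4.trans (mul_le_mul_of_nonneg_left (h6.trans h10) ?_)
        have : 0 ≤ Real.log L := by linarith
        positivity
    _ ≤ C1 * (90 ^ ((3 : ℝ) / 2) * L ^ ((1 : ℝ) / 60)) * L ^ (-(3 : ℝ) / 2) *
        ((C2 + C3 * K) * L ^ ((41 : ℝ) / 60)) := by
        refine mul_le_mul_of_nonneg_right ?_ (by positivity)
        refine mul_le_mul_of_nonneg_right ?_ (by positivity)
        exact mul_le_mul_of_nonneg_left e1 hC1.le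
    _ = C1 * 90 ^ ((3 : ℝ) / 2) * (C2 + C3 * K) *
        (L ^ ((1 : ℝ) / 60) * L ^ (-(3 : ℝ) / 2) * L ^ ((41 : ℝ) / 60)) := by ring
    _ = C1 * 90 ^ ((3 : ℝ) / 2) * (C2 + C3 * K) * L ^ (-(4 : ℝ) / 5) := by
        rw [← Real.rpow_add hL0, ← Real.rpow_add hL0]
        norm_num

end Pool.Agent.H14Q
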