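import Pool.Agent.H14Q.Sieve
import Pool.Agent.H14Q.Desc
import Pool.Agent.H14Q.Mert

/-!
# Upper bound for the number of pairs without certificate, `k` fixed
-/

set_option autoImplicit false

namespace Pool.Agent.H14Q

open Finset

/-- half of the nonzero elements are not squares -/
theorem card_nonsq {t : ℕ} [ht : Fact t.Prime] (h2 : t ≠ 2) {g : ZMod t} (hg : g ≠ 0) :
    t ≤ 2 * (univ.filter fun b : ZMod t => ¬ IsSquare (g * b)).card + 1 := by
  classical
  have e1 : (univ.filter fun b : ZMod t => ¬ IsSquare (g * b)).card =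
      (univ.filter fun b : ZMod t => ¬ IsSquare b).card := by
    refine Finset.card_bij (fun b _ => g * b) ?_ ?_ ?_
    · intro b hb
      rw [Finset.mem_filter] at hb ⊢
      exact ⟨Finset.mem_univ _, hb.2⟩
    · intro b _ b' _ h
      exact mul_left_cancel₀ hg h
    · intro b hb
      rw [Finset.mem_filter] at hb
      refine ⟨g⁻¹ * b, ?_, ?_⟩
      · rw [Finset.mem_filter]
        refine ⟨Finset.mem_univ _, ?_⟩
        rw [← mul_assoc, mul_inv_cancel₀ hg, one_mul]
        exact hb.2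
      · rw [← mul_assoc, mul_inv_cancel₀ hg, one_mul]
  rw [e1]
  have hchar : ringChar (ZMod t) ≠ 2 := by
    rw [ZMod.ringChar_zmod_n]
    exact h2
  have h0 : ∑ b : ZMod t, quadraticChar (ZMod t) b = 0 := quadraticChar_sum_zero hchar
  have h1 : ∀ b : ZMod t, (1 : ℤ) - quadraticChar (ZMod t) b ≤
      (if ¬ IsSquare b then 2 else 0) + (if b = 0 then 1 else 0) := by
    intro b
    by_cases hb : b = 0
    · subst hb
      rw [if_pos rfl, if_neg (by simp)]
      simp
    · rw [if_neg hb]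
      by_cases hs : IsSquare b
      · rw [if_neg (by simpa using hs), (quadraticChar_one_iff_isSquare hb).2 hs]
        norm_num
      · rw [if_pos hs, quadraticChar_neg_one_iff_not_isSquare.2 hs]
        norm_num
  have h3 := Finset.sum_le_sum fun b (_ : b ∈ (univ : Finset (ZMod t))) => h1 b
  rw [Finset.sum_sub_distrib, h0, Finset.sum_add_distrib, Finset.sum_ite_eq', ← Finset.sum_filter]
    at h3
  simp only [Finset.sum_const, Finset.card_univ, ZMod.card, nsmul_eq_mul, mul_one, sub_zero,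
    Finset.mem_univ, if_true] at h3
  omega

theorem card_E {t : ℕ} [ht : Fact t.Prime] (h2 : t ≠ 2) {k g : ZMod t} (hg : g ≠ 0) :
    t ≤ 2 * (univ.filter fun w : Fin 2 → ZMod t => w 0 * w 1 = k ∧ ¬ IsSquare (g * w 1)).card + 1 := by
  classical
  refine (card_nonsq h2 hg).trans ?_
  have : (univ.filter fun b : ZMod t => ¬ IsSquare (g * b)).card ≤
      (univ.filter fun w : Fin 2 → ZMod t => w 0 * w 1 = k ∧ ¬ IsSquare (g * w 1)).card := by
    refine Finset.card_le_card_of_injOn (fun b => ![k / b, b]) ?_ ?_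
    · intro b hb
      rw [Finset.coe_filter, Set.mem_ofPred_eq] at hb
      rw [Finset.coe_filter, Set.mem_ofPred_eq]
      refine ⟨Finset.mem_univ _, ?_, ?_⟩
      · have hb0 : b ≠ 0 := by
          rintro rfl
          exact hb.2 (by simp)
        simp only [Matrix.cons_val_zero, Matrix.cons_val_one]
        exact div_mul_cancel₀ _ hb0
      · simpa using hb.2
    · intro b _ b' _ h
      have := congrFun h 1
      simpa using this
  omega

/-- elements of an interval in one residue class -/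
theorem card_class {M : ℕ} (hM : 0 < M) {a b : ℤ} (S : Finset ℤ) (hS : ∀ x ∈ S, a ≤ x ∧ x ≤ b)
    (hc : ∀ x ∈ S, ∀ y ∈ S, (M : ℤ) ∣ x - y) : (S.card : ℝ) ≤ |(b : ℝ) - a| / M + 1 := by
  have hM' : (0 : ℤ) < M := by exact_mod_cast hM
  have hMr : (0 : ℝ) < M := by exact_mod_cast hM
  rcases S.eq_empty_or_nonempty with rfl | ⟨x0, hx0⟩
  · simp
    positivity
  have hab : a ≤ b := (hS x0 hx0).1.trans (hS x0 hx0).2
  have h1 : S.card ≤ (Finset.Icc (0 : ℤ) ((b - a) / M)).card := by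
    refine Finset.card_le_card_of_injOn (fun x => (x - a) / M) ?_ ?_
    · intro x hx
      rw [Finset.coe_Icc, Set.mem_Icc]
      obtain ⟨h1, h2⟩ := hS x hx
      exact ⟨Int.ediv_nonneg (by linarith) hM'.le, Int.ediv_le_ediv hM' (by linarith)⟩
    · intro x hx y hy hxy
      obtain ⟨c, hc'⟩ := hc x hx y hy
      have e : x - a = (y - a) + M * c := by linarith
      simp only at hxy
      rw [e, Int.add_mul_ediv_left _ _ hM'.ne'] at hxy
      have hc0 : c = 0 := by linarith
      rw [hc0] at hc'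
      linarith
  rw [Int.card_Icc] at h1
  have h2 : (0 : ℤ) ≤ (b - a) / M := Int.ediv_nonneg (by linarith) hM'.le
  have h3 : (((b - a) / M : ℤ) : ℝ) ≤ ((b : ℝ) - a) / M := by
    rw [le_div_iff₀ hMr]
    have := Int.ediv_mul_le (b - a) hM'.ne'
    exact_mod_cast this
  have h4 : ((((b - a) / M + 1 - 0).toNat : ℕ) : ℝ) = (((b - a) / M : ℤ) : ℝ) + 1 := by
    have : ((((b - a) / M + 1 - 0).toNat : ℕ) : ℤ) = (b - a) / M + 1 := by
      rw [Int.toNat_of_nonneg (by omega)]
      ring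
    exact_mod_cast this
  have h5 : (S.card : ℝ) ≤ ((((b - a) / M + 1 - 0).toNat : ℕ) : ℝ) := by exact_mod_cast h1
  rw [h4] at h5
  have h6 : ((b : ℝ) - a) / M ≤ |(b : ℝ) - a| / M :=
    div_le_div_of_nonneg_right (le_abs_self _) hMr.le
  linarith

/-- the square of side `2 H + 1` -/
noncomputable def box (H : ℕ) : Finset (ℤ × ℤ) := Finset.Icc (-(H : ℤ)) H ×ˢ Finset.Icc (-(H : ℤ)) H

theorem mem_box {H : ℕ} {p : ℤ × ℤ} : p ∈ box H ↔ |p.1| ≤ H ∧ |p.2| ≤ H := by
  unfold box
  rw [Finset.mem_product, Finset.mem_Icc, Finset.mem_Icc, abs_le, abs_le]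

open Classical in
/-- the pairs with `t² ∣ m n - k`, `t ∤ k` -/
theorem card_bad {H t : ℕ} (ht : t.Prime) (htH : t * t ≤ H) {k : ℤ} (hk : ¬ (t : ℤ) ∣ k) :
    (((box H).filter fun p => (t : ℤ) ^ 2 ∣ p.1 * p.2 - k).card : ℝ) ≤ 9 * (H : ℝ) ^ 2 / (t : ℝ) ^ 2 := by
  have ht0 : 0 < t := ht.pos
  have htr : (0 : ℝ) < t := by exact_mod_cast ht0
  have hH1 : 1 ≤ H := le_trans (by nlinarith) htH
  have hHr : (1 : ℝ) ≤ H := by exact_mod_cast hH1
  have htH' : (t : ℝ) ^ 2 ≤ H := by rw [sq]; exact_mod_cast htH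
  have h1 : ((box H).filter fun p => (t : ℤ) ^ 2 ∣ p.1 * p.2 - k).card ≤
      ∑ n ∈ Finset.Icc (-(H : ℤ)) H,
        ((Finset.Icc (-(H : ℤ)) H).filter fun m => (t : ℤ) ^ 2 ∣ m * n - k).card := by
    unfold box
    rw [Finset.card_filter, Finset.sum_product_right]
    refine Finset.sum_le_sum fun n _ => ?_
    rw [Finset.card_filter]
  have h2 : ∀ n ∈ Finset.Icc (-(H : ℤ)) H,
      ((((Finset.Icc (-(H : ℤ)) H).filter fun m => (t : ℤ) ^ 2 ∣ m * n - k).card : ℕ) : ℝ) ≤
        3 * H / (t : ℝ) ^ 2 := by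
    intro n _
    by_cases hn : (t : ℤ) ∣ n
    · have : ((Finset.Icc (-(H : ℤ)) H).filter fun m => (t : ℤ) ^ 2 ∣ m * n - k) = ∅ := by
        rw [Finset.filter_eq_empty_iff]
        intro m _ hd
        apply hk
        have h3 : (t : ℤ) ∣ m * n - k := (dvd_pow_self _ two_ne_zero).trans hd
        have h4 : (t : ℤ) ∣ m * n := hn.mul_left m
        have := dvd_sub h4 h3
        rwa [sub_sub_cancel] at this
      rw [this, Finset.card_empty]
      push_cast
      positivity
    · have hcop : IsCoprime ((t : ℤ) ^ 2) n :=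
        IsCoprime.pow_left (((Nat.prime_iff_prime_int.1 ht).coprime_iff_not_dvd).2 hn)
      have h3 := card_class (M := t ^ 2) (by positivity) (a := -(H : ℤ)) (b := H)
        ((Finset.Icc (-(H : ℤ)) H).filter fun m => (t : ℤ) ^ 2 ∣ m * n - k) (by
          intro x hx
          rw [Finset.mem_filter, Finset.mem_Icc] at hx
          exact hx.1) (by
          intro x hx y hy
          rw [Finset.mem_filter] at hx hy
          have h4 := dvd_sub hx.2 hy.2
          have e : x * n - k - (y * n - k) = (x - y) * n := by ring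
          rw [e] at h4
          push_cast
          exact hcop.dvd_of_dvd_mul_right h4)
      refine h3.trans ?_
      have e : |((H : ℤ) : ℝ) - ((-(H : ℤ) : ℤ) : ℝ)| = 2 * H := by
        push_cast
        rw [sub_neg_eq_add, abs_of_nonneg (by positivity)]
        ring
      rw [e]
      push_cast
      rw [div_add_one (by positivity), div_le_div_iff_of_pos_right (by positivity)]
      linarith
  have h3 : ((∑ n ∈ Finset.Icc (-(H : ℤ)) H,
        ((Finset.Icc (-(H : ℤ)) H).filter fun m => (t : ℤ) ^ 2 ∣ m * n - k).card : ℕ) : ℝ) ≤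
      ((Finset.Icc (-(H : ℤ)) H).card : ℝ) * (3 * H / (t : ℝ) ^ 2) := by
    push_cast
    refine (Finset.sum_le_sum h2).trans ?_
    rw [Finset.sum_const, nsmul_eq_mul]
  have h4 : ((Finset.Icc (-(H : ℤ)) H).card : ℝ) ≤ 3 * H := by
    rw [Int.card_Icc]
    have : ((H : ℤ) + 1 - -(H : ℤ)).toNat = 2 * H + 1 := by omega
    rw [this]
    push_cast
    linarith
  have h5 : (((box H).filter fun p => (t : ℤ) ^ 2 ∣ p.1 * p.2 - k).card : ℝ) ≤
      ((∑ n ∈ Finset.Icc (-(H : ℤ)) H,
        ((Finset.Icc (-(H : ℤ)) H).filter fun m => (t : ℤ) ^ 2 ∣ m * n - k).card : ℕ) : ℝ) := by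
    exact_mod_cast h1
  refine h5.trans (h3.trans ?_)
  calc ((Finset.Icc (-(H : ℤ)) H).card : ℝ) * (3 * H / (t : ℝ) ^ 2)
      ≤ (3 * H) * (3 * H / (t : ℝ) ^ 2) := mul_le_mul_of_nonneg_right h4 (by positivity)
    _ = 9 * (H : ℝ) ^ 2 / (t : ℝ) ^ 2 := by ring

/-- the density of the excluded classes -/
noncomputable def eta (t : ℕ) : ℝ := ((t : ℝ) - 1) / (2 * (t : ℝ) ^ 2)

theorem eta_pos {t : ℕ} (ht : t.Prime) : 0 < eta t ∧ eta t ≤ 1 / t := by
  have h2 : (2 : ℝ) ≤ t := by exact_mod_cast ht.two_le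
  have h0 : (0 : ℝ) < t := by linarith
  unfold eta
  refine ⟨div_pos (by linarith) (by positivity), ?_⟩
  rw [div_le_div_iff₀ (by positivity) h0]
  nlinarith

theorem eta_eq {t : ℕ} (ht : t.Prime) : eta t = 1 / 2 * (1 / t) - 1 / 2 * (1 / (t : ℝ) ^ 2) := by
  have h2 : (2 : ℝ) ≤ t := by exact_mod_cast ht.two_le
  have h0 : (0 : ℝ) < t := by linarith
  unfold eta
  field_simp

open Classical in
/-- the pairs which survive the sieve for `g` -/
noncomputable def Zg (H y Q : ℕ) (k g : ℤ) : Finset (ℤ × ℤ) :=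
  (box H).filter fun p => ∀ t ∈ prs y Q k.natAbs,
    (t : ℤ) ∣ p.1 * p.2 - k → ¬ NR t (g * p.2)

theorem card_Zg : ∃ C : ℝ, 0 < C ∧ ∀ (H y Q : ℕ) (k g : ℤ), 1 ≤ H → 2 ≤ y → 1 ≤ Q → Q * Q ≤ H →
    k ≠ 0 → g ∣ k → ((Zg H y Q k g).card : ℝ) ≤
      C * (H : ℝ) ^ 2 * Real.exp (-∑ t ∈ prs y Q k.natAbs, eta t) := by
  classical
  obtain ⟨C, hC, hs⟩ := sieve 2 1 one_pos
  refine ⟨9 * C, by positivity, ?_⟩
  intro H y Q k g hH hy hQ hQH hk hgk
  have hHr : (1 : ℝ) ≤ H := by exact_mod_cast hH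
  set f : ℤ × ℤ → (Fin 2 → ℤ) := fun p => ![p.1, p.2] with hf
  have hinj : Function.Injective f := by
    rintro ⟨a, b⟩ ⟨c, d⟩ h
    have h0 := congrFun h 0
    have h1 := congrFun h 1
    simp only [hf, Matrix.cons_val_zero, Matrix.cons_val_one] at h0 h1
    rw [h0, h1]
  have h1 := hs (2 * H + 1) 1 Q ∅ (prs y Q k.natAbs) (fun _ => -(H : ℤ) - 1) ((Zg H y Q k g).image f)
    eta (by omega) hQ (by nlinarith) (Finset.disjoint_empty_left _) (by simp)
    (by
      intro t ht
      rw [Finset.empty_union] at ht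
      exact (mem_prs.1 ht).2.1)
    (fun t ht => (mem_prs.1 ht).1) (by simp) (fun t ht => eta_pos (mem_prs.1 ht).2.1)
    (by
      intro z hz i
      obtain ⟨p, hp, rfl⟩ := Finset.mem_image.1 hz
      have hp1 := mem_box.1 (Finset.mem_filter.1 hp).1
      rw [abs_le, abs_le] at hp1
      fin_cases i
      · simp only [hf]
        push_cast
        show -(H : ℤ) - 1 < p.1 ∧ p.1 ≤ -(H : ℤ) - 1 + (2 * H + 1)
        omega
      · simp only [hf]
        push_cast
        show -(H : ℤ) - 1 < p.2 ∧ p.2 ≤ -(H : ℤ) - 1 + (2 * H + 1)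
        omega)
    (by
      intro t ht
      rw [Finset.empty_union] at ht
      obtain ⟨-, htp, hyt, htk⟩ := mem_prs.1 ht
      have : Fact t.Prime := ⟨htp⟩
      have ht2 : t ≠ 2 := by omega
      have htk' : ¬ (t : ℤ) ∣ k := by rwa [← Int.natCast_dvd] at htk
      have hg0 : ((g : ℤ) : ZMod t) ≠ 0 := by
        intro h0
        rw [ZMod.intCast_zmod_eq_zero_iff_dvd] at h0
        exact htk' (h0.trans hgk)
      refine ⟨univ.filter fun w : Fin 2 → ZMod t => w 0 * w 1 = (k : ZMod t) ∧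
        ¬ IsSquare ((g : ZMod t) * w 1), ?_, ?_⟩
      · have h2 := card_E (k := (k : ZMod t)) ht2 hg0
        have h3 : (t : ℝ) ≤ 2 * ((univ.filter fun w : Fin 2 → ZMod t => w 0 * w 1 = (k : ZMod t) ∧
          ¬ IsSquare ((g : ZMod t) * w 1)).card : ℝ) + 1 := by exact_mod_cast h2
        have ht0 : (0 : ℝ) < t := by exact_mod_cast htp.pos
        have e : eta t * (t : ℝ) ^ 2 = ((t : ℝ) - 1) / 2 := by
          unfold eta
          field_simp
        rw [e]
        linarith
      · intro z hz hmem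
        obtain ⟨p, hp, rfl⟩ := Finset.mem_image.1 hz
        rw [Finset.mem_filter] at hmem
        obtain ⟨-, h2, h3⟩ := hmem
        simp only [hf, Matrix.cons_val_zero, Matrix.cons_val_one] at h2 h3
        refine (Finset.mem_filter.1 hp).2 t ht ?_ ?_
        · rw [← ZMod.intCast_zmod_eq_zero_iff_dvd]
          push_cast
          rw [h2, sub_self]
        · unfold NR
          push_cast
          exact h3)
  rw [Finset.card_image_of_injective _ hinj, Finset.prod_empty, mul_one] at h1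
  refine h1.trans ?_
  refine mul_le_mul_of_nonneg_right ?_ (Real.exp_pos _).le
  push_cast
  have : (2 * (H : ℝ) + 1) ^ 2 ≤ 9 * (H : ℝ) ^ 2 := by nlinarith
  nlinarith

open Classical in
/-- the pairs without certificate: the covering by the sets `Zg` and the bad pairs -/
theorem nocert_sub {H y Q : ℕ} {k : ℤ} (hk : k ≠ 0) {p : ℤ × ℤ} (hp : p ∈ box H)
    (hc : ¬ Cert p.1 p.2 k) :
    (∃ t ∈ prs y Q k.natAbs, (t : ℤ) ^ 2 ∣ p.1 * p.2 - k) ∨
      ∃ g ∈ (Finset.Icc (-(k.natAbs : ℤ)) k.natAbs).filter (fun g => g ∣ k), p ∈ Zg H y Q k g := by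
  by_contra hcon
  push Not at hcon
  obtain ⟨h1, h2⟩ := hcon
  apply hc
  refine ⟨hk, fun g h hgh => ?_⟩
  have hgk : g ∣ k := ⟨h, hgh.symm⟩
  have hg : g ∈ (Finset.Icc (-(k.natAbs : ℤ)) k.natAbs).filter (fun g => g ∣ k) := by
    rw [Finset.mem_filter, Finset.mem_Icc, ← abs_le]
    refine ⟨?_, hgk⟩
    rw [Int.natCast_natAbs]
    exact Int.le_of_dvd (abs_pos.2 hk) ((abs_dvd_abs _ _).2 hgk)
  have h3 := h2 g hg
  unfold Zg at h3
  rw [Finset.mem_filter] at h3
  push Not at h3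
  obtain ⟨t, ht, h4, h5⟩ := h3 hp
  have htp := (mem_prs.1 ht).2.1
  refine ⟨t, htp.two_le, ?_⟩
  refine obs_c htp ?_ ?_ h5
  · rw [hgh]
    exact h4
  · rw [hgh]
    exact h1 t ht

end Pool.Agent.H14Q
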